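import Pool.Agent.T9h15.UN.Tree

set_option autoImplicit false
set_option linter.unusedSectionVars false
set_option linter.unusedSimpArgs false

/-! Good kernels for free groups. -/

namespace Pool.Agent.T9h15.UN

open Matrix

theorem KP.equiv {E E' : Type} [Group E] [Group E'] (e : E ≃* E') (h : KP E) : KP E' := by
  intro n N Φ
  let f : MonoidAlgebra ℤ E →+* MonoidAlgebra ℤ E' := MonoidAlgebra.mapDomainRingHom ℤ e.toMonoidHom
  let f' : MonoidAlgebra ℤ E' →+* MonoidAlgebra ℤ E :=
    MonoidAlgebra.mapDomainRingHom ℤ e.symm.toMonoidHom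
  have h1 : ∀ x, f (f' x) = x := by
    intro x
    have h := congrArg (fun φ => φ x) (MonoidAlgebra.mapDomainRingHom_comp (R := ℤ) e.toMonoidHom e.symm.toMonoidHom)
    have h3 : e.toMonoidHom.comp e.symm.toMonoidHom = MonoidHom.id E' := by ext x; simp
    rw [h3, MonoidAlgebra.mapDomainRingHom_id] at h
    exact h.symm
  have h2 : ∀ x, f' (f x) = x := by
    intro x
    have h := congrArg (fun φ => φ x) (MonoidAlgebra.mapDomainRingHom_comp (R := ℤ) e.symm.toMonoidHom e.toMonoidHom)
    have h3 : e.symm.toMonoidHom.comp e.toMonoidHom = MonoidHom.id E := by ext x; simp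
    rw [h3, MonoidAlgebra.mapDomainRingHom_id] at h
    exact h.symm
  obtain ⟨m, X, e', h3, h4, h5, h6⟩ := h n N (Φ.map f')
  have hvm : ∀ {p q : ℕ} (v : Fin p → MonoidAlgebra ℤ E') (A : Matrix (Fin p) (Fin q) (MonoidAlgebra ℤ E)),
      (fun j => f' ((v ᵥ* A.map f) j)) = (fun i => f' (v i)) ᵥ* A := by
    intro p q v A
    ext1 j
    simp [Matrix.vecMul, dotProduct, h2]
  have hvm' : ∀ {p q : ℕ} (v : Fin p → MonoidAlgebra ℤ E') (A : Matrix (Fin p) (Fin q) (MonoidAlgebra ℤ E')),
      (fun j => f' ((v ᵥ* A) j)) = (fun i => f' (v i)) ᵥ* A.map f' := by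
    intro p q v A
    ext1 j
    simp [Matrix.vecMul, dotProduct]
  refine ⟨m, X.map f, e'.map f, ?_, ?_, ?_, ?_⟩
  · have e1 : Φ = (Φ.map f').map f := by ext1 i j; simp [h1]
    rw [e1, ← Matrix.map_mul, h3]
    ext1 i j
    simp
  · rw [← Matrix.map_mul, h4]
  · intro y hy
    obtain ⟨s, hs⟩ := h5 (fun i => f' (y i)) (by
      rw [← hvm', hy]
      ext1 j
      simp)
    refine ⟨fun i => f (s i), ?_⟩
    ext1 j
    have e1 := congrArg f (congrFun hs j)
    simp only [h1] at e1
    rw [e1]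
    simp [Matrix.vecMul, dotProduct]
  · intro s hs
    have e1 := h6 (fun i => f' (s i)) (by
      rw [← hvm, hs]
      ext1 j
      simp)
    ext1 j
    have e2 := congrFun e1 j
    rw [← congrFun (hvm s e') j] at e2
    have e3 := congrArg f e2
    rw [h1] at e3
    simpa using e3

theorem KP.of_free (E : Type) [Group E] [IsFreeGroup E] : KP E :=
  (kp_free (IsFreeGroup.Generators E)).equiv (IsFreeGroup.toFreeGroup E).symm

end Pool.Agent.T9h15.UN
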