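import Pool.Agent.T9h15.UN.Ref

set_option autoImplicit false
set_option linter.unusedSectionVars false
set_option linter.unusedSimpArgs false

/-! Forms supported near the edges of a tree with a group action. -/

namespace Pool.Agent.T9h15.UN

open Matrix TH6.LF TH57.Thr

section tree

variable {V : Type} {T : SimpleGraph V}

theorem closer_unique (hT : T.IsTree) {s a b c : V} (hab : T.Adj b a) (hac : T.Adj c a)
    (hb : T.dist s a = T.dist s b + 1) (hc : T.dist s a = T.dist s c + 1) : b = c := by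
  obtain ⟨p, hp⟩ := hT.connected.exists_walk_length_eq_dist s b
  obtain ⟨q, hq⟩ := hT.connected.exists_walk_length_eq_dist s c
  have h1 : (p.concat hab).IsPath := by
    apply SimpleGraph.Walk.isPath_of_length_eq_dist
    rw [SimpleGraph.Walk.length_concat, hp, hb]
  have h2 : (q.concat hac).IsPath := by
    apply SimpleGraph.Walk.isPath_of_length_eq_dist
    rw [SimpleGraph.Walk.length_concat, hq, hc]
  have h3 : (⟨_, h1⟩ : T.Path s a) = ⟨_, h2⟩ := (hT.isAcyclic.subsingleton_path s a).elim _ _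
  have h4 := congrArg (fun r : T.Path s a => r.1.penultimate) h3
  simpa using h4

theorem farther (hT : T.IsTree) {s a b c : V} (hab : T.Adj b a) (hac : T.Adj c a)
    (hb : T.dist s a = T.dist s b + 1) (hne : b ≠ c) : T.dist s c = T.dist s a + 1 := by
  rcases hT.dist_eq_dist_add_one_of_adj s hac with h | h
  · exact h
  · exact absurd (closer_unique hT hab hac hb h) hne

/-- the vertex of an edge which is fixed by the relation `b` -/
def cm (b : Bool) (p : V × V) : V := if b then p.1 else p.2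

/-- the vertex of an edge which is moved by the relation `b` -/
def mv (b : Bool) (p : V × V) : V := if b then p.2 else p.1

theorem cm_not (b : Bool) (p : V × V) : cm (!b) p = mv b p := by cases b <;> rfl

theorem mv_not (b : Bool) (p : V × V) : mv (!b) p = cm b p := by cases b <;> rfl

theorem cm_mv_ext (b : Bool) {p q : V × V} (h : cm b p = cm b q) (h' : mv b p = mv b q) :
    p = q := by
  cases b
  · exact Prod.ext h' h
  · exact Prod.ext h h'

theorem adj_cm_mv (b : Bool) {p : V × V} (h : T.Adj p.1 p.2) : T.Adj (mv b p) (cm b p) := by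
  cases b
  · exact h
  · exact h.symm

variable (T) in
/-- adjacent edges of the tree -/
def trR (b : Bool) (p q : V × V) : Prop :=
  T.Adj p.1 p.2 ∧ T.Adj q.1 q.2 ∧ cm b p = cm b q ∧ mv b p ≠ mv b q

/-- the starting point of a walk -/
def st (b : Bool) (n : ℕ) (x : V × V) : V := if n % 2 = 0 then mv (!b) x else mv b x

theorem st_succ (b : Bool) (n : ℕ) (x : V × V) : st b (n + 1) x = st (!b) n x := by
  unfold st
  rw [Bool.not_not]
  rcases Nat.mod_two_eq_zero_or_one n with h | h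
  · have h1 : (n + 1) % 2 = 1 := by omega
    rw [h, h1]; simp
  · have h1 : (n + 1) % 2 = 0 := by omega
    rw [h, h1]; simp

theorem wk_dist (hT : T.IsTree) (n : ℕ) : ∀ (b : Bool) (x y : V × V), T.Adj x.1 x.2 →
    Wk (trR T) b n x y → T.dist (st b n x) (cm b y) = n ∧ T.dist (st b n x) (mv b y) = n + 1 := by
  induction n with
  | zero =>
    intro b x y hx h
    have h1 : x = y := h
    subst h1
    have h2 : st b 0 x = cm b x := by
      rw [← mv_not]; rfl
    rw [h2]
    refine ⟨SimpleGraph.dist_self, ?_⟩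
    rw [zero_add, SimpleGraph.dist_eq_one_iff_adj]
    exact (adj_cm_mv b hx).symm
  | succ n ih =>
    rintro b x z hx ⟨y, h1, h2, h3, h4, h5⟩
    obtain ⟨e1, e2⟩ := ih (!b) x y hx h1
    rw [st_succ]
    rw [mv_not] at e2
    rw [cm_not] at e1
    rw [← h4]
    refine ⟨e2, ?_⟩
    rw [farther hT (adj_cm_mv b h2) (c := mv b z) (by rw [h4]; exact adj_cm_mv b h3)
      (by rw [e1, e2]) h5, e2]

theorem wk_adj (n : ℕ) : ∀ (b : Bool) (x y : V × V), Wk (trR T) b (n + 1) x y → T.Adj x.1 x.2 := by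
  induction n with
  | zero =>
    rintro b x z ⟨y, h1, h2, -⟩
    have h3 : x = y := h1
    rw [h3]; exact h2
  | succ n ih =>
    rintro b x z ⟨y, h1, -⟩
    exact ih _ _ _ h1

variable {Γ : Type} [Group Γ] [MulAction Γ V]

theorem cm_smul (b : Bool) (g : Γ) (p : V × V) : cm b (g • p) = g • cm b p := by cases b <;> rfl

theorem mv_smul (b : Bool) (g : Γ) (p : V × V) : mv b (g • p) = g • mv b p := by cases b <;> rfl

/-- the system of labels of a tree with a group action -/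
def treeSys (hT : T.IsTree) (hΓ : ∀ (g : Γ) (u v : V), T.Adj u v → T.Adj (g • u) (g • v)) :
    Sys Γ (V × V) where
  R := trR T
  inv := by
    rintro b g p q ⟨h1, h2, h3, h4⟩
    refine ⟨hΓ g _ _ h1, hΓ g _ _ h2, ?_, ?_⟩
    · rw [cm_smul, cm_smul, h3]
    · rw [mv_smul, mv_smul]
      exact fun h => h4 (MulAction.injective g h)
  symm := fun b p q ⟨h1, h2, h3, h4⟩ => ⟨h2, h1, h3.symm, Ne.symm h4⟩
  irr := fun b p h => h.2.2.2 rfl
  nc := by
    intro b n x y₁ y₂ z h1 h2 h3 h4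
    rcases n with _ | n
    · have e1 : x = y₁ := h1
      have e2 : x = y₂ := h2
      rw [← e1, ← e2]
    · have hx := wk_adj n _ _ _ h1
      obtain ⟨a1, a2⟩ := wk_dist hT _ _ _ _ hx h1
      obtain ⟨b1, b2⟩ := wk_dist hT _ _ _ _ hx h2
      rw [cm_not] at a1 b1
      rw [mv_not] at a2 b2
      have e1 : cm b y₁ = cm b y₂ := h3.2.2.1.trans h4.2.2.1.symm
      refine cm_mv_ext b e1 ?_
      exact closer_unique hT (adj_cm_mv b h3.1) (by rw [e1]; exact adj_cm_mv b h4.1)
        (by rw [a1, a2]) (by rw [b1, a2])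

end tree

section nilp

variable {V : Type} {T : SimpleGraph V} {Γ : Type} [Group Γ] [MulAction Γ V]

theorem dist_smul_le (hT : T.IsTree) (hΓ : ∀ (g : Γ) (u v : V), T.Adj u v → T.Adj (g • u) (g • v))
    (g : Γ) (u v : V) : T.dist (g • u) (g • v) ≤ T.dist u v := by
  obtain ⟨p, hp⟩ := hT.connected.exists_walk_length_eq_dist u v
  let f : T →g T := ⟨fun x => g • x, fun {a b} h => hΓ g a b h⟩
  have h1 := SimpleGraph.dist_le (p.map f)
  rw [SimpleGraph.Walk.length_map, hp] at h1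
  exact h1

theorem dist_smul (hT : T.IsTree) (hΓ : ∀ (g : Γ) (u v : V), T.Adj u v → T.Adj (g • u) (g • v))
    (g : Γ) (u v : V) : T.dist (g • u) (g • v) = T.dist u v := by
  refine le_antisymm (dist_smul_le hT hΓ g u v) ?_
  have h := dist_smul_le hT hΓ g⁻¹ (g • u) (g • v)
  rwa [inv_smul_smul, inv_smul_smul] at h
variable {κ : Type} [Fintype κ] [DecidableEq κ]

theorem exists_bound (ℓ : κ → V × V) (C : Matrix κ κ (MonoidAlgebra ℤ Γ)) :
    ∃ D : ℕ, Sup ℓ ℓ (fun x y => T.dist x.2 y.2 ≤ D) C := by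
  classical
  refine ⟨∑ k, ∑ l, ∑ g ∈ (C k l).coeff.support, T.dist (ℓ k).2 (g • ℓ l).2, ?_⟩
  intro k l g hg
  calc T.dist (ℓ k).2 (g • ℓ l).2
      ≤ ∑ g ∈ (C k l).coeff.support, T.dist (ℓ k).2 (g • ℓ l).2 :=
        Finset.single_le_sum (f := fun g => T.dist (ℓ k).2 (g • ℓ l).2) (fun _ _ => Nat.zero_le _)
          (Finsupp.mem_support_iff.mpr hg)
    _ ≤ ∑ l, ∑ g ∈ (C k l).coeff.support, T.dist (ℓ k).2 (g • ℓ l).2 :=
        Finset.single_le_sum (f := fun l => ∑ g ∈ (C k l).coeff.support,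
          T.dist (ℓ k).2 (g • ℓ l).2) (fun _ _ => Nat.zero_le _) (Finset.mem_univ l)
    _ ≤ _ := Finset.single_le_sum (f := fun k => ∑ l, ∑ g ∈ (C k l).coeff.support,
          T.dist (ℓ k).2 (g • ℓ l).2) (fun _ _ => Nat.zero_le _) (Finset.mem_univ k)

theorem nilp (hT : T.IsTree) (hΓ : ∀ (g : Γ) (u v : V), T.Adj u v → T.Adj (g • u) (g • v))
    {ε : ℤ} (hε : ε * ε = 1) (ℓ : κ → V × V) (hℓ : ∀ k, T.Adj (ℓ k).1 (ℓ k).2)
    (L : Bool → Matrix κ κ (MonoidAlgebra ℤ Γ)) (hL : ∀ c, Sup ℓ ℓ (trR T c) (L c))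
    (C : Matrix κ κ (MonoidAlgebra ℤ Γ)) (hC : C = 1 + ε • (L true * L false * C)) :
    ∃ N : ℕ, (L true * L false) ^ N = 0 := by
  classical
  obtain ⟨D, hD⟩ := exists_bound (T := T) ℓ C
  let X := L true * L false
  have hX : ∀ i, Sup ℓ ℓ (Wk (trR T) false (2 * i)) (X ^ i) := by
    intro i
    rw [← apr_pow]
    exact sup_apr (treeSys hT hΓ).inv L hL (2 * i) false
  have hX' : ∀ i k l g, ((X ^ i) k l).coeff g ≠ 0 → T.dist (ℓ k).2 (g • ℓ l).2 = 2 * i := by
    intro i k l g hg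
    have h1 := (wk_dist hT _ _ _ _ (hℓ k) (hX i k l g hg)).1
    have h2 : st false (2 * i) (ℓ k) = (ℓ k).2 := by
      unfold st
      rw [if_pos (by omega)]
      rfl
    rw [h2] at h1
    exact h1
  have hser : ∀ m : ℕ, C = ∑ i ∈ Finset.range m, ε ^ i • X ^ i + ε ^ m • (X ^ m * C) := by
    intro m
    induction m with
    | zero => simp
    | succ m ih =>
      rw [Finset.sum_range_succ, add_assoc]
      have h1 : ε ^ m • X ^ m + ε ^ (m + 1) • (X ^ (m + 1) * C) = ε ^ m • (X ^ m * C) := by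
        have h2 : X ^ m * C = X ^ m + ε • (X ^ (m + 1) * C) := by
          conv_lhs => rw [hC]
          rw [Matrix.mul_add, Matrix.mul_one, Matrix.mul_smul, pow_succ, Matrix.mul_assoc (X ^ m)]
        rw [h2, smul_add, smul_smul, pow_succ]
      rw [h1]
      exact ih
  refine ⟨D + 1, ?_⟩
  ext k l g
  by_contra hne
  have hne' : ((X ^ (D + 1)) k l).coeff g ≠ 0 := hne
  have hdist := hX' _ _ _ _ hne'
  let m := 2 * D + 3
  have h1 := congrArg (fun M : Matrix κ κ (MonoidAlgebra ℤ Γ) => (M k l).coeff g) (hser m)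
  simp only [Matrix.add_apply, coeff_add', Matrix.sum_apply, coeff_sum', Matrix.smul_apply,
    coeff_zsmul'] at h1
  have h2 : (C k l).coeff g = 0 := by
    by_contra h3
    have := hD k l g h3
    omega
  have h3 : ((X ^ m * C) k l).coeff g = 0 := by
    by_contra h4
    rw [Matrix.mul_apply, coeff_sum'] at h4
    obtain ⟨j, _, hj⟩ := Finset.exists_ne_zero_of_sum_ne_zero h4
    obtain ⟨a, ha1, ha2⟩ := coeff_mul_ne hj
    have e1 := hX' m k j a ha1
    have e2 := hD j l _ ha2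
    have e3 : T.dist (a • ℓ j).2 (g • ℓ l).2 = T.dist (ℓ j).2 ((a⁻¹ * g) • ℓ l).2 := by
      rw [← dist_smul hT hΓ a (ℓ j).2, mul_smul]
      change _ = T.dist (a • (ℓ j).2) (a • a⁻¹ • (g • ℓ l).2)
      rw [smul_inv_smul]
      rfl
    have e4 := hT.connected.dist_triangle (u := (ℓ k).2) (v := (g • ℓ l).2) (w := (a • ℓ j).2)
    rw [SimpleGraph.dist_comm (u := (g • ℓ l).2)] at e4
    omega
  rw [h2, h3, mul_zero, add_zero, Finset.sum_eq_single_of_mem (D + 1) (by
    rw [Finset.mem_range]; omega)] at h1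
  · have h4 : ε ^ (D + 1) ≠ 0 := pow_ne_zero _ (by rintro rfl; simp at hε)
    exact (mul_ne_zero h4 hne') h1.symm
  · intro i _ hi
    have h4 : ((X ^ i) k l).coeff g = 0 := by
      by_contra h5
      have := hX' i k l g h5
      omega
    rw [h4, mul_zero]

/-- **The theorem in terms of the tree.** -/
theorem tree_main (hT : T.IsTree)
    (hΓ : ∀ (g : Γ) (u v : V), T.Adj u v → T.Adj (g • u) (g • v))
    (hno : ∀ g : Γ, g = g⁻¹ → g = 1) (m : ℕ)
    (hm : ∀ x y : V, m ≤ T.dist x y →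
      LFK (MulAction.stabilizer Γ x ⊓ MulAction.stabilizer Γ y))
    {ε : ℤ} (hε : ε * ε = 1) (ℓ : κ → V × V) (hℓ : ∀ k, T.Adj (ℓ k).1 (ℓ k).2)
    (ψ : Bool → Matrix κ κ (MonoidAlgebra ℤ Γ)) (hψ : ∀ c, Sup ℓ ℓ (trR T c) (ψ c))
    (hu : IsUnit (uf (ψ true) (ψ false) + ε • adj (uf (ψ true) (ψ false)))) :
    Z0 ε (uf (ψ true) (ψ false)) := by
  let S := treeSys hT hΓ
  have hLs : ∀ c, Sup ℓ ℓ (trR T c) (ψ c + ε • adj (ψ c)) := fun c =>
    (hψ c).add (((hψ c).adj (S.inv c) (S.symm c)).zsmul ε)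
  -- nilpotency
  obtain ⟨N, hN⟩ : ∃ N : ℕ, ((ψ true + ε • adj (ψ true)) * (ψ false + ε • adj (ψ false))) ^ N
      = 0 := by
    obtain ⟨B, hB⟩ := hu.exists_right_inv
    rw [uf, adj_fromBlocks, adj_zero, adj_one, fromBlocks_smul, fromBlocks_add, smul_zero,
      add_zero, zero_add, ← fromBlocks_toBlocks B, fromBlocks_multiply, ← fromBlocks_one] at hB
    obtain ⟨h1, -, h2, -⟩ := fromBlocks_inj.mp hB
    rw [Matrix.one_mul] at h1
    refine nilp hT hΓ hε ℓ hℓ (fun c => ψ c + ε • adj (ψ c)) hLs B.toBlocks₂₁ ?_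
    have h3 : B.toBlocks₁₁ = -(ε • ((ψ false + ε • adj (ψ false)) * B.toBlocks₂₁)) := by
      have h4 := congrArg (fun M => ε • M) h2
      simp only [Matrix.smul_mul, Matrix.one_mul, smul_add, smul_smul, hε, one_smul,
        smul_zero] at h4
      exact eq_neg_of_add_eq_zero_left h4
    rw [h3] at h1
    rw [Matrix.mul_neg, Matrix.mul_smul, ← Matrix.mul_assoc] at h1
    have h5 := eq_add_of_sub_eq' (a := B.toBlocks₂₁) (b := ε • ((ψ true + ε • adj (ψ true))
      * (ψ false + ε • adj (ψ false)) * B.toBlocks₂₁)) (c := 1) (by rw [← h1]; abel)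
    rw [add_comm]
    exact h5
  refine stage hno hε (m + 1) S true ?_ ℓ ψ hψ N hN
  intro x z hxz
  have hx := wk_adj m _ _ _ hxz
  have hd := (wk_dist hT _ _ _ _ hx hxz).2
  refine (hm (st true (m + 1) x) (mv true z) (by omega)).mono ?_
  intro g hg
  rw [Subgroup.mem_inf, MulAction.mem_stabilizer_iff, MulAction.mem_stabilizer_iff] at hg ⊢
  refine ⟨?_, ?_⟩
  · unfold st
    split_ifs
    · rw [← mv_smul, hg.1]
    · rw [← mv_smul, hg.1]
  · rw [← mv_smul, hg.2]

end nilp

end Pool.Agent.T9h15.UN
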