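import Pool.Agent.T9h15.UN.Lab

set_option autoImplicit false
set_option linter.unusedSectionVars false
set_option linter.unusedSimpArgs false

/-! Base change for kernels of matrices over group rings. -/

namespace Pool.Agent.T9h15.UN

open Matrix TH6.LF

variable {Γ : Type} [Group Γ]

section bc

variable (F : Subgroup Γ)

/-- the component of `x` on the left coset of `γ` -/
noncomputable def cmp (γ : Γ) (x : MonoidAlgebra ℤ Γ) : MonoidAlgebra ℤ F :=
  .ofCoeff (x.coeff.comapDomain (fun h : F => γ * h) (by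
    intro a _ b _ h
    exact Subtype.ext (mul_left_cancel h)))

theorem coeff_cmp (γ : Γ) (x : MonoidAlgebra ℤ Γ) (h : F) :
    (cmp F γ x).coeff h = x.coeff (γ * h) := rfl

theorem cmp_add (γ : Γ) (x y : MonoidAlgebra ℤ Γ) : cmp F γ (x + y) = cmp F γ x + cmp F γ y := by
  ext h
  rw [coeff_add', coeff_cmp, coeff_cmp, coeff_cmp, coeff_add']

theorem cmp_zero (γ : Γ) : cmp F γ (0 : MonoidAlgebra ℤ Γ) = 0 := by
  ext h
  rw [coeff_cmp]
  simp

theorem cmp_sum {ι : Type} (s : Finset ι) (f : ι → MonoidAlgebra ℤ Γ) (γ : Γ) :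
    cmp F γ (∑ i ∈ s, f i) = ∑ i ∈ s, cmp F γ (f i) := by
  ext h
  rw [coeff_cmp, coeff_sum', coeff_sum']
  simp only [coeff_cmp]

/-- the inclusion of group rings -/
noncomputable abbrev inc : MonoidAlgebra ℤ F →+* MonoidAlgebra ℤ Γ :=
  MonoidAlgebra.mapDomainRingHom ℤ F.subtype

open Classical in
theorem coeff_inc (a : MonoidAlgebra ℤ F) (g : Γ) :
    (inc F a).coeff g = if h : g ∈ F then a.coeff ⟨g, h⟩ else 0 := by
  change (MonoidAlgebra.mapDomain F.subtype a).coeff g = _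
  rw [MonoidAlgebra.coeff_mapDomain]
  split_ifs with h
  · exact Finsupp.mapDomain_apply F.subtype_injective a.coeff ⟨g, h⟩
  · apply Finsupp.mapDomain_of_notMem_range
    simpa using h

theorem cmp_mul (γ : Γ) (x : MonoidAlgebra ℤ Γ) (a : MonoidAlgebra ℤ F) :
    cmp F γ (x * inc F a) = cmp F γ x * a := by
  induction a using MonoidAlgebra.induction_linear with
  | zero => rw [map_zero, mul_zero, mul_zero, cmp_zero]
  | add a b ha hb => rw [map_add, mul_add, mul_add, cmp_add, ha, hb]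
  | single f r =>
    have h1 : inc F (MonoidAlgebra.single f r) = MonoidAlgebra.single (f : Γ) r := by
      change MonoidAlgebra.mapDomain F.subtype (MonoidAlgebra.single f r) = _
      rw [MonoidAlgebra.mapDomain_single]
      rfl
    rw [h1]
    ext h
    rw [coeff_cmp, MonoidAlgebra.coeff_mul_single_apply, MonoidAlgebra.coeff_mul_single_apply,
      coeff_cmp, mul_assoc]
    rfl

open Classical in
theorem exists_reps (S : Finset Γ) : ∃ T : Finset Γ, ∀ x : MonoidAlgebra ℤ Γ,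
    x.coeff.support ⊆ S → x = ∑ γ ∈ T, MonoidAlgebra.single γ (1 : ℤ) * inc F (cmp F γ x) := by
  refine ⟨S.image fun g => (QuotientGroup.mk g : Γ ⧸ F).out, fun x hx => ?_⟩
  ext g
  rw [coeff_sum']
  have h1 : ∀ γ, (MonoidAlgebra.single γ (1 : ℤ) * inc F (cmp F γ x)).coeff g
      = if γ⁻¹ * g ∈ F then x.coeff g else 0 := by
    intro γ
    rw [MonoidAlgebra.coeff_single_mul_apply, one_mul, coeff_inc]
    split_ifs with h
    · rw [coeff_cmp]; congr 1; group
    · rfl
  simp only [h1]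
  by_cases hg : x.coeff g = 0
  · simp [hg]
  have hgS : g ∈ S := hx (Finsupp.mem_support_iff.mpr hg)
  have hmem : (QuotientGroup.mk g : Γ ⧸ F).out ∈ S.image fun g => (QuotientGroup.mk g : Γ ⧸ F).out :=
    Finset.mem_image_of_mem _ hgS
  rw [Finset.sum_eq_single_of_mem _ hmem]
  · rw [if_pos]
    rw [← QuotientGroup.eq]
    exact QuotientGroup.out_eq' _
  · intro γ hγ hne
    rw [if_neg]
    intro h2
    apply hne
    obtain ⟨g', _, rfl⟩ := Finset.mem_image.mp hγ
    rw [← QuotientGroup.eq, QuotientGroup.out_eq'] at h2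
    rw [h2]

theorem map_vecMul {R S : Type} [Semiring R] [Semiring S] (f : R →+* S) {κ μ : Type} [Fintype κ]
    (v : κ → R) (A : Matrix κ μ R) : (fun j => f ((v ᵥ* A) j)) = (fun i => f (v i)) ᵥ* (A.map f) := by
  ext1 j
  simp [Matrix.vecMul, dotProduct]

theorem base_change (hF : KP F) {κ μ : Type} [Fintype κ] [Fintype μ]
    (Φ : Matrix κ μ (MonoidAlgebra ℤ Γ)) (hΦ : ∀ i j g, (Φ i j).coeff g ≠ 0 → g ∈ F) :
    ∃ (m : ℕ) (X : Matrix (Fin m) κ (MonoidAlgebra ℤ Γ))
      (e : Matrix (Fin m) (Fin m) (MonoidAlgebra ℤ Γ)),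
      (∀ i j g, (X i j).coeff g ≠ 0 → g ∈ F) ∧ (∀ i j g, (e i j).coeff g ≠ 0 → g ∈ F) ∧
      X * Φ = 0 ∧ e * X = X ∧
      (∀ v : κ → MonoidAlgebra ℤ Γ, v ᵥ* Φ = 0 → ∃ s : Fin m → MonoidAlgebra ℤ Γ, v = s ᵥ* X) ∧
      (∀ s : Fin m → MonoidAlgebra ℤ Γ, s ᵥ* X = 0 → s ᵥ* e = 0) := by
  classical
  let a := Fintype.equivFin κ
  let b := Fintype.equivFin μ
  let Φ₀ : Matrix (Fin (Fintype.card κ)) (Fin (Fintype.card μ)) (MonoidAlgebra ℤ F) :=
    fun i j => cmp F 1 (Φ (a.symm i) (b.symm j))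
  obtain ⟨m, X, e, h1, h2, h3, h4⟩ := hF _ _ Φ₀
  have hΦ₀ : Φ = (Φ₀.map (inc F)).submatrix a b := by
    ext i j g
    rw [Matrix.submatrix_apply, Matrix.map_apply, coeff_inc]
    simp only [Φ₀, Equiv.symm_apply_apply, coeff_cmp, one_mul]
    split_ifs with h
    · rfl
    · by_contra h5
      exact h (hΦ _ _ _ h5)
  have hsup : ∀ (x : MonoidAlgebra ℤ F) g, (inc F x).coeff g ≠ 0 → g ∈ F := by
    intro x g hg
    by_contra h
    exact hg (by rw [coeff_inc, dif_neg h])
  have hm : ∀ {α β γ : Type} [Fintype β] (A : Matrix α β (MonoidAlgebra ℤ F))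
      (B : Matrix β γ (MonoidAlgebra ℤ F)), (A * B).map (inc F) = A.map (inc F) * B.map (inc F) := by
    intro α β γ _ A B
    exact Matrix.map_mul
  have hgen : ∀ {p q : ℕ} (v : Fin p → MonoidAlgebra ℤ Γ) (A : Matrix (Fin p) (Fin q) (MonoidAlgebra ℤ F))
      (γ : Γ), v ᵥ* (A.map (inc F)) = 0 → (fun i => cmp F γ (v i)) ᵥ* A = 0 := by
    intro p q v A γ hv
    ext1 j
    have h5 := congrArg (cmp F γ) (congrFun hv j)
    rw [Matrix.vecMul, dotProduct, cmp_sum] at h5
    simp only [Matrix.map_apply, cmp_mul, Pi.zero_apply, cmp_zero] at h5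
    exact h5
  have hrec : ∀ {p q : ℕ} (v : Fin p → MonoidAlgebra ℤ Γ) (w : Γ → Fin q → MonoidAlgebra ℤ F)
      (A : Matrix (Fin q) (Fin p) (MonoidAlgebra ℤ F)),
      (∀ γ, (fun i => cmp F γ (v i)) = w γ ᵥ* A) → ∃ s : Fin q → MonoidAlgebra ℤ Γ,
        v = s ᵥ* (A.map (inc F)) := by
    intro p q v w A hw
    obtain ⟨T, hT⟩ := exists_reps F (Finset.univ.biUnion fun i => (v i).coeff.support)
    refine ⟨∑ γ ∈ T, fun i => MonoidAlgebra.single γ (1 : ℤ) * inc F (w γ i), ?_⟩
    rw [Matrix.sum_vecMul]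
    ext1 i
    rw [hT (v i) (Finset.subset_biUnion_of_mem (fun i => (v i).coeff.support) (Finset.mem_univ i)),
      Finset.sum_apply]
    refine Finset.sum_congr rfl fun γ _ => ?_
    have h5 := congrArg (inc F) (congrFun (hw γ) i)
    have h6 := congrFun (map_vecMul (inc F) (w γ) A) i
    rw [h5, h6, Matrix.vecMul, Matrix.vecMul, dotProduct, dotProduct, Finset.mul_sum]
    exact Finset.sum_congr rfl fun _ _ => (mul_assoc _ _ _).symm
  refine ⟨m, (X.map (inc F)).submatrix id a, e.map (inc F), fun i j g => hsup _ g,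
    fun i j g => hsup _ g, ?_, ?_, ?_, ?_⟩
  · rw [hΦ₀, Matrix.submatrix_mul_equiv, ← hm, h1]
    ext1 i j
    simp
  · have h5 : e.map (inc F) * (X.map (inc F)).submatrix id a
        = (e.map (inc F) * X.map (inc F)).submatrix id a := rfl
    rw [h5, ← hm, h2]
  · intro v hv
    have h5 : (fun i => v (a.symm i)) ᵥ* (Φ₀.map (inc F)) = 0 := by
      ext1 j
      have h6 := congrFun hv (b.symm j)
      rw [hΦ₀] at h6
      simp only [Matrix.vecMul, dotProduct, Matrix.submatrix_apply, Equiv.apply_symm_apply,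
        Pi.zero_apply] at h6 ⊢
      rw [← h6]
      exact (Equiv.sum_comp a _).symm.trans (Finset.sum_congr rfl fun i _ => by simp)
    have h6 : ∀ γ, ∃ s : Fin m → MonoidAlgebra ℤ F, (fun i => cmp F γ (v (a.symm i))) = s ᵥ* X :=
      fun γ => h3 _ (hgen _ _ γ h5)
    choose w hw using h6
    obtain ⟨s, hs⟩ := hrec _ w X hw
    refine ⟨s, ?_⟩
    ext1 k
    have h7 := congrFun hs (a k)
    simp only [Equiv.symm_apply_apply] at h7
    exact h7
  · intro s hs
    have h5 : s ᵥ* (X.map (inc F)) = 0 := by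
      ext1 j
      have h6 := congrFun hs (a.symm j)
      simpa [Matrix.vecMul, dotProduct] using h6
    have h6 : ∀ γ, (fun i => cmp F γ (s i)) ᵥ* e = 0 := fun γ => h4 _ (hgen _ _ γ h5)
    ext j g
    obtain ⟨T, hT⟩ := exists_reps F {g}
    have h7 := congrFun (h6 g) j
    have h8 : cmp F g ((s ᵥ* e.map (inc F)) j) = 0 := by
      rw [Matrix.vecMul, dotProduct, cmp_sum]
      simp only [Matrix.map_apply, cmp_mul]
      exact h7
    have h9 := congrArg (fun x => x.coeff 1) h8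
    simp only [coeff_cmp, OneMemClass.coe_one, mul_one] at h9
    exact h9

end bc

end Pool.Agent.T9h15.UN
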