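import Pool.Agent.R719.LF.Iso

set_option autoImplicit false
set_option linter.unusedSectionVars false
set_option linter.unusedSimpArgs false

/-! Stable simple isometry of quadratic forms over integral group rings. -/

namespace Pool.Agent.T9h15.UN

open Matrix TH57.Thr TH6.LF TH6.CX Pool.Agent.Y75.Th Pool.Agent.Y35.KC.TTm Pool.Agent.R719.DD
  Pool.Agent.R719.LF

variable {Γ : Type} [Group Γ]

section basic

variable {κ μ ι ν : Type} [Fintype κ] [DecidableEq κ] [Fintype μ]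
  [DecidableEq μ] [Fintype ι] [DecidableEq ι] [Fintype ν] [DecidableEq ν]

theorem iso_symm {ε : ℤ} {ψ ψ' : Matrix κ κ (MonoidAlgebra ℤ Γ)} (h : Iso ε ψ ψ') :
    Iso ε ψ' ψ := by
  obtain ⟨E, χ, hE, h1⟩ := h
  refine ⟨E⁻¹, -(E⁻¹.val * χ * adj E⁻¹.val), TT_inv _ _ hE, ?_⟩
  have h2 : ψ' = E.val * ψ * adj E.val - (χ - ε • adj χ) := by rw [h1]; abel
  have h3 : E⁻¹.val * E.val = 1 := E.inv_mul
  have h4 : adj E.val * adj E⁻¹.val = 1 := by rw [← adj_mul, h3, adj_one]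
  rw [h2, Matrix.mul_sub, Matrix.sub_mul, adj_neg, adj_mul, adj_mul, adj_adj]
  have h5 : E⁻¹.val * (E.val * ψ * adj E.val) * adj E⁻¹.val = ψ := by
    calc E⁻¹.val * (E.val * ψ * adj E.val) * adj E⁻¹.val
        = (E⁻¹.val * E.val) * ψ * (adj E.val * adj E⁻¹.val) := by simp only [Matrix.mul_assoc]
      _ = ψ := by rw [h3, h4, Matrix.one_mul, Matrix.mul_one]
  rw [h5, Matrix.mul_sub, Matrix.sub_mul, Matrix.mul_smul, Matrix.smul_mul, smul_neg]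
  simp only [Matrix.mul_assoc]
  abel

/-- isometry of forms on free modules with bases of the same size -/
def IsoE (ε : ℤ) (ψ : Matrix κ κ (MonoidAlgebra ℤ Γ)) (ψ' : Matrix μ μ (MonoidAlgebra ℤ Γ)) :
    Prop :=
  ∃ e : κ ≃ μ, Iso ε ψ (ψ'.submatrix e e)

theorem IsoE.of_iso {ε : ℤ} {ψ ψ' : Matrix κ κ (MonoidAlgebra ℤ Γ)} (h : Iso ε ψ ψ') :
    IsoE ε ψ ψ' := ⟨Equiv.refl κ, h⟩

theorem IsoE.refl (ε : ℤ) (ψ : Matrix κ κ (MonoidAlgebra ℤ Γ)) : IsoE ε ψ ψ :=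
  IsoE.of_iso (Iso.refl ε ψ)

theorem IsoE.of_equiv (ε : ℤ) (ψ : Matrix μ μ (MonoidAlgebra ℤ Γ)) (e : κ ≃ μ) :
    IsoE ε (ψ.submatrix e e) ψ := ⟨e, Iso.refl ε _⟩

theorem IsoE.trans {ε : ℤ} {ψ : Matrix κ κ (MonoidAlgebra ℤ Γ)}
    {ψ' : Matrix μ μ (MonoidAlgebra ℤ Γ)} {ψ'' : Matrix ι ι (MonoidAlgebra ℤ Γ)}
    (h : IsoE ε ψ ψ') (h' : IsoE ε ψ' ψ'') : IsoE ε ψ ψ'' := by
  obtain ⟨e, h1⟩ := h
  obtain ⟨f, h2⟩ := h'
  refine ⟨e.trans f, h1.trans ?_⟩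
  have h3 := h2.reindex e
  rwa [Matrix.submatrix_submatrix] at h3

theorem IsoE.symm {ε : ℤ} {ψ : Matrix κ κ (MonoidAlgebra ℤ Γ)}
    {ψ' : Matrix μ μ (MonoidAlgebra ℤ Γ)} (h : IsoE ε ψ ψ') : IsoE ε ψ' ψ := by
  obtain ⟨e, h1⟩ := h
  refine ⟨e.symm, ?_⟩
  have h3 := (iso_symm h1).reindex e.symm
  rw [Matrix.submatrix_submatrix] at h3
  simpa using h3

/-- orthogonal sum -/
noncomputable def bs (ψ : Matrix κ κ (MonoidAlgebra ℤ Γ)) (φ : Matrix μ μ (MonoidAlgebra ℤ Γ)) :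
    Matrix (κ ⊕ μ) (κ ⊕ μ) (MonoidAlgebra ℤ Γ) := fromBlocks ψ 0 0 φ

theorem IsoE.bs {ε : ℤ} {ψ : Matrix κ κ (MonoidAlgebra ℤ Γ)}
    {ψ' : Matrix μ μ (MonoidAlgebra ℤ Γ)} {φ : Matrix ι ι (MonoidAlgebra ℤ Γ)}
    {φ' : Matrix ν ν (MonoidAlgebra ℤ Γ)} (h : IsoE ε ψ ψ') (h' : IsoE ε φ φ') :
    IsoE ε (bs ψ φ) (bs ψ' φ') := by
  obtain ⟨e, h1⟩ := h
  obtain ⟨f, h2⟩ := h'
  refine ⟨Equiv.sumCongr e f, ?_⟩
  have h3 := h1.blocks h2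
  have h4 : (UN.bs ψ' φ').submatrix (Equiv.sumCongr e f) (Equiv.sumCongr e f)
      = fromBlocks (ψ'.submatrix e e) 0 0 (φ'.submatrix f f) := by
    ext1 i j
    rcases i with i | i <;> rcases j with j | j <;> rfl
  rw [h4]
  exact h3

theorem bs_assoc (ε : ℤ) (a : Matrix κ κ (MonoidAlgebra ℤ Γ)) (b : Matrix μ μ (MonoidAlgebra ℤ Γ))
    (c : Matrix ι ι (MonoidAlgebra ℤ Γ)) : IsoE ε (bs (bs a b) c) (bs a (bs b c)) := by
  have h : bs (bs a b) c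
      = (bs a (bs b c)).submatrix (Equiv.sumAssoc κ μ ι) (Equiv.sumAssoc κ μ ι) := by
    ext1 i j
    rcases i with (i | i) | i <;> rcases j with (j | j) | j <;> rfl
  rw [h]
  exact IsoE.of_equiv ε _ _

theorem bs_comm (ε : ℤ) (a : Matrix κ κ (MonoidAlgebra ℤ Γ))
    (b : Matrix μ μ (MonoidAlgebra ℤ Γ)) : IsoE ε (bs a b) (bs b a) := by
  have h : bs a b = (bs b a).submatrix (Equiv.sumComm κ μ) (Equiv.sumComm κ μ) := by
    ext1 i j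
    rcases i with i | i <;> rcases j with j | j <;> rfl
  rw [h]
  exact IsoE.of_equiv ε _ _

/-- the hyperbolic form -/
noncomputable def hy (Γ : Type) [Group Γ] (μ : Type) [DecidableEq μ] :
    Matrix (μ ⊕ μ) (μ ⊕ μ) (MonoidAlgebra ℤ Γ) := fromBlocks 0 1 0 0

theorem hy_sum (ε : ℤ) : IsoE ε (bs (hy Γ κ) (hy Γ μ)) (hy Γ (κ ⊕ μ)) := by
  let e : (κ ⊕ κ) ⊕ (μ ⊕ μ) ≃ (κ ⊕ μ) ⊕ (κ ⊕ μ) := Equiv.sumSumSumComm κ κ μ μ
  have h : bs (hy Γ κ) (hy Γ μ) = (hy Γ (κ ⊕ μ)).submatrix e e := by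
    ext1 i j
    rcases i with (i | i) | (i | i) <;> rcases j with (j | j) | (j | j) <;>
      simp [bs, hy, e, Equiv.sumSumSumComm, Matrix.one_apply]
  rw [h]
  exact IsoE.of_equiv ε _ _

theorem hy_equiv (ε : ℤ) (e : κ ≃ μ) : IsoE ε (hy Γ κ) (hy Γ μ) := by
  have h : hy Γ κ = (hy Γ μ).submatrix (Equiv.sumCongr e e) (Equiv.sumCongr e e) := by
    ext1 i j
    rcases i with i | i <;> rcases j with j | j <;> simp [hy, Matrix.one_apply]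
  rw [h]
  exact IsoE.of_equiv ε _ _

end basic

section stable

variable {κ μ ι : Type} [Fintype κ] [DecidableEq κ] [Fintype μ]
  [DecidableEq μ] [Fintype ι] [DecidableEq ι]

/-- stable (simple) isometry -/
def SE (ε : ℤ) (ψ : Matrix κ κ (MonoidAlgebra ℤ Γ)) (ψ' : Matrix μ μ (MonoidAlgebra ℤ Γ)) :
    Prop :=
  ∃ (a b : ℕ), IsoE ε (bs ψ (hy Γ (Fin a))) (bs ψ' (hy Γ (Fin b)))

/-- stabilisation by hyperbolic forms on arbitrary finite bases -/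
theorem SE.of_iso {ε : ℤ} {ψ : Matrix κ κ (MonoidAlgebra ℤ Γ)} {ψ' : Matrix μ μ (MonoidAlgebra ℤ Γ)}
    {α β : Type} [Fintype α] [DecidableEq α] [Fintype β] [DecidableEq β]
    (h : IsoE ε (bs ψ (hy Γ α)) (bs ψ' (hy Γ β))) : SE ε ψ ψ' := by
  refine ⟨Fintype.card α, Fintype.card β, ?_⟩
  have h1 := (IsoE.refl ε ψ).bs (hy_equiv (Γ := Γ) ε (Fintype.equivFin α).symm)
  have h2 := (IsoE.refl ε ψ').bs (hy_equiv (Γ := Γ) ε (Fintype.equivFin β))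
  exact (h1.trans h).trans h2

theorem SE.refl (ε : ℤ) (ψ : Matrix κ κ (MonoidAlgebra ℤ Γ)) : SE ε ψ ψ := ⟨0, 0, IsoE.refl _ _⟩

theorem SE.symm {ε : ℤ} {ψ : Matrix κ κ (MonoidAlgebra ℤ Γ)} {ψ' : Matrix μ μ (MonoidAlgebra ℤ Γ)}
    (h : SE ε ψ ψ') : SE ε ψ' ψ := by
  obtain ⟨a, b, h1⟩ := h
  exact ⟨b, a, h1.symm⟩

theorem SE.trans {ε : ℤ} {ψ : Matrix κ κ (MonoidAlgebra ℤ Γ)}
    {ψ' : Matrix μ μ (MonoidAlgebra ℤ Γ)} {ψ'' : Matrix ι ι (MonoidAlgebra ℤ Γ)}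
    (h : SE ε ψ ψ') (h' : SE ε ψ' ψ'') : SE ε ψ ψ'' := by
  obtain ⟨a, b, h1⟩ := h
  obtain ⟨c, d, h2⟩ := h'
  apply SE.of_iso (α := Fin a ⊕ Fin c) (β := Fin d ⊕ Fin b)
  have e1 : IsoE ε (bs ψ (hy Γ (Fin a ⊕ Fin c))) (bs (bs ψ (hy Γ (Fin a))) (hy Γ (Fin c))) :=
    ((IsoE.refl ε ψ).bs (hy_sum ε).symm).trans (bs_assoc ε _ _ _).symm
  have e2 : IsoE ε (bs (bs ψ (hy Γ (Fin a))) (hy Γ (Fin c)))
      (bs (bs ψ' (hy Γ (Fin b))) (hy Γ (Fin c))) := h1.bs (IsoE.refl ε _)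
  have e3 : IsoE ε (bs (bs ψ' (hy Γ (Fin b))) (hy Γ (Fin c)))
      (bs (bs ψ' (hy Γ (Fin c))) (hy Γ (Fin b))) :=
    ((bs_assoc ε _ _ _).trans ((IsoE.refl ε ψ').bs (bs_comm ε _ _))).trans (bs_assoc ε _ _ _).symm
  have e4 : IsoE ε (bs (bs ψ' (hy Γ (Fin c))) (hy Γ (Fin b)))
      (bs (bs ψ'' (hy Γ (Fin d))) (hy Γ (Fin b))) := h2.bs (IsoE.refl ε _)
  have e5 : IsoE ε (bs (bs ψ'' (hy Γ (Fin d))) (hy Γ (Fin b)))
      (bs ψ'' (hy Γ (Fin d ⊕ Fin b))) :=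
    (bs_assoc ε _ _ _).trans ((IsoE.refl ε ψ'').bs (hy_sum ε))
  exact (((e1.trans e2).trans e3).trans e4).trans e5

theorem SE.of_isoE {ε : ℤ} {ψ : Matrix κ κ (MonoidAlgebra ℤ Γ)}
    {ψ' : Matrix μ μ (MonoidAlgebra ℤ Γ)} (h : IsoE ε ψ ψ') : SE ε ψ ψ' :=
  ⟨0, 0, h.bs (IsoE.refl ε _)⟩

theorem SE.of_mod {ε : ℤ} {ψ ψ' χ : Matrix κ κ (MonoidAlgebra ℤ Γ)}
    (h : ψ = ψ' + (χ - ε • adj χ)) : SE ε ψ ψ' :=
  SE.of_isoE (IsoE.of_iso ⟨1, χ, TT_one _, by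
    rw [Units.val_one, adj_one, Matrix.one_mul, Matrix.mul_one]; exact h⟩)

/-- zero in the L-group -/
def Z0 (ε : ℤ) (ψ : Matrix κ κ (MonoidAlgebra ℤ Γ)) : Prop :=
  ∃ (a b : ℕ), IsoE ε (bs ψ (hy Γ (Fin a))) (hy Γ (Fin b))

theorem Z0.of_SE {ε : ℤ} {ψ : Matrix κ κ (MonoidAlgebra ℤ Γ)}
    {ψ' : Matrix μ μ (MonoidAlgebra ℤ Γ)} (h : SE ε ψ ψ') (h' : Z0 ε ψ') : Z0 ε ψ := by
  obtain ⟨a, b, h1⟩ := h
  obtain ⟨c, d, h2⟩ := h'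
  refine ⟨a + c, d + b, ?_⟩
  have e0 : IsoE ε (bs ψ (hy Γ (Fin (a + c)))) (bs ψ (hy Γ (Fin a ⊕ Fin c))) :=
    (IsoE.refl ε ψ).bs (hy_equiv ε finSumFinEquiv.symm)
  have e1 : IsoE ε (bs ψ (hy Γ (Fin a ⊕ Fin c))) (bs (bs ψ (hy Γ (Fin a))) (hy Γ (Fin c))) :=
    ((IsoE.refl ε ψ).bs (hy_sum ε).symm).trans (bs_assoc ε _ _ _).symm
  have e2 : IsoE ε (bs (bs ψ (hy Γ (Fin a))) (hy Γ (Fin c)))
      (bs (bs ψ' (hy Γ (Fin b))) (hy Γ (Fin c))) := h1.bs (IsoE.refl ε _)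
  have e3 : IsoE ε (bs (bs ψ' (hy Γ (Fin b))) (hy Γ (Fin c)))
      (bs (bs ψ' (hy Γ (Fin c))) (hy Γ (Fin b))) :=
    ((bs_assoc ε _ _ _).trans ((IsoE.refl ε ψ').bs (bs_comm ε _ _))).trans (bs_assoc ε _ _ _).symm
  have e4 : IsoE ε (bs (bs ψ' (hy Γ (Fin c))) (hy Γ (Fin b)))
      (bs (hy Γ (Fin d)) (hy Γ (Fin b))) := h2.bs (IsoE.refl ε _)
  have e5 : IsoE ε (bs (hy Γ (Fin d)) (hy Γ (Fin b))) (hy Γ (Fin (d + b))) :=
    (hy_sum ε).trans (hy_equiv ε finSumFinEquiv)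
  exact (((((e0.trans e1).trans e2).trans e3).trans e4).trans e5)

theorem Z0.hy (ε : ℤ) (α : Type) [Fintype α] [DecidableEq α] : Z0 ε (hy Γ α) :=
  ⟨0, Fintype.card α + 0, ((hy_equiv ε (Fintype.equivFin α)).bs (IsoE.refl ε _)).trans
    ((hy_sum ε).trans (hy_equiv ε finSumFinEquiv))⟩

end stable

section uf

variable {κ μ : Type} [Fintype κ] [DecidableEq κ] [Fintype μ] [DecidableEq μ]

/-- the form `x ψ₁ x* + x z* + z ψ₂ z*` -/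
noncomputable def uf (ψ₁ ψ₂ : Matrix κ κ (MonoidAlgebra ℤ Γ)) : Matrix (κ ⊕ κ) (κ ⊕ κ) (MonoidAlgebra ℤ Γ) :=
  fromBlocks ψ₁ 1 0 ψ₂

/-- the elementary matrices which are used below -/
theorem unit_VC (V : Matrix μ μ (MonoidAlgebra ℤ Γ)) (C : Matrix κ (μ ⊕ μ) (MonoidAlgebra ℤ Γ)) :
    ∃ E : (Matrix ((μ ⊕ μ) ⊕ κ) ((μ ⊕ μ) ⊕ κ) (MonoidAlgebra ℤ Γ))ˣ,
      E.val = fromBlocks (fromBlocks 1 V 0 1) 0 C 1 ∧ TT (TU Γ) E := by
  obtain ⟨E, h1, h2⟩ := El_unit (R := MonoidAlgebra ℤ Γ)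
    (1 + (fromBlocks 0 V 0 0 : Matrix (μ ⊕ μ) (μ ⊕ μ) (MonoidAlgebra ℤ Γ)))
    (el_unip (Finset.univ.filter fun v : μ ⊕ μ => v.isLeft) _ (by
      rintro (i | i) (j | j) h <;> simp at h ⊢))
  have e1 : E.val = fromBlocks 1 V 0 1 := by
    rw [h1, ← fromBlocks_one, fromBlocks_add]; simp
  obtain ⟨F, h3, h4⟩ := El_unit (R := MonoidAlgebra ℤ Γ)
    (1 + (fromBlocks 0 0 (C * E⁻¹.val) 0 : Matrix ((μ ⊕ μ) ⊕ κ) ((μ ⊕ μ) ⊕ κ) (MonoidAlgebra ℤ Γ)))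
    (el_unip (Finset.univ.filter fun v : (μ ⊕ μ) ⊕ κ => v.isRight) _ (by
      rintro (i | i) (j | j) h <;> simp at h ⊢))
  refine ⟨F * Units.map (stm κ) E, ?_, TT_mul _ _ _ (h4 _) (TT_st _ _ (h2 _))⟩
  have e2 : F.val = fromBlocks 1 0 (C * E⁻¹.val) 1 := by
    rw [h3, ← fromBlocks_one, fromBlocks_add]; simp
  have e3 : (Units.map (stm κ) E).val = fromBlocks E.val 0 0 1 := rfl
  rw [Units.val_mul, e2, e3, fromBlocks_multiply]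
  simp only [Matrix.one_mul, Matrix.mul_zero, Matrix.zero_mul, add_zero, Matrix.mul_one, zero_add]
  rw [Matrix.mul_assoc, E.inv_mul, Matrix.mul_one, e1]

theorem fb_cols_mul {α β γ δ : Type} [Fintype β] [Fintype γ] (A : Matrix α β (MonoidAlgebra ℤ Γ))
    (B : Matrix α γ (MonoidAlgebra ℤ Γ)) (C : Matrix β δ (MonoidAlgebra ℤ Γ))
    (D : Matrix γ δ (MonoidAlgebra ℤ Γ)) : fromCols A B * fromRows C D = A * C + B * D :=
  Matrix.fromCols_mul_fromRows _ _ _ _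

theorem add_fromRows {α β γ : Type} (A B : Matrix α γ (MonoidAlgebra ℤ Γ))
    (C D : Matrix β γ (MonoidAlgebra ℤ Γ)) :
    fromRows A C + fromRows B D = fromRows (A + B) (C + D) := by
  ext1 i j; rcases i with i | i <;> rfl

theorem add_fromCols {α β γ : Type} (A B : Matrix γ α (MonoidAlgebra ℤ Γ))
    (C D : Matrix γ β (MonoidAlgebra ℤ Γ)) :
    fromCols A C + fromCols B D = fromCols (A + B) (C + D) := by
  ext1 i j; rcases j with j | j <;> rfl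

theorem sub_fromRows {α β γ : Type} (A B : Matrix α γ (MonoidAlgebra ℤ Γ))
    (C D : Matrix β γ (MonoidAlgebra ℤ Γ)) :
    fromRows A C - fromRows B D = fromRows (A - B) (C - D) := by
  ext1 i j; rcases i with i | i <;> rfl

theorem sub_fromCols {α β γ : Type} (A B : Matrix γ α (MonoidAlgebra ℤ Γ))
    (C D : Matrix γ β (MonoidAlgebra ℤ Γ)) :
    fromCols A C - fromCols B D = fromCols (A - B) (C - D) := by
  ext1 i j; rcases j with j | j <;> rfl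

theorem zsmul_fromRows {α β γ : Type} (n : ℤ) (A : Matrix α γ (MonoidAlgebra ℤ Γ))
    (C : Matrix β γ (MonoidAlgebra ℤ Γ)) :
    n • fromRows A C = fromRows (n • A) (n • C) := by
  ext1 i j; rcases i with i | i <;> rfl

theorem zsmul_fromCols {α β γ : Type} (n : ℤ) (A : Matrix γ α (MonoidAlgebra ℤ Γ))
    (C : Matrix γ β (MonoidAlgebra ℤ Γ)) :
    n • fromCols A C = fromCols (n • A) (n • C) := by
  ext1 i j; rcases j with j | j <;> rfl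

theorem fromRows_zero' {α β γ : Type} :
    (fromRows 0 0 : Matrix (α ⊕ β) γ (MonoidAlgebra ℤ Γ)) = 0 := by
  ext1 i j; rcases i with i | i <;> rfl

theorem fromCols_zero' {α β γ : Type} :
    (fromCols 0 0 : Matrix γ (α ⊕ β) (MonoidAlgebra ℤ Γ)) = 0 := by
  ext1 i j; rcases j with j | j <;> rfl

/-- a Lagrange multiplier `w` for the condition `u = x f` -/
theorem lagrange (ε : ℤ) (φ : Matrix μ μ (MonoidAlgebra ℤ Γ)) (θ : Matrix κ κ (MonoidAlgebra ℤ Γ))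
    (f : Matrix κ μ (MonoidAlgebra ℤ Γ)) :
    Iso ε (fromBlocks (fromBlocks φ 1 0 0) 0 (fromCols 0 (-f)) θ :
        Matrix ((μ ⊕ μ) ⊕ κ) ((μ ⊕ μ) ⊕ κ) (MonoidAlgebra ℤ Γ))
      (bs (hy Γ μ) (θ + f * φ * adj f)) := by
  obtain ⟨E, h1, h2⟩ := unit_VC (-adj φ) (fromCols f (-(f * adj (lam ε φ))))
  refine ⟨E, fromBlocks 0 0 (fromCols (f * φ) 0) 0, h2, ?_⟩
  rw [h1]
  simp only [adj_fromBlocks, adj_fromCols, adj_neg, adj_adj, adj_zero, adj_one, adj_mul]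
  rw [fromBlocks_multiply, fromBlocks_multiply]
  simp only [Matrix.zero_mul, Matrix.mul_zero, add_zero, zero_add, Matrix.one_mul, Matrix.mul_one,
    fromBlocks_multiply, fromCols_mul_fromBlocks, fromBlocks_mul_fromRows, fromCols_mul_fromRows,
    add_fromCols, add_neg_cancel, Matrix.mul_neg, Matrix.neg_mul]
  unfold bs hy
  rw [fromBlocks_smul, fb_sub, fromBlocks_add]
  simp only [zsmul_fromRows, smul_zero, sub_zero, zero_sub, add_zero, zero_add, lam, adj_add,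
    adj_zsmul, adj_adj, Matrix.mul_add, Matrix.mul_smul, adj_fromCols]
  have e1 : φ * adj f + -((φ + ε • adj φ) * adj f) = -(ε • (adj φ * adj f)) := by
    rw [Matrix.add_mul, Matrix.smul_mul]; abel
  have e2 : f * φ * adj f + -0 + θ = θ + f * φ * adj f := by rw [neg_zero, add_zero, add_comm]
  have e3 : ∀ X : Matrix μ κ (MonoidAlgebra ℤ Γ),
      -(fromRows X (0 : Matrix μ κ (MonoidAlgebra ℤ Γ))) = fromRows (-X) 0 := by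
    intro X; ext1 i j; rcases i with i | i <;> simp
  rw [e1, e2, e3, neg_zero, add_zero]

/-- the same, with the opposite orientation of the pair `(x, z)` -/
theorem lagrange' (ε : ℤ) (φ : Matrix μ μ (MonoidAlgebra ℤ Γ)) (θ : Matrix κ κ (MonoidAlgebra ℤ Γ))
    (f : Matrix κ μ (MonoidAlgebra ℤ Γ)) :
    Iso ε (fromBlocks (fromBlocks φ 0 1 0) (fromRows 0 (-adj f)) 0 θ :
        Matrix ((μ ⊕ μ) ⊕ κ) ((μ ⊕ μ) ⊕ κ) (MonoidAlgebra ℤ Γ))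
      (bs (fromBlocks 0 0 1 0) (θ + f * φ * adj f)) := by
  obtain ⟨E, h1, h2⟩ := unit_VC (-φ) (fromCols f (-(f * lam ε φ)))
  refine ⟨E, fromBlocks 0 (fromRows (φ * adj f) 0) 0 0, h2, ?_⟩
  rw [h1]
  simp only [adj_fromBlocks, adj_fromCols, adj_neg, adj_adj, adj_zero, adj_one, adj_mul]
  rw [fromBlocks_multiply, fromBlocks_multiply]
  simp only [Matrix.zero_mul, Matrix.mul_zero, add_zero, zero_add, Matrix.one_mul, Matrix.mul_one,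
    fromBlocks_multiply, fromCols_mul_fromBlocks, fromBlocks_mul_fromRows, fromCols_mul_fromRows,
    add_fromCols, add_fromRows, add_neg_cancel, Matrix.mul_neg, Matrix.neg_mul]
  unfold bs
  rw [fromBlocks_smul, fb_sub, fromBlocks_add]
  simp only [zsmul_fromCols, smul_zero, sub_zero, zero_sub, add_zero, zero_add, lam, adj_add,
    adj_zsmul, adj_adj, Matrix.mul_add, Matrix.mul_smul, adj_fromRows, adj_mul, adj_zero]
  have e0 : f * φ + -(f * φ + ε • (f * adj φ)) = -(ε • (f * adj φ)) := by abel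
  have e1 : f * φ + -(f * φ + ε • (f * adj φ)) + -0 = -(ε • (f * adj φ)) := by
    rw [e0, neg_zero, add_zero]
  have e2 : (f * φ + -(f * φ + ε • (f * adj φ))) * adj f + -0
      + (- -((f * φ + ε • (f * adj φ)) * adj f) + θ) = θ + f * φ * adj f := by
    rw [e0, neg_zero, neg_neg, Matrix.add_mul, Matrix.neg_mul]; abel
  have e3 : ∀ X : Matrix κ μ (MonoidAlgebra ℤ Γ),
      -(fromCols X (0 : Matrix κ μ (MonoidAlgebra ℤ Γ))) = fromCols (-X) 0 := by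
    intro X; ext1 i j; rcases j with j | j <;> simp
  have e4 : adj f + -0 + -adj f = 0 := by rw [neg_zero, add_zero, add_neg_cancel]
  rw [e1, e2, e3, e4, neg_neg, neg_zero, add_zero]

/-- **the exchange identity** for quadratic forms -/
theorem exchange (ε : ℤ) (ψ₁ : Matrix μ μ (MonoidAlgebra ℤ Γ)) (ψ₂ : Matrix κ κ (MonoidAlgebra ℤ Γ))
    (f : Matrix κ μ (MonoidAlgebra ℤ Γ)) :
    SE ε (uf (f * ψ₁ * adj f) ψ₂) (uf ψ₁ (adj f * ψ₂ * f)) := by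
  have h1 := lagrange ε ψ₁ (fromBlocks 0 1 0 ψ₂) (fromRows f (0 : Matrix κ μ (MonoidAlgebra ℤ Γ)))
  have h2 := lagrange' ε ψ₂ (fromBlocks ψ₁ 1 0 0)
    (fromRows (0 : Matrix μ κ (MonoidAlgebra ℤ Γ)) (adj f))
  have e1 : fromBlocks 0 1 0 ψ₂ + fromRows f (0 : Matrix κ μ (MonoidAlgebra ℤ Γ)) * ψ₁
      * adj (fromRows f (0 : Matrix κ μ (MonoidAlgebra ℤ Γ))) = uf (f * ψ₁ * adj f) ψ₂ := by
    rw [adj_fromRows, fromRows_mul, fromRows_mul_fromCols, fromBlocks_add, uf]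
    simp [adj_zero]
  have e2 : fromBlocks ψ₁ 1 0 0 + fromRows (0 : Matrix μ κ (MonoidAlgebra ℤ Γ)) (adj f) * ψ₂
      * adj (fromRows (0 : Matrix μ κ (MonoidAlgebra ℤ Γ)) (adj f))
      = uf ψ₁ (adj f * ψ₂ * f) := by
    rw [adj_fromRows, fromRows_mul, fromRows_mul_fromCols, fromBlocks_add, uf]
    simp [adj_zero, adj_adj]
  rw [e1] at h1
  rw [e2] at h2
  let e : (μ ⊕ μ) ⊕ (κ ⊕ κ) ≃ (κ ⊕ κ) ⊕ (μ ⊕ μ) :=
    (Equiv.sumComm _ _).trans (Equiv.sumCongr (Equiv.sumComm _ _) (Equiv.refl _))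
  have e3 : (fromBlocks (fromBlocks ψ₁ 1 0 0) 0
      (fromCols 0 (-(fromRows f (0 : Matrix κ μ (MonoidAlgebra ℤ Γ))))) (fromBlocks 0 1 0 ψ₂) :
        Matrix ((μ ⊕ μ) ⊕ (κ ⊕ κ)) ((μ ⊕ μ) ⊕ (κ ⊕ κ)) (MonoidAlgebra ℤ Γ))
      = (fromBlocks (fromBlocks ψ₂ 0 1 0)
        (fromRows 0 (-adj (fromRows (0 : Matrix μ κ (MonoidAlgebra ℤ Γ)) (adj f)))) 0
        (fromBlocks ψ₁ 1 0 0)).submatrix e e := by
    ext1 i j
    rcases i with (i | i) | (i | i) <;> rcases j with (j | j) | (j | j) <;>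
      simp [e, adj_fromRows, adj_adj, adj_zero]
  have h3 : IsoE ε (bs (hy Γ μ) (uf (f * ψ₁ * adj f) ψ₂))
      (bs (fromBlocks 0 0 1 0 : Matrix (κ ⊕ κ) (κ ⊕ κ) (MonoidAlgebra ℤ Γ))
        (uf ψ₁ (adj f * ψ₂ * f))) := by
    refine (IsoE.of_iso h1).symm.trans ?_
    rw [e3]
    exact (IsoE.of_equiv ε _ e).trans (IsoE.of_iso h2)
  have e4 : (fromBlocks 0 0 1 0 : Matrix (κ ⊕ κ) (κ ⊕ κ) (MonoidAlgebra ℤ Γ))
      = (hy Γ κ).submatrix (Equiv.sumComm κ κ) (Equiv.sumComm κ κ) := by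
    ext1 i j
    rcases i with i | i <;> rcases j with j | j <;> simp [hy]
  have h4 : IsoE ε (fromBlocks 0 0 1 0 : Matrix (κ ⊕ κ) (κ ⊕ κ) (MonoidAlgebra ℤ Γ)) (hy Γ κ) := by
    rw [e4]; exact IsoE.of_equiv ε _ _
  exact SE.of_iso ((bs_comm ε _ _).trans (h3.trans ((h4.bs (IsoE.refl ε _)).trans (bs_comm ε _ _))))

/-- changing `ψ₁` and `ψ₂` by exact terms -/
theorem uf_mod (ε : ℤ) {ψ₁ ψ₂ ψ₁' ψ₂' χ₁ χ₂ : Matrix κ κ (MonoidAlgebra ℤ Γ)}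
    (h₁ : ψ₁ = ψ₁' + (χ₁ - ε • adj χ₁)) (h₂ : ψ₂ = ψ₂' + (χ₂ - ε • adj χ₂)) :
    SE ε (uf ψ₁ ψ₂) (uf ψ₁' ψ₂') := by
  apply SE.of_mod (χ := fromBlocks χ₁ 0 0 χ₂)
  rw [uf, uf, adj_fromBlocks, adj_zero, fromBlocks_smul, fb_sub, fromBlocks_add]
  congr 1
  · simp
  · simp

/-- the terminal case -/
theorem uf_zero (ε : ℤ) (ψ : Matrix κ κ (MonoidAlgebra ℤ Γ)) : Z0 ε (uf ψ 0) := by
  have h := exchange (Γ := Γ) ε ψ (0 : Matrix κ κ (MonoidAlgebra ℤ Γ)) 0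
  have e : (uf (0 * ψ * adj (0 : Matrix κ κ (MonoidAlgebra ℤ Γ))) 0) = hy Γ κ := by
    rw [uf, hy, Matrix.zero_mul, Matrix.zero_mul]
  have e' : adj (0 : Matrix κ κ (MonoidAlgebra ℤ Γ)) * 0 * 0 = 0 := by
    rw [Matrix.mul_zero]
  rw [e, e'] at h
  exact Z0.of_SE h.symm (Z0.hy ε κ)

end uf

end Pool.Agent.T9h15.UN
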