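import Pool.Agent.T9h15.UN.Spl
import Pool.Agent.T9h15.UN.SE

set_option autoImplicit false
set_option linter.unusedSectionVars false
set_option linter.unusedSimpArgs false

/-! Nilpotent pairs of labelled forms are stably hyperbolic: the final stage. -/

namespace Pool.Agent.T9h15.UN

open Matrix TH6.LF TH57.Thr

variable {Γ : Type} [Group Γ] {Λ : Type} [MulAction Γ Λ]

/-- alternating walks with `n` letters and last letter `b` -/
def Wk (R : Bool → Λ → Λ → Prop) : Bool → ℕ → Λ → Λ → Prop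
  | _, 0, x, y => x = y
  | b, n + 1, x, z => ∃ y, Wk R (!b) n x y ∧ R b y z

/-- a pair of relations with unique continuation -/
structure Sys (Γ : Type) [Group Γ] (Λ : Type) [MulAction Γ Λ] where
  R : Bool → Λ → Λ → Prop
  inv : ∀ b, Inv Γ (R b)
  symm : ∀ b x y, R b x y → R b y x
  irr : ∀ b x, ¬ R b x x
  nc : ∀ b n x y₁ y₂ z, Wk R (!b) n x y₁ → Wk R (!b) n x y₂ → R b y₁ z → R b y₂ z → y₁ = y₂

section prod

variable {κ M : Type} [Fintype κ] [DecidableEq κ] [Fintype M] [DecidableEq M]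

/-- alternating products with `n` factors and last factor `L b` -/
noncomputable def apr (L : Bool → Matrix κ κ (MonoidAlgebra ℤ Γ)) :
    Bool → ℕ → Matrix κ κ (MonoidAlgebra ℤ Γ)
  | _, 0 => 1
  | b, n + 1 => apr L (!b) n * L b

theorem sup_apr {R : Bool → Λ → Λ → Prop} (hinv : ∀ b, Inv Γ (R b)) {ℓ : κ → Λ}
    (L : Bool → Matrix κ κ (MonoidAlgebra ℤ Γ)) (hL : ∀ c, Sup ℓ ℓ (R c) (L c)) (n : ℕ) :
    ∀ b, Sup ℓ ℓ (Wk R b n) (apr L b n) := by
  classical
  induction n with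
  | zero =>
    intro b k l g hg
    simp only [apr, Matrix.one_apply] at hg
    split_ifs at hg with h
    · rw [MonoidAlgebra.one_def, MonoidAlgebra.coeff_single, Finsupp.single_apply] at hg
      have h2 : 1 = g := by
        by_contra h3
        exact hg (if_neg h3)
      subst h h2
      change ℓ k = (1 : Γ) • ℓ k
      rw [one_smul]
    · exact absurd rfl hg
  | succ n ih =>
    intro b
    exact (ih (!b)).mul (hinv b) (fun x y z h h' => ⟨y, h, h'⟩) (hL b)

theorem apr_two (L : Bool → Matrix κ κ (MonoidAlgebra ℤ Γ)) (b : Bool) (n : ℕ) :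
    apr L b (n + 2) = apr L b n * L (!b) * L b := by
  change apr L (!(!b)) n * L (!b) * L b = _
  rw [Bool.not_not]

theorem apr_succ (L : Bool → Matrix κ κ (MonoidAlgebra ℤ Γ)) (b : Bool) (n : ℕ) :
    apr L (!b) (n + 1) = apr L b n * L (!b) := by
  change apr L (!(!b)) n * L (!b) = _
  rw [Bool.not_not]

theorem apr_new (L : Bool → Matrix κ κ (MonoidAlgebra ℤ Γ))
    (L' : Bool → Matrix M M (MonoidAlgebra ℤ Γ)) (Y : Matrix κ M (MonoidAlgebra ℤ Γ)) (b : Bool)
    (h1 : L b = Y * L' b * adj Y) (h2 : L' (!b) = adj Y * L (!b) * Y) (m : ℕ) :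
    (apr L' b m * adj Y = adj Y * apr L b m) ∨
      ∃ C : Matrix M κ (MonoidAlgebra ℤ Γ),
        apr L' b m * adj Y = L' b * C ∧ Y * L' b * C = apr L b m := by
  induction m using Nat.twoStepInduction with
  | zero => left; simp [apr]
  | one =>
    right
    refine ⟨adj Y, ?_, ?_⟩
    · simp [apr]
    · rw [← h1]; simp [apr]
  | more m ih _ =>
    have h3 : apr L' b (m + 2) * adj Y = (apr L' b m * adj Y) * (L (!b) * L b) := by
      rw [apr_two, h2, h1]
      simp only [Matrix.mul_assoc]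
    have h4 : apr L b (m + 2) = apr L b m * (L (!b) * L b) := by
      rw [apr_two, Matrix.mul_assoc]
    rw [h3, h4]
    rcases ih with ih | ⟨C, ih1, ih2⟩
    · left
      rw [ih, Matrix.mul_assoc]
    · right
      refine ⟨C * (L (!b) * L b), ?_, ?_⟩
      · rw [ih1, Matrix.mul_assoc]
      · rw [← ih2]; simp only [Matrix.mul_assoc]

theorem apr_zero (L : Bool → Matrix κ κ (MonoidAlgebra ℤ Γ))
    (L' : Bool → Matrix M M (MonoidAlgebra ℤ Γ)) (Y : Matrix κ M (MonoidAlgebra ℤ Γ)) (b : Bool)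
    (h1 : L b = Y * L' b * adj Y) (h2 : L' (!b) = adj Y * L (!b) * Y) (m : ℕ)
    (h3 : apr L (!b) (m + 1) * Y = 0)
    (h4 : ∀ Z : Matrix M M (MonoidAlgebra ℤ Γ), Y * L' b * Z = 0 → L' b * Z = 0) :
    apr L' (!b) (m + 1) = 0 := by
  have h5 : apr L' (!b) (m + 1) = (apr L' b m * adj Y) * (L (!b) * Y) := by
    rw [apr_succ, h2]; simp only [Matrix.mul_assoc]
  rw [apr_succ] at h3
  rcases apr_new L L' Y b h1 h2 m with h | ⟨C, hC1, hC2⟩
  · rw [h5, h, Matrix.mul_assoc, ← Matrix.mul_assoc (apr L b m), h3, Matrix.mul_zero]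
  · rw [h5, hC1, Matrix.mul_assoc]
    apply h4
    rw [← Matrix.mul_assoc, hC2, ← Matrix.mul_assoc, h3]

end prod

section forms

variable {κ M : Type} [Fintype κ] [DecidableEq κ] [Fintype M] [DecidableEq M]

/-- the form of a pair of forms -/
noncomputable def ufb (ψ : Bool → Matrix κ κ (MonoidAlgebra ℤ Γ)) :
    Matrix (κ ⊕ κ) (κ ⊕ κ) (MonoidAlgebra ℤ Γ) := uf (ψ true) (ψ false)

/-- the pair obtained from the exchange identity -/
noncomputable def nxt (ψ : Bool → Matrix κ κ (MonoidAlgebra ℤ Γ)) (b : Bool)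
    (Y : Matrix κ M (MonoidAlgebra ℤ Γ)) (ψ' : Matrix M M (MonoidAlgebra ℤ Γ)) :
    Bool → Matrix M M (MonoidAlgebra ℤ Γ) := fun c => if c = b then ψ' else adj Y * ψ c * Y

theorem se_nxt (ε : ℤ) (ψ : Bool → Matrix κ κ (MonoidAlgebra ℤ Γ)) (b : Bool)
    (Y : Matrix κ M (MonoidAlgebra ℤ Γ)) (ψ' : Matrix M M (MonoidAlgebra ℤ Γ))
    (χ : Matrix κ κ (MonoidAlgebra ℤ Γ)) (h : ψ b = Y * ψ' * adj Y + (χ - ε • adj χ)) :
    SE ε (ufb ψ) (ufb (nxt ψ b Y ψ')) := by
  cases b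
  · have h1 : SE ε (uf (ψ true) (ψ false)) (uf (ψ true) (Y * ψ' * adj Y)) :=
      uf_mod ε (χ₁ := 0) (χ₂ := χ) (by rw [adj_zero]; simp) h
    have h2 := exchange ε (ψ true) ψ' (adj Y)
    rw [adj_adj] at h2
    exact h1.trans h2.symm
  · have h1 : SE ε (uf (ψ true) (ψ false)) (uf (Y * ψ' * adj Y) (ψ false)) :=
      uf_mod ε (χ₁ := χ) (χ₂ := 0) h (by rw [adj_zero]; simp)
    exact h1.trans (exchange ε ψ' (ψ false) Y)

theorem z0_mod (ε : ℤ) (ψ : Bool → Matrix κ κ (MonoidAlgebra ℤ Γ)) (b : Bool)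
    (χ : Matrix κ κ (MonoidAlgebra ℤ Γ)) (h : ψ b = χ - ε • adj χ) : Z0 ε (ufb ψ) := by
  have h0 := exchange (Γ := Γ) ε (0 : Matrix κ κ (MonoidAlgebra ℤ Γ)) (ψ false) 0
  have e : (0 * 0 * adj (0 : Matrix κ κ (MonoidAlgebra ℤ Γ))) = 0 := by
    rw [Matrix.zero_mul, Matrix.zero_mul]
  have e' : adj (0 : Matrix κ κ (MonoidAlgebra ℤ Γ)) * ψ false * 0 = 0 := by
    rw [Matrix.mul_zero]
  rw [e, e'] at h0
  cases b
  · refine Z0.of_SE (uf_mod ε (χ₁ := 0) (χ₂ := χ) (ψ₁' := ψ true) (ψ₂' := 0)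
      (by rw [adj_zero]; simp) (by rw [zero_add]; exact h)) (uf_zero ε _)
  · refine Z0.of_SE (uf_mod ε (χ₁ := χ) (χ₂ := 0) (ψ₁' := 0) (ψ₂' := ψ false)
      (by rw [zero_add]; exact h) (by rw [adj_zero]; simp)) ?_
    exact Z0.of_SE h0 (uf_zero ε _)

end forms

theorem final_stage (S : Sys Γ Λ) (hno : ∀ g : Γ, g = g⁻¹ → g = 1) {ε : ℤ} (hε : ε * ε = 1) (n : ℕ) :
    ∀ (b : Bool) {κ : Type} [Fintype κ] [DecidableEq κ] (ℓ : κ → Λ) (_ : Nrm Γ ℓ) (_ : SK Γ ℓ)
      (ψ : Bool → Matrix κ κ (MonoidAlgebra ℤ Γ)) (_ : ∀ c, Sup ℓ ℓ (S.R c) (ψ c))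
      (_ : apr (fun c => ψ c + ε • adj (ψ c)) b n = 0), Z0 ε (ufb ψ) := by
  have hε' : (-ε) * (-ε) = 1 := by rw [neg_mul_neg, hε]
  have hsym : ∀ {κ : Type} [Fintype κ] [DecidableEq κ] (ψ : Matrix κ κ (MonoidAlgebra ℤ Γ)),
      adj (ψ + ε • adj ψ) = ε • (ψ + ε • adj ψ) := by
    intro κ _ _ ψ
    rw [adj_add, adj_zsmul, adj_adj, smul_add, smul_smul, hε, one_smul, add_comm]
  have hterm : ∀ (b : Bool) {κ : Type} [Fintype κ] [DecidableEq κ] (ℓ : κ → Λ)
      (ψ : Bool → Matrix κ κ (MonoidAlgebra ℤ Γ)) (_ : ∀ c, Sup ℓ ℓ (S.R c) (ψ c))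
      (_ : ψ b + ε • adj (ψ b) = 0), Z0 ε (ufb ψ) := by
    intro b κ _ _ ℓ ψ hψ h
    have h1 : adj (ψ b) = (-ε) • ψ b := by
      have h2 := congrArg (fun X => ε • X) h
      simp only [smul_add, smul_smul, hε, one_smul, smul_zero] at h2
      rw [neg_smul]
      exact eq_neg_of_add_eq_zero_right h2
    obtain ⟨χ, hχ, _⟩ := half hno hε' (S.irr b) (ψ b) h1 (hψ b)
    exact z0_mod ε ψ b χ (by rw [sub_eq_add_neg, ← neg_smul]; exact hχ)
  induction n with
  | zero =>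
    intro b κ _ _ ℓ hn hK ψ hψ h
    refine hterm b ℓ ψ hψ ?_
    have h1 : (1 : Matrix κ κ (MonoidAlgebra ℤ Γ)) = 0 := h
    rw [← Matrix.one_mul (ψ b + ε • adj (ψ b)), h1, Matrix.zero_mul]
  | succ n ih =>
    intro b κ _ _ ℓ hn hK ψ hψ h
    rcases n with _ | m
    · refine hterm b ℓ ψ hψ ?_
      have h1 : 1 * (ψ b + ε • adj (ψ b)) = 0 := h
      rwa [Matrix.one_mul] at h1
    have hLs : ∀ c, Sup ℓ ℓ (S.R c) (ψ c + ε • adj (ψ c)) := fun c =>
      (hψ c).add (((hψ c).adj (S.inv c) (S.symm c)).zsmul ε)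
    obtain ⟨M, i1, i2, ℓM, Y, L', hl, hY, hL, hL', hLs', hker, hinj⟩ :=
      factor hε hn hK (S.inv b) (S.symm b) _ (hsym (ψ b)) (hLs b)
    obtain ⟨ψ', hψ', hψs'⟩ := half hno hε (S.irr b) L' hL' hLs'
    have hnM : Nrm Γ ℓM := by
      intro i j g hg
      obtain ⟨k, hk⟩ := hl i
      obtain ⟨l, hl⟩ := hl j
      rw [hk, hl] at hg ⊢
      exact hn _ _ _ hg
    have hKM : SK Γ ℓM := by
      intro j
      obtain ⟨k, hk⟩ := hl j
      rw [hk]
      exact hK k
    have hYt : Sup ℓM ℓ (fun x y => x = y) (adj Y) := hY.adj inv_eq (fun x y h => h.symm)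
    -- the difference is exact
    obtain ⟨χ, hχ, _⟩ := half hno hε' (S.irr b) (ψ b - Y * ψ' * adj Y)
      (by
        have h1 : (ψ b - Y * ψ' * adj Y) + ε • adj (ψ b - Y * ψ' * adj Y) = 0 := by
          have h2 : Y * L' * adj Y = Y * ψ' * adj Y + ε • adj (Y * ψ' * adj Y) := by
            rw [hψ']
            simp only [adj_mul, adj_adj, Matrix.mul_add, Matrix.add_mul, Matrix.mul_smul,
              Matrix.smul_mul, Matrix.mul_assoc]
          rw [adj_sub, smul_sub]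
          have h3 : ψ b - Y * ψ' * adj Y + (ε • adj (ψ b) - ε • adj (Y * ψ' * adj Y))
              = (ψ b + ε • adj (ψ b)) - (Y * ψ' * adj Y + ε • adj (Y * ψ' * adj Y)) := by abel
          rw [h3, ← h2, hL, sub_self]
        have h2 := congrArg (fun X => ε • X) h1
        simp only [smul_add, smul_smul, hε, one_smul, smul_zero] at h2
        rw [neg_smul]
        exact eq_neg_of_add_eq_zero_right h2)
      (by
        have h1 : Sup ℓ ℓ (S.R b) (Y * ψ' * adj Y) :=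
          (hY.mul (S.inv b) (fun x y z h h' => eq_trans_rel x y z h h') hψs').mul inv_eq
            (fun x y z h h' => by rw [← h']; exact h) hYt
        have h2 := (hψ b).add (h1.zsmul (-1))
        rwa [neg_one_smul, ← sub_eq_add_neg] at h2)
    have hdiff : ψ b = Y * ψ' * adj Y + (χ - ε • adj χ) := by
      have h1 : χ - ε • adj χ = χ + (-ε) • adj χ := by rw [neg_smul, sub_eq_add_neg]
      rw [h1, ← hχ]; abel
    refine Z0.of_SE (se_nxt ε ψ b Y ψ' χ hdiff) (ih (!b) ℓM hnM hKM _ ?_ ?_)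
    · intro c
      by_cases hc : c = b
      · subst hc
        simp only [nxt, if_true]
        exact hψs'
      · simp only [nxt, if_neg hc]
        exact (hYt.mul (S.inv c) (fun x y z h h' => eq_trans_rel x y z h h') (hψ c)).mul inv_eq
          (fun x y z h h' => by rw [← h']; exact h) hY
    · -- the alternating product
      have hWY : apr (fun c => ψ c + ε • adj (ψ c)) (!b) (m + 1) * Y = 0 := by
        have hW := sup_apr S.inv _ hLs (m + 1) (!b)
        refine funext fun i => ?_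
        let v := apr (fun c => ψ c + ε • adj (ψ c)) (!b) (m + 1) i
        have hv : v ᵥ* (ψ b + ε • adj (ψ b)) = 0 := congrFun h i
        have h1 := part_vecMul (S.inv b) (hLs b) v hv (by
          intro y₁ hy₁ y₂ hy₂ z hz₁ hz₂
          obtain ⟨k₁, g₁, h1, rfl⟩ := (mem_pts ℓ v y₁).mp hy₁
          obtain ⟨k₂, g₂, h2, rfl⟩ := (mem_pts ℓ v y₂).mp hy₂
          exact S.nc b (m + 1) (ℓ i) _ _ z (hW i k₁ g₁ h1) (hW i k₂ g₂ h2) hz₁ hz₂)
        have h2 : v ᵥ* Y = 0 := by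
          rw [sum_part ℓ v, Matrix.sum_vecMul]
          exact Finset.sum_eq_zero fun y _ => hker y _ (at_part ℓ y v) (h1 y)
        exact h2
      refine apr_zero _ _ Y b ?_ ?_ m hWY ?_
      · simp only [nxt, if_true]
        rw [← hψ']
        exact hL
      · have hnb : (!b) ≠ b := by cases b <;> decide
        simp only [nxt, if_neg hnb]
        simp only [adj_mul, adj_adj, Matrix.mul_add, Matrix.add_mul, Matrix.mul_smul,
          Matrix.smul_mul, Matrix.mul_assoc]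
      · intro Z hZ
        simp only [nxt, if_true] at hZ ⊢
        rw [← hψ'] at hZ ⊢
        exact hinj Z hZ

end Pool.Agent.T9h15.UN
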