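import Mathlib

set_option autoImplicit false
set_option linter.unusedSectionVars false
set_option linter.unusedSimpArgs false

/-! Left kernels of matrices over the integral group ring of a free group are finitely generated
and projective, in an explicit form. -/

namespace Pool.Agent.T9h15.UN

open Matrix

/-- kernels of matrices over the integral group ring are finitely generated and projective -/
def KP (E : Type) [Group E] : Prop :=
  ∀ (n N : ℕ) (Φ : Matrix (Fin n) (Fin N) (MonoidAlgebra ℤ E)),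
    ∃ (m : ℕ) (X : Matrix (Fin m) (Fin n) (MonoidAlgebra ℤ E))
      (e : Matrix (Fin m) (Fin m) (MonoidAlgebra ℤ E)),
      X * Φ = 0 ∧ e * X = X ∧
      (∀ y : Fin n → MonoidAlgebra ℤ E, y ᵥ* Φ = 0 → ∃ s : Fin m → MonoidAlgebra ℤ E, y = s ᵥ* X) ∧
      (∀ s : Fin m → MonoidAlgebra ℤ E, s ᵥ* X = 0 → s ᵥ* e = 0)

section coeff

variable {E : Type} [Group E]

theorem coeff_mul_right (C : Finset E) (x a : MonoidAlgebra ℤ E) (h : a.coeff.support ⊆ C) (v : E) :
    (x * a).coeff v = ∑ c ∈ C, x.coeff (v * c⁻¹) * a.coeff c := by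
  rw [MonoidAlgebra.coeff_mul_apply_right, Finsupp.sum]
  refine Finset.sum_subset h fun c _ hc => ?_
  rw [Finsupp.notMem_support_iff.mp hc, mul_zero]

theorem coeff_mul_left' (S : Finset E) (s a : MonoidAlgebra ℤ E) (h : s.coeff.support ⊆ S) (v : E) :
    (s * a).coeff v = ∑ c ∈ S, s.coeff c * a.coeff (c⁻¹ * v) := by
  rw [MonoidAlgebra.coeff_mul_apply_left, Finsupp.sum]
  refine Finset.sum_subset h fun c _ hc => ?_
  rw [Finsupp.notMem_support_iff.mp hc, zero_mul]

theorem coeff_mul_finsum (s a : MonoidAlgebra ℤ E) (v : E) :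
    (s * a).coeff v = ∑ᶠ c, s.coeff c * a.coeff (c⁻¹ * v) := by
  rw [coeff_mul_left' s.coeff.support s a (fun _ h => h) v]
  refine (finsum_eq_sum_of_support_subset _ fun c hc => ?_).symm
  rw [Finset.mem_coe, Finsupp.mem_support_iff]
  intro h
  exact hc (by simp only [h, zero_mul])

theorem coeff_sum' {ι : Type} (s : Finset ι) (f : ι → MonoidAlgebra ℤ E) (v : E) :
    (∑ i ∈ s, f i).coeff v = ∑ i ∈ s, (f i).coeff v := by
  classical
  induction s using Finset.induction_on with
  | empty => simp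
  | insert i s hi ih =>
    rw [Finset.sum_insert hi, Finset.sum_insert hi, MonoidAlgebra.coeff_add, Finsupp.add_apply, ih]

end coeff

section lin

theorem range_basis {A ι : Type} [AddCommGroup A] [Finite ι] (ρ : A →+ (ι → ℤ)) :
    ∃ (m : ℕ) (b : Fin m → ρ.range) (co : Fin m → (ρ.range →+ ℤ)),
      ∀ w, w = ∑ i, co i w • b i := by
  let V : Submodule ℤ (ι → ℤ) := AddSubgroup.toIntSubmodule ρ.range
  obtain ⟨m, ⟨B⟩⟩ := Submodule.nonempty_basis_of_pid (Pi.basisFun ℤ ι) V
  refine ⟨m, fun i => ⟨(B i).1, (B i).2⟩, fun i =>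
    { toFun := fun w => B.repr ⟨w.1, w.2⟩ i
      map_zero' := ?_
      map_add' := ?_ }, ?_⟩
  · have : (⟨((0 : ρ.range)).1, (0 : ρ.range).2⟩ : V) = 0 := rfl
    rw [this, map_zero]; rfl
  · intro x y
    have : (⟨(x + y).1, (x + y).2⟩ : V) = ⟨x.1, x.2⟩ + ⟨y.1, y.2⟩ := rfl
    rw [this, map_add]; rfl
  · intro w
    have h := B.sum_repr ⟨w.1, w.2⟩
    have h2 := congrArg Subtype.val h
    apply Subtype.ext
    have h3 : ((∑ i, (B.repr ⟨w.1, w.2⟩) i • B i : V) : ι → ℤ)
        = ∑ i, (B.repr ⟨w.1, w.2⟩) i • (B i : ι → ℤ) := by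
      rw [AddSubmonoidClass.coe_finsetSum]; rfl
    have h4 : ((∑ i, (B.repr ⟨w.1, w.2⟩) i • (⟨(B i).1, (B i).2⟩ : ρ.range) : ρ.range) : ι → ℤ)
        = ∑ i, (B.repr ⟨w.1, w.2⟩) i • (B i : ι → ℤ) := by
      rw [AddSubmonoidClass.coe_finsetSum]; rfl
    exact (h4.trans (h3.symm.trans h2)).symm

theorem range_sec {A ι : Type} [AddCommGroup A] [Finite ι] (ρ : A →+ (ι → ℤ)) :
    ∃ τ : ρ.range →+ A, ∀ w, ρ (τ w) = w := by
  obtain ⟨m, b, co, h⟩ := range_basis ρ
  have h2 : ∀ i, ∃ a, ρ a = b i := fun i => (b i).2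
  choose a ha using h2
  refine ⟨{ toFun := fun w => ∑ i, co i w • a i
            map_zero' := by simp
            map_add' := fun x y => by simp [add_smul, Finset.sum_add_distrib] }, fun w => ?_⟩
  change ρ (∑ i, co i w • a i) = w
  rw [map_sum]
  have h3 := congrArg Subtype.val (h w)
  rw [AddSubmonoidClass.coe_finsetSum] at h3
  rw [h3]
  exact Finset.sum_congr rfl fun i _ => by rw [map_zsmul, ha]; rfl

end lin

section words

open FreeGroup

variable {α : Type} [DecidableEq α]

/-- words with a reduced form starting with the letter `x`, seen from the right -/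
def HT (x : α) (v : FreeGroup α) : Prop := (v⁻¹).toWord.getLast? = some (x, false)

theorem not_HT_one (x : α) : ¬ HT x (1 : FreeGroup α) := by simp [HT]

theorem HT_of (x : α) : HT x (FreeGroup.of x) := by
  simp [HT, FreeGroup.toWord_inv, FreeGroup.invRev]

theorem HT_step (x y : α) (v : FreeGroup α) :
    (HT x v ↔ HT x (v * FreeGroup.of y)) ∨ (v = 1 ∧ y = x) := by
  by_cases hv : v = 1
  · by_cases hy : y = x
    · exact Or.inr ⟨hv, hy⟩
    · left
      subst hv
      rw [one_mul]
      simp [HT, FreeGroup.toWord_inv, FreeGroup.invRev, hy]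
  left
  unfold HT
  have h1 : (v * FreeGroup.of y)⁻¹ = FreeGroup.mk [(y, false)] * v⁻¹ := by
    rw [_root_.mul_inv_rev]; rfl
  have h2 : (FreeGroup.mk [(y, false)] * v⁻¹).toWord = FreeGroup.reduce ((y, false) :: (v⁻¹).toWord) := by
    rw [FreeGroup.toWord_mul, FreeGroup.toWord_mk]
    rfl
  rw [h1, h2, FreeGroup.reduce.cons, FreeGroup.reduce_toWord]
  rcases h : (v⁻¹).toWord with _ | ⟨hd, tl⟩
  · exact absurd (FreeGroup.toWord_eq_nil_iff.mp h) (by simpa using hv)
  · dsimp only
    split_ifs with h3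
    · rcases tl with _ | ⟨a, t⟩
      · simp only [List.getLast?_singleton, List.getLast?_nil]
        rcases hd with ⟨p, q⟩
        simp at h3
        simp [h3.2]
      · simp
    · simp

/-- the elements which are products of at most `k` letters of `S` -/
def ball (S : Finset α) : ℕ → Finset (FreeGroup α)
  | 0 => {1}
  | k + 1 => ball S k ∪ ((S.biUnion fun x => (ball S k).image fun c => c * FreeGroup.of x) ∪
      S.biUnion fun x => (ball S k).image fun c => c * (FreeGroup.of x)⁻¹)

theorem mem_ball_succ (S : Finset α) (k : ℕ) (c : FreeGroup α) : c ∈ ball S (k + 1) ↔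
    c ∈ ball S k ∨ (∃ x ∈ S, ∃ c' ∈ ball S k, c = c' * FreeGroup.of x) ∨
      ∃ x ∈ S, ∃ c' ∈ ball S k, c' = c * FreeGroup.of x := by
  simp only [ball, Finset.mem_union, Finset.mem_biUnion, Finset.mem_image]
  constructor
  · rintro (h | ⟨x, hx, c', hc', rfl⟩ | ⟨x, hx, c', hc', rfl⟩)
    · exact Or.inl h
    · exact Or.inr (Or.inl ⟨x, hx, c', hc', rfl⟩)
    · exact Or.inr (Or.inr ⟨x, hx, c', hc', by simp⟩)
  · rintro (h | ⟨x, hx, c', hc', rfl⟩ | ⟨x, hx, c', hc', h⟩)
    · exact Or.inl h
    · exact Or.inr (Or.inl ⟨x, hx, c', hc', rfl⟩)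
    · exact Or.inr (Or.inr ⟨x, hx, c', hc', by rw [h]; simp⟩)

theorem ball_mono {S S' : Finset α} (h : S ⊆ S') {k k' : ℕ} (hk : k ≤ k') :
    ball S k ⊆ ball S' k' := by
  have h1 : ∀ k, ball S k ⊆ ball S' k := by
    intro k
    induction k with
    | zero => exact fun _ h => h
    | succ k ih =>
      intro c hc
      rw [mem_ball_succ] at hc ⊢
      rcases hc with hc | ⟨x, hx, c', hc', h3⟩ | ⟨x, hx, c', hc', h3⟩
      · exact Or.inl (ih hc)
      · exact Or.inr (Or.inl ⟨x, h hx, c', ih hc', h3⟩)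
      · exact Or.inr (Or.inr ⟨x, h hx, c', ih hc', h3⟩)
  refine (h1 k).trans ?_
  clear h1
  induction k', hk using Nat.le_induction with
  | base => exact fun _ h => h
  | succ n hn ih => exact ih.trans fun c hc => (mem_ball_succ S' n c).mpr (Or.inl hc)

theorem exists_ball (D : Finset (FreeGroup α)) : ∃ (S : Finset α) (k : ℕ), D ⊆ ball S k := by
  have h1 : ∀ L : List (α × Bool), ∃ (S : Finset α) (k : ℕ), FreeGroup.mk L ∈ ball S k := by
    intro L
    induction L using List.reverseRecOn with
    | nil => exact ⟨∅, 0, by simp [ball, FreeGroup.one_eq_mk]⟩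
    | append_singleton L a ih =>
      obtain ⟨S, k, h⟩ := ih
      refine ⟨insert a.1 S, k + 1, ?_⟩
      have h2 := ball_mono (Finset.subset_insert a.1 S) (le_refl k) h
      have h3 : FreeGroup.mk (L ++ [a]) = FreeGroup.mk L * FreeGroup.mk [a] := rfl
      rw [h3, mem_ball_succ]
      rcases a with ⟨x, b⟩
      cases b
      · refine Or.inr (Or.inr ⟨x, Finset.mem_insert_self _ _, _, h2, ?_⟩)
        rw [mul_assoc]
        have h4 : FreeGroup.mk [(x, false)] * FreeGroup.of x = 1 := by
          have : FreeGroup.mk [(x, false)] = (FreeGroup.of x)⁻¹ := rfl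
          rw [this, inv_mul_cancel]
        rw [h4, mul_one]
      · exact Or.inr (Or.inl ⟨x, Finset.mem_insert_self _ _, _, h2, rfl⟩)
  induction D using Finset.induction_on with
  | empty => exact ⟨∅, 0, Finset.empty_subset _⟩
  | insert g D hg ih =>
    obtain ⟨S, k, h⟩ := ih
    obtain ⟨S', k', h'⟩ := h1 g.toWord
    rw [FreeGroup.mk_toWord] at h'
    refine ⟨S ∪ S', max k k', ?_⟩
    intro c hc
    rcases Finset.mem_insert.mp hc with rfl | hc
    · exact ball_mono Finset.subset_union_right (le_max_right _ _) h'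
    · exact ball_mono Finset.subset_union_left (le_max_left _ _) (h hc)

theorem one_mem_ball (S : Finset α) (k : ℕ) : (1 : FreeGroup α) ∈ ball S k :=
  ball_mono (Finset.Subset.refl S) (Nat.zero_le k) (by simp [ball])

end words

section patch

variable {α : Type} [DecidableEq α] {n : ℕ} (C : Finset (FreeGroup α))

/-- patches of rows -/
noncomputable def pat (v : FreeGroup α) :
    (Fin n → MonoidAlgebra ℤ (FreeGroup α)) →+ (C × Fin n → ℤ) where
  toFun := fun y p => (y p.2).coeff (v * (p.1 : FreeGroup α)⁻¹)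
  map_zero' := by ext1 p; simp
  map_add' := fun y z => by ext1 p; simp

/-- restriction of patches to the edges labelled by `x` -/
def resA (x : α) : (C × Fin n → ℤ) →+ (C × Fin n → ℤ) where
  toFun := fun q p => if (p.1 : FreeGroup α) * FreeGroup.of x ∈ C then q p else 0
  map_zero' := by ext1 p; simp
  map_add' := fun y z => by
    ext1 p
    simp only [Pi.add_apply]
    split_ifs
    · rfl
    · rw [add_zero]

def resB (x : α) : (C × Fin n → ℤ) →+ (C × Fin n → ℤ) where
  toFun := fun q p => if h : (p.1 : FreeGroup α) * FreeGroup.of x ∈ C then q (⟨_, h⟩, p.2) else 0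
  map_zero' := by ext1 p; simp
  map_add' := fun y z => by
    ext1 p
    simp only [Pi.add_apply]
    split_ifs
    · rfl
    · rw [add_zero]

theorem resA_pat (x : α) (v : FreeGroup α) (y : Fin n → MonoidAlgebra ℤ (FreeGroup α)) :
    resA C x (pat C v y) = resB C x (pat C (v * FreeGroup.of x) y) := by
  ext1 p
  simp only [resA, resB, pat, AddMonoidHom.coe_mk, ZeroHom.coe_mk]
  split_ifs with h
  · congr 1; group
  · rfl

/-- left translation of rows -/
noncomputable def tr (g : FreeGroup α) (y : Fin n → MonoidAlgebra ℤ (FreeGroup α)) :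
    Fin n → MonoidAlgebra ℤ (FreeGroup α) := fun i => MonoidAlgebra.single g 1 * y i

theorem pat_tr (g v : FreeGroup α) (y : Fin n → MonoidAlgebra ℤ (FreeGroup α)) :
    pat C v (tr g y) = pat C (g⁻¹ * v) y := by
  ext1 p
  simp only [pat, tr, AddMonoidHom.coe_mk, ZeroHom.coe_mk, MonoidAlgebra.coeff_single_mul_apply,
    one_mul, mul_assoc]

/-- consistent families of patches are determined by their values at the identity -/
theorem connect (S : Finset α) (k : ℕ) (hC : C = ball S k) (h1 : (1 : FreeGroup α) ∈ C)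
    (p : FreeGroup α → (C × Fin n → ℤ))
    (hp : ∀ v, ∀ x ∈ S, resA C x (p v) = resB C x (p (v * FreeGroup.of x)))
    (v : FreeGroup α) (c : C) (i : Fin n) : p v (c, i) = p (v * (c : FreeGroup α)⁻¹) (⟨1, h1⟩, i) := by
  have key : ∀ l ≤ k, ∀ c ∈ ball S l, ∀ (hc : c ∈ C) (v : FreeGroup α),
      p v (⟨c, hc⟩, i) = p (v * c⁻¹) (⟨1, h1⟩, i) := by
    intro l
    induction l with
    | zero =>
      intro _ c hc hc' v
      have : c = 1 := by simpa [ball] using hc
      subst this
      simp
    | succ l ih =>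
      intro hl c hc hc' v
      rcases (mem_ball_succ S l c).mp hc with h | ⟨x, hx, c', hc1, h3⟩ | ⟨x, hx, c', hc1, h3⟩
      · exact ih (by omega) c h hc' v
      · have hcc : c' ∈ C := by rw [hC]; exact ball_mono (Finset.Subset.refl _) (by omega) hc1
        have h4 := congrFun (hp (v * (FreeGroup.of x)⁻¹) x hx) (⟨c', hcc⟩, i)
        simp only [resA, resB, AddMonoidHom.coe_mk, ZeroHom.coe_mk, inv_mul_cancel_right] at h4
        have h5 : c' * FreeGroup.of x ∈ C := by rw [← h3]; exact hc'
        rw [if_pos h5, dif_pos h5] at h4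
        subst h3
        rw [← h4, ih (by omega) c' hc1 hcc, _root_.mul_inv_rev, ← mul_assoc]
      · have hcc : c' ∈ C := by rw [hC]; exact ball_mono (Finset.Subset.refl _) (by omega) hc1
        have h4 := congrFun (hp v x hx) (⟨c, hc'⟩, i)
        simp only [resA, resB, AddMonoidHom.coe_mk, ZeroHom.coe_mk] at h4
        have h5 : c * FreeGroup.of x ∈ C := by rw [← h3]; exact hcc
        rw [if_pos h5, dif_pos h5] at h4
        subst h3
        rw [h4, ih (by omega) _ hc1 hcc, _root_.mul_inv_rev, mul_assoc, mul_inv_cancel_left]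
  exact key k le_rfl c (by rw [← hC]; exact c.2) c.2 v

/-- cutting off a half tree -/
noncomputable def cutH (x : α) : (Fin n → MonoidAlgebra ℤ (FreeGroup α)) →+
    (Fin n → MonoidAlgebra ℤ (FreeGroup α)) := by
  classical
  exact {
    toFun := fun y i => .ofCoeff ((y i).coeff.filter (fun v => ¬ HT x v))
    map_zero' := by ext i v; simp [Finsupp.filter_apply]
    map_add' := fun y z => by
      ext i v
      simp only [Pi.add_apply, MonoidAlgebra.coeff_add, Finsupp.filter_add] }

open Classical in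
theorem coeff_cutH (x : α) (y : Fin n → MonoidAlgebra ℤ (FreeGroup α)) (i : Fin n)
    (v : FreeGroup α) :
    (cutH x y i).coeff v = if HT x v then 0 else (y i).coeff v := by
  have h : (cutH x y i).coeff v = if ¬ HT x v then (y i).coeff v else 0 := by
    simp only [cutH, AddMonoidHom.coe_mk, ZeroHom.coe_mk, Finsupp.filter_apply]
  rw [h]
  split_ifs <;> simp_all

noncomputable def trH (g : FreeGroup α) : (Fin n → MonoidAlgebra ℤ (FreeGroup α)) →+
    (Fin n → MonoidAlgebra ℤ (FreeGroup α)) where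
  toFun := tr g
  map_zero' := by ext1 i; simp [tr]
  map_add' := fun y z => by ext1 i; simp [tr, mul_add]

theorem coeff_trH (g : FreeGroup α) (y : Fin n → MonoidAlgebra ℤ (FreeGroup α)) (i : Fin n)
    (v : FreeGroup α) : (trH g y i).coeff v = (y i).coeff (g⁻¹ * v) := by
  simp [trH, tr]

noncomputable def dlH (h1 : (1 : FreeGroup α) ∈ C) : (C × Fin n → ℤ) →+
    (Fin n → MonoidAlgebra ℤ (FreeGroup α)) where
  toFun := fun q i => MonoidAlgebra.single 1 (q (⟨1, h1⟩, i))
  map_zero' := by ext1 i; simp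
  map_add' := fun y z => by ext1 i; simp

theorem coeff_dlH (h1 : (1 : FreeGroup α) ∈ C) (q : C × Fin n → ℤ) (i : Fin n)
    (v : FreeGroup α) : (dlH C h1 q i).coeff v = if v = 1 then q (⟨1, h1⟩, i) else 0 := by
  simp only [dlH, AddMonoidHom.coe_mk, ZeroHom.coe_mk, MonoidAlgebra.coeff_single,
    Finsupp.single_apply, eq_comm]

end patch

section main

variable {α : Type} [DecidableEq α] {n : ℕ}

theorem ite_sub_ite {A : Type} [AddCommGroup A] (p q : Prop) [Decidable p] [Decidable q] (a : A) :
    (if p then (0 : A) else a) - (if q then 0 else a) =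
      if p ↔ q then 0 else (if p then -a else a) := by
  by_cases h : p <;> by_cases h' : q <;> simp [h, h']

open Classical in
theorem patch_section (C : Finset (FreeGroup α)) (S : Finset α) (k : ℕ) (hC : C = ball S k)
    (K : Submodule (MonoidAlgebra ℤ (FreeGroup α)) (Fin n → MonoidAlgebra ℤ (FreeGroup α)))
    (VV : AddSubgroup (C × Fin n → ℤ)) (hK : ∀ y, y ∈ K ↔ ∀ v, pat C v y ∈ VV) :
    ∃ (m : ℕ) (X : Fin m → K)
      (s : K →ₗ[MonoidAlgebra ℤ (FreeGroup α)] (Fin m → MonoidAlgebra ℤ (FreeGroup α))),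
      ∀ y : K, y = ∑ i, s y i • X i := by
  have h1 : (1 : FreeGroup α) ∈ C := by rw [hC]; exact one_mem_ball S k
  let ρ : K →+ (C × Fin n → ℤ) := (pat C 1).comp K.subtype.toAddMonoidHom
  have hρ : ∀ y : K, ρ y = pat C 1 y.1 := fun _ => rfl
  have htr : ∀ (g : FreeGroup α) (y : K), tr g y.1 = (MonoidAlgebra.single g (1 : ℤ) • y : K).1 :=
    fun g y => rfl
  obtain ⟨m, b, co, hb⟩ := range_basis ρ
  have hτ : ∀ x : α, ∃ τ : (((resA C x).comp ρ).range) →+ K, ∀ w, (resA C x).comp ρ (τ w) = w :=
    fun x => range_sec _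
  choose τ hτ using hτ
  have hA : ∀ x (u : ρ.range), resA C x u.1 ∈ ((resA C x).comp ρ).range := by
    rintro x ⟨u, y, rfl⟩
    exact ⟨y, rfl⟩
  have hB : ∀ x (u : ρ.range), resB C x u.1 ∈ ((resA C x).comp ρ).range := by
    rintro x ⟨u, y, rfl⟩
    refine ⟨MonoidAlgebra.single (FreeGroup.of x) (1 : ℤ) • y, ?_⟩
    change resA C x (pat C 1 (tr (FreeGroup.of x) y.1)) = resB C x (pat C 1 y.1)
    rw [resA_pat, pat_tr, one_mul, inv_mul_cancel]
  let TA : ∀ x : α, ρ.range →+ K := fun x =>
    (τ x).comp (((resA C x).comp ρ.range.subtype).codRestrict _ (hA x))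
  let TB : ∀ x : α, ρ.range →+ K := fun x =>
    (τ x).comp (((resB C x).comp ρ.range.subtype).codRestrict _ (hB x))
  have hTA : ∀ x u, resA C x (pat C 1 (TA x u).1) = resA C x u.1 := fun x u => hτ x _
  have hTB : ∀ x u, resA C x (pat C 1 (TB x u).1) = resB C x u.1 := fun x u => hτ x _
  have hTAB : ∀ x u u', resA C x u.1 = resB C x u'.1 → TA x u = TB x u' := fun x u u' h =>
    congrArg (τ x) (Subtype.ext h)
  let Z : ρ.range →+ (Fin n → MonoidAlgebra ℤ (FreeGroup α)) :=
    (dlH C h1).comp ρ.range.subtype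
      - ∑ x ∈ S, (cutH x).comp (K.subtype.toAddMonoidHom.comp (TA x))
      + ∑ x ∈ S, (trH (FreeGroup.of x)⁻¹).comp
          ((cutH x).comp (K.subtype.toAddMonoidHom.comp (TB x)))
  let GA : α → FreeGroup α → ρ.range → Fin n → ℤ := fun x v u i =>
    if HT x v then 0 else ((TA x u).1 i).coeff v
  let GB : α → FreeGroup α → ρ.range → Fin n → ℤ := fun x v u i =>
    if HT x v then 0 else ((TB x u).1 i).coeff v
  have hZ : ∀ u i v, (Z u i).coeff v = (if v = 1 then u.1 (⟨1, h1⟩, i) else 0)
      - ∑ x ∈ S, GA x v u i + ∑ x ∈ S, GB x (FreeGroup.of x * v) u i := by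
    intro u i v
    have e1 : Z u i = dlH C h1 u.1 i - ∑ x ∈ S, cutH x (TA x u).1 i
        + ∑ x ∈ S, trH (FreeGroup.of x)⁻¹ (cutH x (TB x u).1) i := by
      simp only [Z, AddMonoidHom.add_apply, AddMonoidHom.sub_apply, AddMonoidHom.finsetSum_apply,
        Pi.add_apply, Pi.sub_apply, Finset.sum_apply]
      rfl
    rw [e1, MonoidAlgebra.coeff_add, Finsupp.add_apply, MonoidAlgebra.coeff_sub,
      Finsupp.sub_apply, coeff_sum', coeff_sum', coeff_dlH]
    simp only [coeff_trH, coeff_cutH, inv_inv, GA, GB]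
  -- the family of patches of `Z u`
  let a : α → FreeGroup α → ρ.range → (C × Fin n → ℤ) := fun x v u =>
    if HT x v then 0 else pat C v (TA x u).1
  let b' : α → FreeGroup α → ρ.range → (C × Fin n → ℤ) := fun x v u =>
    if HT x v then 0 else pat C v (TB x u).1
  let d : FreeGroup α → ρ.range → (C × Fin n → ℤ) := fun v u => if v = 1 then u.1 else 0
  let fam : ρ.range → FreeGroup α → (C × Fin n → ℤ) := fun u v =>
    d v u - ∑ x ∈ S, a x v u + ∑ x ∈ S, b' x (FreeGroup.of x * v) u
  have hfam1 : ∀ u v i, fam u v (⟨1, h1⟩, i) = (Z u i).coeff v := by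
    intro u v i
    rw [hZ]
    simp only [fam, Pi.add_apply, Pi.sub_apply, Finset.sum_apply, d, a, b', GA, GB]
    have e1 : ∀ (p : Prop) [Decidable p] (q : C × Fin n → ℤ) (r : C × Fin n),
        (if p then (0 : C × Fin n → ℤ) else q) r = if p then 0 else q r := by
      intro p _ q r; split_ifs <;> rfl
    have e2 : ∀ (p : Prop) [Decidable p] (q : C × Fin n → ℤ) (r : C × Fin n),
        (if p then q else (0 : C × Fin n → ℤ)) r = if p then q r else 0 := by
      intro p _ q r; split_ifs <;> rfl
    have e3 : ∀ v (y : Fin n → MonoidAlgebra ℤ (FreeGroup α)),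
        pat C v y (⟨1, h1⟩, i) = (y i).coeff v := by
      intro v y; simp [pat]
    simp only [e1, e2, e3]
  have hgen : ∀ (x y : α) (v : FreeGroup α) (w : Fin n → MonoidAlgebra ℤ (FreeGroup α)),
      resA C y (if HT x v then 0 else pat C v w)
        - resB C y (if HT x (v * FreeGroup.of y) then 0 else pat C (v * FreeGroup.of y) w)
      = if v = 1 ∧ y = x then resA C x (pat C 1 w) else 0 := by
    intro x y v w
    have e1 : ∀ (p : Prop) [Decidable p] (f : (C × Fin n → ℤ) →+ (C × Fin n → ℤ))
        (q : C × Fin n → ℤ), f (if p then 0 else q) = if p then 0 else f q := by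
      intro p _ f q; split_ifs
      · exact map_zero f
      · rfl
    rw [e1, e1, ← resA_pat, ite_sub_ite]
    rcases HT_step x y v with h | ⟨rfl, rfl⟩
    · rw [if_pos h]
      split_ifs with h2
      · exfalso
        obtain ⟨rfl, rfl⟩ := h2
        exact not_HT_one y (h.mpr (by rw [one_mul]; exact HT_of y))
      · rfl
    · rw [if_neg, if_neg (not_HT_one y), if_pos ⟨rfl, rfl⟩]
      rw [one_mul]
      exact fun h => not_HT_one y (h.mpr (HT_of y))
  have hcons : ∀ u v, ∀ y ∈ S, resA C y (fam u v) = resB C y (fam u (v * FreeGroup.of y)) := by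
    intro u v y hy
    rw [← sub_eq_zero]
    simp only [fam, map_add, map_sub, map_sum]
    have e1 : ∑ x ∈ S, resA C y (a x v u) - ∑ x ∈ S, resB C y (a x (v * FreeGroup.of y) u)
        = if v = 1 then resA C y u.1 else 0 := by
      rw [← Finset.sum_sub_distrib, Finset.sum_eq_single_of_mem y hy]
      · rw [hgen]
        simp only [and_true, hTA]
      · intro x _ hx
        rw [hgen, if_neg]
        exact fun h => hx h.2.symm
    have e2 : ∑ x ∈ S, resA C y (b' x (FreeGroup.of x * v) u)
        - ∑ x ∈ S, resB C y (b' x (FreeGroup.of x * (v * FreeGroup.of y)) u)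
        = if v * FreeGroup.of y = 1 then resB C y u.1 else 0 := by
      rw [← Finset.sum_sub_distrib, Finset.sum_eq_single_of_mem y hy]
      · rw [← mul_assoc, hgen]
        simp only [and_true, hTB]
        have e3 : FreeGroup.of y * v = 1 ↔ v * FreeGroup.of y = 1 := by
          rw [mul_eq_one_iff_eq_inv, mul_eq_one_iff_eq_inv]
          constructor
          · intro h; rw [h]; simp
          · intro h; rw [h]; simp
        simp only [e3]
      · intro x _ hx
        rw [← mul_assoc, hgen, if_neg]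
        exact fun h => hx h.2.symm
    have e3 : resA C y (d v u) - resB C y (d (v * FreeGroup.of y) u)
        = (if v = 1 then resA C y u.1 else 0) - if v * FreeGroup.of y = 1 then resB C y u.1 else 0 := by
      simp only [d]
      congr 1 <;> split_ifs <;> simp
    calc _ = (resA C y (d v u) - resB C y (d (v * FreeGroup.of y) u))
        - (∑ x ∈ S, resA C y (a x v u) - ∑ x ∈ S, resB C y (a x (v * FreeGroup.of y) u))
        + (∑ x ∈ S, resA C y (b' x (FreeGroup.of x * v) u)
        - ∑ x ∈ S, resB C y (b' x (FreeGroup.of x * (v * FreeGroup.of y)) u)) := by abel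
      _ = 0 := by rw [e1, e2, e3]; abel
  have hpatZ : ∀ u v, pat C v (Z u) = fam u v := by
    intro u v
    ext1 p
    rcases p with ⟨c, i⟩
    rw [connect C S k hC h1 (fam u) (hcons u), hfam1]
    rfl
  have hrange : ∀ u : ρ.range, u.1 ∈ VV := by
    rintro ⟨u, y, rfl⟩
    exact (hK y.1).mp y.2 1
  have hZK : ∀ u, Z u ∈ K := by
    intro u
    rw [hK]
    intro v
    rw [hpatZ]
    refine VV.add_mem (VV.sub_mem ?_ ?_) ?_
    · simp only [d]
      split_ifs
      · exact hrange u
      · exact VV.zero_mem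
    · refine VV.sum_mem fun x _ => ?_
      simp only [a]
      split_ifs
      · exact VV.zero_mem
      · exact (hK _).mp (TA x u).2 _
    · refine VV.sum_mem fun x _ => ?_
      simp only [b']
      split_ifs
      · exact VV.zero_mem
      · exact (hK _).mp (TB x u).2 _
  -- the patches as elements of the range
  have hmem : ∀ (v : FreeGroup α) (y : K), pat C v y.1 ∈ ρ.range := by
    intro v y
    refine ⟨MonoidAlgebra.single v⁻¹ (1 : ℤ) • y, ?_⟩
    change pat C 1 (tr v⁻¹ y.1) = _
    rw [pat_tr, inv_inv, mul_one]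
  let pK : FreeGroup α → K →+ ρ.range := fun v =>
    ((pat C v).comp K.subtype.toAddMonoidHom).codRestrict _ (hmem v)
  have hpK : ∀ v y, (pK v y).1 = pat C v y.1 := fun _ _ => rfl
  have hpKtr : ∀ v g (y : K), pK v (MonoidAlgebra.single g (1 : ℤ) • y) = pK (g⁻¹ * v) y := by
    intro v g y
    apply Subtype.ext
    rw [hpK, hpK]
    exact pat_tr C g v y.1
  let T : K → Finset (FreeGroup α) := fun y =>
    Finset.univ.biUnion fun i => (y.1 i).coeff.support.biUnion fun w => C.image fun c => w * c
  have hT : ∀ y v, v ∉ T y → pK v y = 0 := by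
    intro y v hv
    apply Subtype.ext
    rw [hpK]
    ext1 p
    rcases p with ⟨c, i⟩
    change (y.1 i).coeff (v * (c : FreeGroup α)⁻¹) = 0
    by_contra h
    apply hv
    simp only [T, Finset.mem_biUnion, Finset.mem_univ, true_and, Finset.mem_image,
      Finsupp.mem_support_iff]
    exact ⟨i, _, h, c, c.2, by simp⟩
  -- the section
  let s : K →+ (Fin m → MonoidAlgebra ℤ (FreeGroup α)) :=
    { toFun := fun y i => .ofCoeff (Finsupp.onFinset (T y) (fun v => co i (pK v y)) (by
        intro v hv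
        by_contra h
        exact hv (by rw [hT y v h, map_zero])))
      map_zero' := by ext i v; simp
      map_add' := fun y z => by ext i v; simp }
  have hs : ∀ y i v, (s y i).coeff v = co i (pK v y) := fun y i v => rfl
  have hsl : ∀ (c : MonoidAlgebra ℤ (FreeGroup α)) (y : K), s (c • y) = c • s y := by
    intro c y
    induction c using MonoidAlgebra.induction_linear with
    | zero => rw [zero_smul, zero_smul, map_zero]
    | add c1 c2 h1 h2 => rw [add_smul, add_smul, map_add, h1, h2]
    | single g r =>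
      have e1 : MonoidAlgebra.single g r = r • MonoidAlgebra.single g (1 : ℤ) := by
        rw [MonoidAlgebra.smul_single]; simp
      rw [e1, smul_assoc, map_zsmul, smul_assoc]
      congr 1
      ext i v
      rw [hs, hpKtr, Pi.smul_apply, smul_eq_mul, MonoidAlgebra.coeff_single_mul_apply, one_mul, hs]
  refine ⟨m, fun i => ⟨Z (b i), hZK _⟩, { toFun := s, map_add' := map_add s, map_smul' := hsl }, ?_⟩
  intro y
  apply Subtype.ext
  change y.1 = ((∑ i, s y i • (⟨Z (b i), hZK _⟩ : K) : K) : Fin n → MonoidAlgebra ℤ (FreeGroup α))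
  rw [Submodule.coe_sum]
  ext j h
  have hsupp : ∀ i, (s y i).coeff.support ⊆ T y := by
    intro i v hv
    by_contra h2
    rw [Finsupp.mem_support_iff, hs, hT y v h2, map_zero] at hv
    exact hv rfl
  have hfs : ∀ f : FreeGroup α → ℤ, (∀ v, v ∉ T y → f v = 0) → ∑ v ∈ T y, f v = ∑ᶠ v, f v := by
    intro f hf
    refine (finsum_eq_sum_of_support_subset f fun v hv => ?_).symm
    by_contra h2
    exact hv (hf v h2)
  have e1 : ((∑ i, ((s y i • (⟨Z (b i), hZK _⟩ : K) : K) : Fin n → MonoidAlgebra ℤ (FreeGroup α))) j).coeff h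
      = ∑ v ∈ T y, (Z (pK v y) j).coeff (v⁻¹ * h) := by
    rw [Finset.sum_apply, coeff_sum']
    have e2 : ∀ i, (((s y i • (⟨Z (b i), hZK _⟩ : K) : K) : Fin n → MonoidAlgebra ℤ (FreeGroup α)) j).coeff h
        = ∑ v ∈ T y, co i (pK v y) * (Z (b i) j).coeff (v⁻¹ * h) := by
      intro i
      change (s y i * Z (b i) j).coeff h = _
      rw [coeff_mul_left' (T y) _ _ (hsupp i)]
      rfl
    simp only [e2]
    rw [Finset.sum_comm]
    refine Finset.sum_congr rfl fun v _ => ?_
    conv_rhs => rw [hb (pK v y)]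
    rw [map_sum, Finset.sum_apply, coeff_sum']
    refine Finset.sum_congr rfl fun i _ => ?_
    rw [map_zsmul, Pi.smul_apply, MonoidAlgebra.coeff_smul, Finsupp.smul_apply, smul_eq_mul]
  rw [e1]
  simp only [hZ]
  rw [Finset.sum_add_distrib, Finset.sum_sub_distrib, Finset.sum_comm (s := T y) (t := S),
    Finset.sum_comm (s := T y) (t := S)]
  have e3 : ∀ x ∈ S, ∑ v ∈ T y, GA x (v⁻¹ * h) (pK v y) j
      = ∑ v ∈ T y, GB x (FreeGroup.of x * (v⁻¹ * h)) (pK v y) j := by
    intro x _
    rw [hfs _ (fun v hv => by simp [GA, hT y v hv]), hfs _ (fun v hv => by simp [GB, hT y v hv])]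
    refine Eq.trans ?_ (finsum_comp_equiv (Equiv.mulRight (FreeGroup.of x)))
    refine finsum_congr fun v => ?_
    have e4 : TA x (pK v y) = TB x (pK (v * FreeGroup.of x) y) := hTAB x _ _ (resA_pat C x v y.1)
    simp only [GA, GB, Equiv.coe_mulRight, e4]
    have e5 : FreeGroup.of x * ((v * FreeGroup.of x)⁻¹ * h) = v⁻¹ * h := by group
    rw [e5]
  rw [Finset.sum_congr rfl e3, sub_add_cancel]
  have e6 : ∀ v, (if v⁻¹ * h = 1 then (pK v y).1 (⟨1, h1⟩, j) else 0)
      = if v = h then (y.1 j).coeff h else 0 := by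
    intro v
    by_cases hv : v = h
    · subst hv
      rw [if_pos (inv_mul_cancel v), if_pos rfl, hpK]
      simp [pat]
    · rw [if_neg hv, if_neg]
      intro h2
      exact hv (inv_mul_eq_one.mp h2)
  simp only [e6]
  rw [Finset.sum_ite_eq']
  split_ifs with h2
  · rfl
  · have h3 := hT y h h2
    have h4 : pat C h y.1 (⟨1, h1⟩, j) = 0 := by
      rw [← hpK, h3]; rfl
    simpa [pat] using h4

/-- kernels over the integral group ring of a free group -/
theorem kp_free (α : Type) : KP (FreeGroup α) := by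
  classical
  intro n N Φ
  let D : Finset (FreeGroup α) :=
    Finset.univ.biUnion fun i => Finset.univ.biUnion fun j => (Φ i j).coeff.support
  obtain ⟨S, k, hD⟩ := exists_ball D
  let C := ball S k
  have hsupp : ∀ i j, (Φ i j).coeff.support ⊆ C := by
    intro i j c hc
    apply hD
    simp only [D, Finset.mem_biUnion, Finset.mem_univ, true_and]
    exact ⟨i, j, hc⟩
  let VV : AddSubgroup (C × Fin n → ℤ) :=
    { carrier := {q | ∀ j, ∑ i, ∑ c : C, q (c, i) * (Φ i j).coeff c = 0}
      zero_mem' := by intro j; simp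
      add_mem' := by
        intro p q hp hq j
        simp only [Pi.add_apply, add_mul, Finset.sum_add_distrib]
        rw [hp j, hq j, add_zero]
      neg_mem' := by
        intro p hp j
        simp only [Pi.neg_apply, neg_mul, Finset.sum_neg_distrib]
        rw [hp j, neg_zero] }
  let K := LinearMap.ker (Matrix.vecMulLinear Φ)
  have hK : ∀ y, y ∈ K ↔ ∀ v, pat C v y ∈ VV := by
    intro y
    have e1 : ∀ v j, ∑ i, ∑ c : C, pat C v y (c, i) * (Φ i j).coeff c = ((y ᵥ* Φ) j).coeff v := by
      intro v j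
      rw [Matrix.vecMul, dotProduct, coeff_sum']
      refine Finset.sum_congr rfl fun i _ => ?_
      rw [coeff_mul_right C _ _ (hsupp i j), ← Finset.sum_coe_sort C]
      rfl
    rw [LinearMap.mem_ker]
    change y ᵥ* Φ = 0 ↔ ∀ v j, _
    simp only [e1]
    constructor
    · intro h v j; rw [h]; rfl
    · intro h; ext j v; rw [h]; rfl
  obtain ⟨m, X, s, hs⟩ := patch_section C S k rfl K VV hK
  have hlin : ∀ r : Fin m → MonoidAlgebra ℤ (FreeGroup α),
      ((∑ i, r i • X i : K) : Fin n → MonoidAlgebra ℤ (FreeGroup α))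
        = r ᵥ* (Matrix.of fun i => (X i).1) := by
    intro r
    rw [Matrix.vecMul_eq_sum, Submodule.coe_sum]
    rfl
  refine ⟨m, Matrix.of fun i => (X i).1, Matrix.of fun i => s (X i), ?_, ?_, ?_, ?_⟩
  · refine funext fun i => ?_
    exact (X i).2
  · refine funext fun i => ?_
    have h := congrArg Subtype.val (hs (X i))
    rw [hlin] at h
    exact h.symm
  · intro y hy
    refine ⟨s ⟨y, hy⟩, ?_⟩
    have h := congrArg Subtype.val (hs ⟨y, hy⟩)
    rw [hlin] at h
    exact h
  · intro r hr
    have h1 : (∑ i, r i • X i : K) = 0 := Subtype.ext ((hlin r).trans hr)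
    have h2 := congrArg s h1
    rw [map_sum, map_zero] at h2
    rw [Matrix.vecMul_eq_sum]
    simp only [map_smul] at h2
    exact h2

end main

end Pool.Agent.T9h15.UN
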