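import Pool.Agent.T9h15.UN.KPF
import Pool.Agent.R719.LF.Iso

set_option autoImplicit false
set_option linter.unusedSectionVars false
set_option linter.unusedSimpArgs false

/-! Matrices over group rings whose rows and columns are labelled by the points of a set with an
action of the group. -/

namespace Pool.Agent.T9h15.UN

open Matrix TH6.LF

variable {Γ : Type} [Group Γ] {Λ : Type} [MulAction Γ Λ]

/-- the support of the matrix `A` lies in the relation `R` -/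
def Sup {κ μ : Type} (ℓ : κ → Λ) (ℓ' : μ → Λ) (R : Λ → Λ → Prop)
    (A : Matrix κ μ (MonoidAlgebra ℤ Γ)) : Prop :=
  ∀ k l g, (A k l).coeff g ≠ 0 → R (ℓ k) (g • ℓ' l)

/-- invariant relations -/
def Inv (Γ : Type) [Group Γ] {Λ : Type} [MulAction Γ Λ] (R : Λ → Λ → Prop) : Prop :=
  ∀ (g : Γ) x y, R x y → R (g • x) (g • y)

theorem Inv.iff {R : Λ → Λ → Prop} (h : Inv Γ R) (g : Γ) (x y : Λ) :
    R (g • x) (g • y) ↔ R x y := by
  refine ⟨fun h1 => ?_, h g x y⟩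
  have := h g⁻¹ _ _ h1
  rwa [inv_smul_smul, inv_smul_smul] at this

theorem inv_eq : Inv Γ (fun x y : Λ => x = y) := fun g x y h => by
  change g • x = g • y
  rw [show x = y from h]

section sup

variable {κ μ ι : Type} [Fintype κ] [Fintype μ] [Fintype ι]
  {ℓ : κ → Λ} {ℓ' : μ → Λ} {ℓ'' : ι → Λ}

theorem coeff_mul_ne {x y : MonoidAlgebra ℤ Γ} {g : Γ} (h : (x * y).coeff g ≠ 0) :
    ∃ a, x.coeff a ≠ 0 ∧ y.coeff (a⁻¹ * g) ≠ 0 := by
  rw [MonoidAlgebra.coeff_mul_apply_left, Finsupp.sum] at h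
  obtain ⟨a, _, h2⟩ := Finset.exists_ne_zero_of_sum_ne_zero h
  exact ⟨a, left_ne_zero_of_mul h2, right_ne_zero_of_mul h2⟩

theorem Sup.mul {R S T : Λ → Λ → Prop} (hS : Inv Γ S)
    (hT : ∀ x y z, R x y → S y z → T x z)
    {A : Matrix κ μ (MonoidAlgebra ℤ Γ)} {B : Matrix μ ι (MonoidAlgebra ℤ Γ)}
    (hA : Sup ℓ ℓ' R A) (hB : Sup ℓ' ℓ'' S B) : Sup ℓ ℓ'' T (A * B) := by
  intro k l g hg
  rw [Matrix.mul_apply, coeff_sum'] at hg
  obtain ⟨m, _, hm⟩ := Finset.exists_ne_zero_of_sum_ne_zero hg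
  obtain ⟨a, h1, h2⟩ := coeff_mul_ne hm
  refine hT _ (a • ℓ' m) _ (hA _ _ _ h1) ?_
  have h3 := hS a _ _ (hB _ _ _ h2)
  rwa [smul_smul, mul_inv_cancel_left] at h3

theorem Sup.mono {R S : Λ → Λ → Prop} (h : ∀ x y, R x y → S x y)
    {A : Matrix κ μ (MonoidAlgebra ℤ Γ)} (hA : Sup ℓ ℓ' R A) : Sup ℓ ℓ' S A :=
  fun k l g hg => h _ _ (hA k l g hg)

theorem Sup.adj {R S : Λ → Λ → Prop} (hR : Inv Γ R) (h : ∀ x y, R x y → S y x)
    {A : Matrix κ μ (MonoidAlgebra ℤ Γ)} (hA : Sup ℓ ℓ' R A) : Sup ℓ' ℓ S (adj A) := by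
  intro k l g hg
  rw [coeff_adj] at hg
  have h1 := hR g _ _ (hA _ _ _ hg)
  rw [smul_inv_smul] at h1
  exact h _ _ h1

theorem Sup.add {R : Λ → Λ → Prop} {A B : Matrix κ μ (MonoidAlgebra ℤ Γ)}
    (hA : Sup ℓ ℓ' R A) (hB : Sup ℓ ℓ' R B) : Sup ℓ ℓ' R (A + B) := by
  intro k l g hg
  rw [Matrix.add_apply, coeff_add'] at hg
  by_cases h : (A k l).coeff g = 0
  · exact hB _ _ _ (by rwa [h, zero_add] at hg)
  · exact hA _ _ _ h

theorem Sup.zsmul {R : Λ → Λ → Prop} {A : Matrix κ μ (MonoidAlgebra ℤ Γ)}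
    (hA : Sup ℓ ℓ' R A) (z : ℤ) : Sup ℓ ℓ' R (z • A) := by
  intro k l g hg
  rw [Matrix.smul_apply, coeff_zsmul'] at hg
  exact hA _ _ _ (right_ne_zero_of_mul hg)

end sup

section trc

variable {κ μ ι : Type} [Fintype κ] [Fintype μ] [Fintype ι]
  {ℓ : κ → Λ} {ℓ' : μ → Λ} {ℓ'' : ι → Λ}

open Classical in
/-- the part of the matrix which is supported in the relation `R` -/
noncomputable def trc (R : Λ → Λ → Prop) (ℓ : κ → Λ) (ℓ' : μ → Λ)
    (A : Matrix κ μ (MonoidAlgebra ℤ Γ)) : Matrix κ μ (MonoidAlgebra ℤ Γ) := fun k l =>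
  .ofCoeff ((A k l).coeff.filter fun g => R (ℓ k) (g • ℓ' l))

open Classical in
theorem coeff_trc (R : Λ → Λ → Prop) (ℓ : κ → Λ) (ℓ' : μ → Λ)
    (A : Matrix κ μ (MonoidAlgebra ℤ Γ)) (k : κ) (l : μ) (g : Γ) :
    (trc R ℓ ℓ' A k l).coeff g = if R (ℓ k) (g • ℓ' l) then (A k l).coeff g else 0 := by
  simp only [trc, Finsupp.filter_apply]

theorem sup_trc (R : Λ → Λ → Prop) (A : Matrix κ μ (MonoidAlgebra ℤ Γ)) :
    Sup ℓ ℓ' R (trc R ℓ ℓ' A) := by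
  classical
  intro k l g hg
  rw [coeff_trc] at hg
  by_contra h
  exact hg (if_neg h)

theorem trc_of_sup {R : Λ → Λ → Prop} {A : Matrix κ μ (MonoidAlgebra ℤ Γ)}
    (h : Sup ℓ ℓ' R A) : trc R ℓ ℓ' A = A := by
  classical
  ext k l g
  rw [coeff_trc]
  split_ifs with h1
  · rfl
  · by_contra h2
    exact h1 (h k l g (Ne.symm h2))

theorem trc_mul_left {R : Λ → Λ → Prop} (hR : Inv Γ R) {Y : Matrix κ μ (MonoidAlgebra ℤ Γ)}
    (hY : Sup ℓ ℓ' (fun x y => x = y) Y) (A : Matrix μ ι (MonoidAlgebra ℤ Γ)) :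
    trc R ℓ ℓ'' (Y * A) = Y * trc R ℓ' ℓ'' A := by
  classical
  ext k l g
  rw [coeff_trc, Matrix.mul_apply, Matrix.mul_apply, coeff_sum', coeff_sum']
  have h : ∀ m, (Y k m * trc R ℓ' ℓ'' A m l).coeff g
      = if R (ℓ k) (g • ℓ'' l) then (Y k m * A m l).coeff g else 0 := by
    intro m
    rw [MonoidAlgebra.coeff_mul_apply_left, MonoidAlgebra.coeff_mul_apply_left, Finsupp.sum,
      Finsupp.sum]
    have h1 : ∀ a ∈ (Y k m).coeff.support, (Y k m).coeff a * (trc R ℓ' ℓ'' A m l).coeff (a⁻¹ * g)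
        = if R (ℓ k) (g • ℓ'' l) then (Y k m).coeff a * (A m l).coeff (a⁻¹ * g) else 0 := by
      intro a ha
      have h2 : ℓ k = a • ℓ' m := hY k m a (Finsupp.mem_support_iff.mp ha)
      have h3 : R (ℓ' m) ((a⁻¹ * g) • ℓ'' l) ↔ R (ℓ k) (g • ℓ'' l) := by
        rw [h2, ← hR.iff a, smul_smul, mul_inv_cancel_left]
      rw [coeff_trc]
      simp only [h3]
      split_ifs
      · rfl
      · rw [mul_zero]
    rw [Finset.sum_congr rfl h1]
    split_ifs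
    · rfl
    · simp
  simp only [h]
  split_ifs
  · rfl
  · simp

theorem adj_trc {R : Λ → Λ → Prop} (hR : Inv Γ R) (hs : ∀ x y, R x y → R y x)
    (A : Matrix κ μ (MonoidAlgebra ℤ Γ)) : adj (trc R ℓ ℓ' A) = trc R ℓ' ℓ (adj A) := by
  classical
  ext k l g
  rw [coeff_adj, coeff_trc, coeff_trc, coeff_adj]
  have h : R (ℓ l) (g⁻¹ • ℓ' k) ↔ R (ℓ' k) (g • ℓ l) := by
    rw [← hR.iff g, smul_inv_smul]
    exact ⟨hs _ _, hs _ _⟩
  simp only [h]

theorem trc_mul_right {R : Λ → Λ → Prop} (hR : Inv Γ R) (hs : ∀ x y, R x y → R y x)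
    {Y : Matrix ι μ (MonoidAlgebra ℤ Γ)}
    (hY : Sup ℓ'' ℓ' (fun x y => x = y) Y) (A : Matrix κ μ (MonoidAlgebra ℤ Γ)) :
    trc R ℓ ℓ'' (A * adj Y) = trc R ℓ ℓ' A * adj Y := by
  have h1 : A * adj Y = adj (Y * adj A) := by rw [adj_mul, adj_adj]
  rw [h1, ← adj_trc hR hs, trc_mul_left hR hY, adj_mul, adj_trc hR hs, adj_adj]

end trc

section rows

variable {κ μ ι : Type} [Fintype κ] [Fintype μ] [Fintype ι]

/-- rows which live at the point `y` -/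
def At (ℓ : κ → Λ) (y : Λ) (v : κ → MonoidAlgebra ℤ Γ) : Prop :=
  ∀ k g, (v k).coeff g ≠ 0 → g • ℓ k = y

open Classical in
/-- the part of a row at `y` -/
noncomputable def part (ℓ : κ → Λ) (y : Λ) (v : κ → MonoidAlgebra ℤ Γ) : κ → MonoidAlgebra ℤ Γ :=
  fun k => .ofCoeff ((v k).coeff.filter fun g => g • ℓ k = y)

open Classical in
theorem coeff_part (ℓ : κ → Λ) (y : Λ) (v : κ → MonoidAlgebra ℤ Γ) (k : κ) (g : Γ) :
    (part ℓ y v k).coeff g = if g • ℓ k = y then (v k).coeff g else 0 := by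
  simp only [part, Finsupp.filter_apply]

theorem at_part (ℓ : κ → Λ) (y : Λ) (v : κ → MonoidAlgebra ℤ Γ) : At ℓ y (part ℓ y v) := by
  classical
  intro k g hg
  rw [coeff_part] at hg
  by_contra h
  exact hg (if_neg h)

open Classical in
/-- the points occurring in a row -/
noncomputable def pts (ℓ : κ → Λ) (v : κ → MonoidAlgebra ℤ Γ) : Finset Λ :=
  Finset.univ.biUnion fun k => (v k).coeff.support.image fun g => g • ℓ k

theorem mem_pts (ℓ : κ → Λ) (v : κ → MonoidAlgebra ℤ Γ) (y : Λ) :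
    y ∈ pts ℓ v ↔ ∃ k g, (v k).coeff g ≠ 0 ∧ g • ℓ k = y := by
  simp only [pts, Finset.mem_biUnion, Finset.mem_univ, true_and, Finset.mem_image,
    Finsupp.mem_support_iff]

theorem sum_part (ℓ : κ → Λ) (v : κ → MonoidAlgebra ℤ Γ) :
    v = ∑ y ∈ pts ℓ v, part ℓ y v := by
  classical
  ext k g
  rw [Finset.sum_apply, coeff_sum']
  simp only [coeff_part]
  rw [Finset.sum_ite_eq]
  split_ifs with h
  · rfl
  · by_contra h2
    exact h ((mem_pts ℓ v _).mpr ⟨k, g, h2, rfl⟩)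

theorem part_zero_of_notMem (ℓ : κ → Λ) (v : κ → MonoidAlgebra ℤ Γ) (y : Λ) (h : y ∉ pts ℓ v) :
    part ℓ y v = 0 := by
  classical
  ext k g
  rw [coeff_part]
  split_ifs with h1
  · by_contra h2
    exact h ((mem_pts ℓ v y).mpr ⟨k, g, h2, h1⟩)
  · rfl

/-- if the labels determine the row points, then every part of a relation is a relation -/
theorem part_vecMul {ℓ : κ → Λ} {ℓ' : μ → Λ} {R : Λ → Λ → Prop} (hR : Inv Γ R)
    {A : Matrix κ μ (MonoidAlgebra ℤ Γ)} (hA : Sup ℓ ℓ' R A) (v : κ → MonoidAlgebra ℤ Γ)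
    (hv : v ᵥ* A = 0)
    (huniq : ∀ y₁ ∈ pts ℓ v, ∀ y₂ ∈ pts ℓ v, ∀ z, R y₁ z → R y₂ z → y₁ = y₂) (y : Λ) :
    part ℓ y v ᵥ* A = 0 := by
  classical
  by_cases hy : y ∈ pts ℓ v
  swap
  · rw [part_zero_of_notMem ℓ v y hy, Matrix.zero_vecMul]
  have hsup : ∀ y' j h, ((part ℓ y' v ᵥ* A) j).coeff h ≠ 0 → R y' (h • ℓ' j) := by
    intro y' j h hne
    rw [Matrix.vecMul, dotProduct, coeff_sum'] at hne
    obtain ⟨k, _, hk⟩ := Finset.exists_ne_zero_of_sum_ne_zero hne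
    obtain ⟨a, h1, h2⟩ := coeff_mul_ne hk
    have h3 := at_part ℓ y' v k a h1
    have h4 := hR a _ _ (hA _ _ _ h2)
    rwa [h3, smul_smul, mul_inv_cancel_left] at h4
  ext j h
  by_contra hne
  have h1 := hsup y j h hne
  have h2 : (∑ y' ∈ pts ℓ v, part ℓ y' v ᵥ* A) = v ᵥ* A := by
    rw [← Matrix.sum_vecMul, ← sum_part]
  rw [hv] at h2
  have h3 := congrArg (fun x => (x j).coeff h) h2
  simp only [Finset.sum_apply, coeff_sum'] at h3
  rw [Finset.sum_eq_single_of_mem y hy] at h3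
  · exact hne h3
  · intro y' hy' hyy
    by_contra h4
    exact hyy (huniq _ hy' _ hy _ (hsup y' j h h4) h1)

end rows

end Pool.Agent.T9h15.UN
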