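import Pool.Agent.T9h15.UN.Base

set_option autoImplicit false
set_option linter.unusedSectionVars false
set_option linter.unusedSimpArgs false

/-! Kernels of labelled matrices. -/

namespace Pool.Agent.T9h15.UN

open Matrix TH6.LF

variable {Γ : Type} [Group Γ]

section pr

variable (E : Subgroup Γ)

open Classical in
/-- the part supported in the subgroup -/
noncomputable def prE (x : MonoidAlgebra ℤ Γ) : MonoidAlgebra ℤ Γ :=
  .ofCoeff (x.coeff.filter (fun g => g ∈ E))

open Classical in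
theorem coeff_prE (x : MonoidAlgebra ℤ Γ) (g : Γ) :
    (prE E x).coeff g = if g ∈ E then x.coeff g else 0 := by
  simp only [prE, Finsupp.filter_apply]

theorem prE_zero : prE E (0 : MonoidAlgebra ℤ Γ) = 0 := by
  classical
  ext g; rw [coeff_prE]; simp

theorem prE_sum {ι : Type} (s : Finset ι) (f : ι → MonoidAlgebra ℤ Γ) :
    prE E (∑ i ∈ s, f i) = ∑ i ∈ s, prE E (f i) := by
  classical
  ext g
  rw [coeff_prE, coeff_sum', coeff_sum']
  simp only [coeff_prE]
  split_ifs
  · rfl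
  · simp

theorem prE_mul (a x : MonoidAlgebra ℤ Γ) (ha : ∀ g, a.coeff g ≠ 0 → g ∈ E) :
    prE E (a * x) = a * prE E x := by
  classical
  ext g
  rw [coeff_prE, MonoidAlgebra.coeff_mul_apply_left, MonoidAlgebra.coeff_mul_apply_left,
    Finsupp.sum, Finsupp.sum]
  have h : ∀ h ∈ a.coeff.support, a.coeff h * (prE E x).coeff (h⁻¹ * g)
      = if g ∈ E then a.coeff h * x.coeff (h⁻¹ * g) else 0 := by
    intro h hh
    have h1 := ha h (Finsupp.mem_support_iff.mp hh)
    rw [coeff_prE, E.mul_mem_cancel_left (E.inv_mem h1)]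
    split_ifs
    · rfl
    · rw [mul_zero]
  rw [Finset.sum_congr rfl h]
  split_ifs
  · rfl
  · simp

/-- kernels for one subgroup and rows in the set `P` -/
theorem lift_one (hE : ∀ F : Subgroup Γ, F ≤ E → F.FG → KP F) {κ μ : Type} [Fintype κ] [Fintype μ]
    (P : κ → Prop) (A : Matrix κ μ (MonoidAlgebra ℤ Γ)) :
    ∃ (m : ℕ) (X : Matrix (Fin m) κ (MonoidAlgebra ℤ Γ))
      (e : Matrix (Fin m) (Fin m) (MonoidAlgebra ℤ Γ)),
      (∀ i j g, (X i j).coeff g ≠ 0 → g ∈ E) ∧ (∀ i j g, (e i j).coeff g ≠ 0 → g ∈ E) ∧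
      (∀ i j, X i j ≠ 0 → P j) ∧
      X * A = 0 ∧ e * X = X ∧
      (∀ (g₀ : Γ) (v : κ → MonoidAlgebra ℤ Γ),
        (∀ k g, (v k).coeff g ≠ 0 → g₀⁻¹ * g ∈ E ∧ P k) → v ᵥ* A = 0 →
          ∃ s : Fin m → MonoidAlgebra ℤ Γ, v = s ᵥ* X) ∧
      (∀ s : Fin m → MonoidAlgebra ℤ Γ, s ᵥ* X = 0 → s ᵥ* e = 0) := by
  classical
  let T : Finset Γ := Finset.univ.biUnion fun k => Finset.univ.biUnion fun l => (A k l).coeff.support
  have hT : ∀ k l g, (A k l).coeff g ≠ 0 → g ∈ T := by
    intro k l g hg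
    simp only [T, Finset.mem_biUnion, Finset.mem_univ, true_and]
    exact ⟨k, l, Finsupp.mem_support_iff.mpr hg⟩
  let Φ : Matrix κ ((μ × T) ⊕ κ) (MonoidAlgebra ℤ Γ) := fun k c =>
    match c with
    | Sum.inl c => prE E (A k c.1 * MonoidAlgebra.single (c.2 : Γ)⁻¹ 1)
    | Sum.inr k' => if k = k' ∧ ¬ P k then 1 else 0
  have hΦE : ∀ i j g, (Φ i j).coeff g ≠ 0 → g ∈ E := by
    rintro i (j | j) g hg
    · by_contra h
      exact hg (by simp only [Φ]; rw [coeff_prE, if_neg h])
    · simp only [Φ] at hg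
      split_ifs at hg with h
      · rw [MonoidAlgebra.one_def, MonoidAlgebra.coeff_single, Finsupp.single_apply] at hg
        have : 1 = g := by
          by_contra h2
          exact hg (if_neg h2)
        rw [← this]
        exact E.one_mem
      · exact absurd rfl hg
  let D : Finset Γ := Finset.univ.biUnion fun k => Finset.univ.biUnion fun l => (Φ k l).coeff.support
  let F : Subgroup Γ := Subgroup.closure (D : Set Γ)
  have hFfg : F.FG := ⟨D, rfl⟩
  have hFE : F ≤ E := by
    rw [Subgroup.closure_le]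
    intro g hg
    simp only [D, Finset.mem_coe, Finset.mem_biUnion, Finset.mem_univ, true_and] at hg
    obtain ⟨k, l, h⟩ := hg
    exact hΦE k l g (Finsupp.mem_support_iff.mp h)
  have hΦF : ∀ i j g, (Φ i j).coeff g ≠ 0 → g ∈ F := by
    intro i j g hg
    apply Subgroup.subset_closure
    simp only [D, Finset.mem_coe, Finset.mem_biUnion, Finset.mem_univ, true_and]
    exact ⟨i, j, Finsupp.mem_support_iff.mpr hg⟩
  obtain ⟨m, X, e, hXF, heF, h1, h2, h3, h4⟩ := base_change F (hE F hFE hFfg) Φ hΦF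
  have hXP : ∀ i j, X i j ≠ 0 → P j := by
    intro i j hij
    by_contra hP
    apply hij
    have h5 := congrFun (congrFun h1 i) (Sum.inr j)
    rw [Matrix.mul_apply] at h5
    simp only [Φ] at h5
    rw [Finset.sum_eq_single_of_mem j (Finset.mem_univ j)] at h5
    · rw [if_pos ⟨rfl, hP⟩, mul_one] at h5
      exact h5
    · intro b _ hb
      rw [if_neg (fun h => hb h.1), mul_zero]
  refine ⟨m, X, e, fun i j g hg => hFE (hXF i j g hg), fun i j g hg => hFE (heF i j g hg), hXP,
    ?_, h2, ?_, h4⟩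
  · ext i l g
    by_contra hne
    rw [Matrix.mul_apply, coeff_sum'] at hne
    obtain ⟨k, _, hk⟩ := Finset.exists_ne_zero_of_sum_ne_zero hne
    obtain ⟨a, ha1, ha2⟩ := coeff_mul_ne hk
    have ht := hT _ _ _ ha2
    have h5 := congrFun (congrFun h1 i) (Sum.inl (l, ⟨a⁻¹ * g, ht⟩))
    have h6 : (X * Φ) i (Sum.inl (l, ⟨a⁻¹ * g, ht⟩))
        = prE E (∑ k, X i k * (A k l * MonoidAlgebra.single (a⁻¹ * g)⁻¹ 1)) := by
      rw [Matrix.mul_apply, prE_sum]
      refine Finset.sum_congr rfl fun k _ => ?_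
      rw [prE_mul E _ _ (fun g hg => hFE (hXF i k g hg))]
    rw [h6] at h5
    have h7 := congrArg (fun x => x.coeff a) h5
    rw [coeff_prE, if_pos (hFE (hXF _ _ _ ha1)), coeff_sum'] at h7
    apply hne
    refine Eq.trans ?_ h7
    refine Finset.sum_congr rfl fun k' _ => ?_
    rw [← mul_assoc, MonoidAlgebra.coeff_mul_single_apply, mul_one]
    congr 1
    group
  · intro g₀ v hv hvA
    apply h3
    ext1 c
    rcases c with ⟨l, t⟩ | k'
    · have h5 : (v ᵥ* Φ) (Sum.inl (l, t)) = MonoidAlgebra.single g₀ 1 *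
          prE E (∑ k, (MonoidAlgebra.single g₀⁻¹ 1 * v k) *
            (A k l * MonoidAlgebra.single (t : Γ)⁻¹ 1)) := by
        rw [prE_sum, Finset.mul_sum, Matrix.vecMul, dotProduct]
        refine Finset.sum_congr rfl fun k _ => ?_
        rw [prE_mul E]
        · rw [← mul_assoc, ← mul_assoc, MonoidAlgebra.single_mul_single, mul_inv_cancel, mul_one]
          rw [← MonoidAlgebra.one_def, one_mul]
        · intro g hg
          rw [MonoidAlgebra.coeff_single_mul_apply, one_mul, inv_inv] at hg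
          have := (hv k _ hg).1
          rwa [inv_mul_cancel_left] at this
      rw [h5]
      have h6 : ∑ k, (MonoidAlgebra.single g₀⁻¹ (1 : ℤ) * v k) *
            (A k l * MonoidAlgebra.single (t : Γ)⁻¹ 1)
          = MonoidAlgebra.single g₀⁻¹ (1 : ℤ) * ((v ᵥ* A) l) * MonoidAlgebra.single (t : Γ)⁻¹ 1 := by
        rw [Matrix.vecMul, dotProduct, Finset.mul_sum, Finset.sum_mul]
        exact Finset.sum_congr rfl fun k _ => by simp only [mul_assoc]
      rw [h6, hvA, Pi.zero_apply, mul_zero, zero_mul, prE_zero, mul_zero]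
      rfl
    · simp only [Matrix.vecMul, dotProduct, Φ]
      rw [Finset.sum_eq_single_of_mem k' (Finset.mem_univ k')]
      · split_ifs with h
        · have : v k' = 0 := by
            ext g
            by_contra h5
            exact h.2 (hv k' g h5).2
          rw [this, zero_mul]; rfl
        · rw [mul_zero]; rfl
      · intro b _ hb
        rw [if_neg (fun h => hb h.1), mul_zero]

end pr

section lift

variable {Λ : Type} [MulAction Γ Λ] {κ μ : Type} [Fintype κ] [Fintype μ]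

/-- the labels are representatives of orbits -/
def Nrm (Γ : Type) [Group Γ] {Λ : Type} [MulAction Γ Λ] {κ : Type} (ℓ : κ → Λ) : Prop :=
  ∀ k l (g : Γ), g • ℓ k = ℓ l → ℓ k = ℓ l

/-- all finitely generated subgroups of stabilisers of labels have good kernels -/
def SK (Γ : Type) [Group Γ] {Λ : Type} [MulAction Γ Λ] {κ : Type} (ℓ : κ → Λ) : Prop :=
  ∀ k, ∀ F : Subgroup Γ, F ≤ MulAction.stabilizer Γ (ℓ k) → F.FG → KP F

theorem lift_all {ℓ : κ → Λ} (hn : Nrm Γ ℓ) (hK : SK Γ ℓ) (A : Matrix κ μ (MonoidAlgebra ℤ Γ)) :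
    ∃ (M : Type) (_ : Fintype M) (_ : DecidableEq M) (ℓM : M → Λ)
      (X : Matrix M κ (MonoidAlgebra ℤ Γ)) (e : Matrix M M (MonoidAlgebra ℤ Γ)),
      (∀ j, ∃ k, ℓM j = ℓ k) ∧
      Sup ℓM ℓ (fun x y => x = y) X ∧ Sup ℓM ℓM (fun x y => x = y) e ∧
      X * A = 0 ∧ e * X = X ∧
      (∀ y v, At ℓ y v → v ᵥ* A = 0 → ∃ s : M → MonoidAlgebra ℤ Γ, v = s ᵥ* X) ∧
      (∀ s : M → MonoidAlgebra ℤ Γ, s ᵥ* X = 0 → s ᵥ* e = 0) := by
  classical
  have h := fun p : κ => lift_one (MulAction.stabilizer Γ (ℓ p)) (hK p) (fun k => ℓ k = ℓ p) A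
  -- one representative for each value of the labels
  let P : Type := Set.range ℓ
  have : Fintype P := Fintype.ofFinite _
  have hP : ∀ p : P, ∃ k, ℓ k = p.1 := fun p => p.2
  choose r hr using hP
  have h := fun p : P => lift_one (MulAction.stabilizer Γ p.1)
    (by have := hK (r p); rwa [hr] at this) (fun k => ℓ k = p.1) A
  choose m X e hX he hXP hXA heX hker hinj using h
  have hdiff : ∀ (p : P) i k, ℓ k ≠ p.1 → X p i k = 0 := by
    intro p i k hk
    by_contra h2
    exact hk (hXP p i k h2)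
  let XX : Matrix (Σ p : P, Fin (m p)) κ (MonoidAlgebra ℤ Γ) := fun q k => X q.1 q.2 k
  have hrow : ∀ (s : (Σ p : P, Fin (m p)) → MonoidAlgebra ℤ Γ) (k : κ),
      (s ᵥ* XX) k = ∑ p : P, ((fun i => s ⟨p, i⟩) ᵥ* X p) k := by
    intro s k
    simp only [Matrix.vecMul, dotProduct, XX]
    rw [Fintype.sum_sigma]
  refine ⟨Σ p : P, Fin (m p), inferInstance, inferInstance, fun q => q.1.1, XX,
    Matrix.blockDiagonal' e, fun q => ⟨r q.1, (hr q.1).symm⟩, ?_, ?_, ?_, ?_, ?_, ?_⟩
  · rintro ⟨p, i⟩ k g hg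
    have h1 : ℓ k = p.1 := by
      by_contra h2
      exact hg (by simp only [XX]; rw [hdiff p i k h2]; rfl)
    have h2 := hX p i k g hg
    rw [MulAction.mem_stabilizer_iff] at h2
    change p.1 = g • ℓ k
    rw [h1, h2]
  · rintro ⟨p, i⟩ ⟨q, j⟩ g hg
    rw [Matrix.blockDiagonal'_apply] at hg
    split_ifs at hg with h1
    · simp only at h1
      subst h1
      have h2 := he p i j g hg
      exact (MulAction.mem_stabilizer_iff.mp h2).symm
    · exact absurd rfl hg
  · refine funext fun q => ?_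
    exact congrFun (hXA q.1) q.2
  · ext1 q k
    rcases q with ⟨p, i⟩
    rw [Matrix.mul_apply, Fintype.sum_sigma, Finset.sum_eq_single_of_mem p (Finset.mem_univ p)]
    · simp only [Matrix.blockDiagonal'_apply_eq]
      exact congrFun (congrFun (heX p) i) k
    · intro q _ hq
      refine Finset.sum_eq_zero fun j _ => ?_
      rw [Matrix.blockDiagonal'_apply_ne e i j (Ne.symm hq), zero_mul]
  · intro y v hv hvA
    by_cases hv0 : v = 0
    · exact ⟨0, by rw [hv0, Matrix.zero_vecMul]⟩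
    obtain ⟨k₀, hk₀⟩ : ∃ k, v k ≠ 0 := by
      by_contra h2
      push Not at h2
      exact hv0 (funext h2)
    obtain ⟨g₀, hg₀⟩ : ∃ g, (v k₀).coeff g ≠ 0 := by
      by_contra h2
      push Not at h2
      exact hk₀ (by ext g; exact h2 g)
    have hy := hv k₀ g₀ hg₀
    let p : P := ⟨ℓ k₀, k₀, rfl⟩
    obtain ⟨s, hs⟩ := hker p g₀ v (by
      intro k g hg
      have h2 := hv k g hg
      have h3 : (g₀⁻¹ * g) • ℓ k = ℓ k₀ := by
        rw [mul_smul, h2, ← hy, inv_smul_smul]
      have h4 := hn _ _ _ h3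
      refine ⟨?_, h4⟩
      rw [MulAction.mem_stabilizer_iff]
      change _ • ℓ k₀ = ℓ k₀
      rw [← h4]
      rw [← h4] at h3
      exact h3) hvA
    refine ⟨fun q => if h : q.1 = p then s (h ▸ q.2) else 0, ?_⟩
    ext1 k
    rw [hrow, Finset.sum_eq_single_of_mem p (Finset.mem_univ p)]
    · simp only [dite_true]
      exact congrFun hs k
    · intro q _ hq
      simp only [hq, dite_false]
      exact congrFun (Matrix.zero_vecMul _) k
  · intro s hs
    have h1 : ∀ p : P, (fun i => s ⟨p, i⟩) ᵥ* X p = 0 := by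
      intro p
      ext1 k
      by_cases hk : ℓ k = p.1
      · have h2 := congrFun hs k
        rw [hrow, Finset.sum_eq_single_of_mem p (Finset.mem_univ p)] at h2
        · exact h2
        · intro q _ hq
          rw [Matrix.vecMul, dotProduct]
          refine Finset.sum_eq_zero fun j _ => ?_
          rw [hdiff q j k (fun h => hq (Subtype.ext (h.symm.trans hk))), mul_zero]
      · rw [Matrix.vecMul, dotProduct]
        refine Finset.sum_eq_zero fun j _ => ?_
        rw [hdiff p j k hk, mul_zero]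
    ext1 q
    rcases q with ⟨p, i⟩
    have h2 := congrFun (hinj p _ (h1 p)) i
    rw [Matrix.vecMul, dotProduct, Fintype.sum_sigma,
      Finset.sum_eq_single_of_mem p (Finset.mem_univ p)]
    · simp only [Matrix.blockDiagonal'_apply_eq]
      exact h2
    · intro q _ hq
      refine Finset.sum_eq_zero fun j _ => ?_
      rw [Matrix.blockDiagonal'_apply_ne e j i hq, mul_zero]

/-- the same for matrices whose support is vertical -/
theorem lift_eq {ℓ : κ → Λ} {ℓ' : μ → Λ} (hn : Nrm Γ ℓ) (hK : SK Γ ℓ)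
    (A : Matrix κ μ (MonoidAlgebra ℤ Γ)) (hA : Sup ℓ ℓ' (fun x y => x = y) A) :
    ∃ (M : Type) (_ : Fintype M) (_ : DecidableEq M) (ℓM : M → Λ)
      (X : Matrix M κ (MonoidAlgebra ℤ Γ)) (e : Matrix M M (MonoidAlgebra ℤ Γ)),
      (∀ j, ∃ k, ℓM j = ℓ k) ∧
      Sup ℓM ℓ (fun x y => x = y) X ∧ Sup ℓM ℓM (fun x y => x = y) e ∧
      X * A = 0 ∧ e * X = X ∧
      (∀ {ι : Type} (W : Matrix ι κ (MonoidAlgebra ℤ Γ)), W * A = 0 →
        ∃ S : Matrix ι M (MonoidAlgebra ℤ Γ), W = S * X) ∧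
      (∀ {ι : Type} (W : Matrix ι M (MonoidAlgebra ℤ Γ)), W * X = 0 → W * e = 0) := by
  obtain ⟨M, i1, i2, ℓM, X, e, h1, h2, h3, h4, h5, h6, h7⟩ := lift_all hn hK A
  refine ⟨M, i1, i2, ℓM, X, e, h1, h2, h3, h4, h5, ?_, ?_⟩
  · intro ι W hW
    have hrow : ∀ i, ∃ s : M → MonoidAlgebra ℤ Γ, W i = s ᵥ* X := by
      intro i
      have hv : W i ᵥ* A = 0 := congrFun hW i
      have h8 := part_vecMul inv_eq hA (W i) hv (fun y₁ _ y₂ _ z e1 e2 => e1.trans e2.symm)
      choose s hs using fun y => h6 y _ (at_part ℓ y (W i)) (h8 y)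
      refine ⟨∑ y ∈ pts ℓ (W i), s y, ?_⟩
      rw [Matrix.sum_vecMul]
      conv_lhs => rw [sum_part ℓ (W i)]
      exact Finset.sum_congr rfl fun y _ => hs y
    choose S hS using hrow
    exact ⟨S, funext fun i => hS i⟩
  · intro ι W hW
    exact funext fun i => h7 (W i) (congrFun hW i)

end lift

end Pool.Agent.T9h15.UN
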