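import Pool.Agent.T9h15.UN.Fin

set_option autoImplicit false
set_option linter.unusedSectionVars false
set_option linter.unusedSimpArgs false

/-! Refinement of labelled forms: stabilisers are replaced by stabilisers of pairs. -/

namespace Pool.Agent.T9h15.UN

open Matrix TH6.LF TH57.Thr

variable {Γ : Type} [Group Γ]

/-- all finitely generated subgroups have good kernels -/
def LFK (H : Subgroup Γ) : Prop := ∀ F : Subgroup Γ, F ≤ H → F.FG → KP F

theorem LFK.mono {H H' : Subgroup Γ} (h : LFK H) (hH : H' ≤ H) : LFK H' :=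
  fun F hF hfg => h F (hF.trans hH) hfg

section refine_sys

variable {Λ : Type} [MulAction Γ Λ]

/-- pairs of related labels -/
def Ref (S : Sys Γ Λ) (b : Bool) : Type := {P : Λ × Λ // S.R b P.1 P.2}

instance (S : Sys Γ Λ) (b : Bool) : MulAction Γ (Ref S b) where
  smul g P := ⟨(g • P.1.1, g • P.1.2), S.inv b g _ _ P.2⟩
  one_smul _ := Subtype.ext (Prod.ext (one_smul Γ _) (one_smul Γ _))
  mul_smul g h _ := Subtype.ext (Prod.ext (mul_smul g h _) (mul_smul g h _))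

theorem ref_smul (S : Sys Γ Λ) (b : Bool) (g : Γ) (P : Ref S b) :
    (g • P).1 = (g • P.1.1, g • P.1.2) := rfl

/-- the relations on pairs -/
def refR (S : Sys Γ Λ) (b : Bool) (c : Bool) (P Q : Ref S b) : Prop :=
  if c = b then Q.1 = P.1.swap else S.R c P.1.1 Q.1.1

theorem refR_proj (S : Sys Γ Λ) (b c : Bool) (P Q : Ref S b) (h : refR S b c P Q) :
    S.R c P.1.1 Q.1.1 := by
  unfold refR at h
  split_ifs at h with hc
  · subst hc
    rw [h]
    exact P.2
  · exact h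

theorem wk_proj (S : Sys Γ Λ) (b : Bool) (n : ℕ) : ∀ (c : Bool) (P Q : Ref S b),
    Wk (refR S b) c n P Q → Wk S.R c n P.1.1 Q.1.1 := by
  induction n with
  | zero =>
    intro c P Q h
    change P = Q at h
    subst h
    rfl
  | succ n ih =>
    rintro c P Q ⟨P', h1, h2⟩
    exact ⟨P'.1.1, ih _ _ _ h1, refR_proj S b c P' Q h2⟩

/-- the refined system -/
def refSys (S : Sys Γ Λ) (b : Bool) : Sys Γ (Ref S b) where
  R := refR S b
  inv := by
    intro c g P Q h
    unfold refR at h ⊢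
    split_ifs at h ⊢ with hc
    · rw [ref_smul, ref_smul, h]
      rfl
    · exact S.inv c g _ _ h
  symm := by
    intro c P Q h
    unfold refR at h ⊢
    split_ifs at h ⊢ with hc
    · rw [h, Prod.swap_swap]
    · exact S.symm c _ _ h
  irr := fun c P h => S.irr c _ (refR_proj S b c P P h)
  nc := by
    intro c n P Q₁ Q₂ Z h1 h2 h3 h4
    have hc' : c = b ∨ c = !b := by cases b <;> cases c <;> simp
    rcases hc' with rfl | rfl
    · unfold refR at h3 h4
      rw [if_pos rfl] at h3 h4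
      apply Subtype.ext
      rw [h3] at h4
      exact Prod.swap_injective h4
    · have e1 := wk_proj S b n _ _ _ h1
      have e2 := wk_proj S b n _ _ _ h2
      have e3 := S.nc (!b) n _ _ _ _ e1 e2 (refR_proj S b _ _ _ h3) (refR_proj S b _ _ _ h4)
      rcases n with _ | n
      · have f1 : P = Q₁ := h1
        have f2 : P = Q₂ := h2
        rw [← f1, ← f2]
      · rw [Bool.not_not] at h1 h2
        obtain ⟨P₁, h5, h6⟩ := h1
        obtain ⟨P₂, h7, h8⟩ := h2
        have f1 := wk_proj S b n _ _ _ h5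
        have f2 := wk_proj S b n _ _ _ h7
        unfold refR at h6 h8
        rw [if_pos rfl] at h6 h8
        have g1 : P₁.1.1 = Q₁.1.2 := by rw [h6]; rfl
        have g2 : P₂.1.1 = Q₂.1.2 := by rw [h8]; rfl
        rw [g1] at f1
        rw [g2] at f2
        have e4 := S.nc b n _ _ _ Q₁.1.1 f1 f2 (S.symm b _ _ Q₁.2)
          (by rw [e3]; exact S.symm b _ _ Q₂.2)
        exact Subtype.ext (Prod.ext e3 e4)

end refine_sys

section power

variable {κ M : Type} [Fintype κ] [DecidableEq κ] [Fintype M] [DecidableEq M]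

theorem pow_swap (A : Matrix κ M (MonoidAlgebra ℤ Γ)) (B : Matrix M κ (MonoidAlgebra ℤ Γ))
    (N : ℕ) : (A * B) ^ (N + 1) = A * (B * A) ^ N * B := by
  induction N with
  | zero => simp
  | succ N ih =>
    rw [pow_succ, ih, pow_succ (B * A)]
    simp only [Matrix.mul_assoc]

theorem pow_swap' (A B : Matrix κ κ (MonoidAlgebra ℤ Γ)) (N : ℕ) :
    (B * A) ^ N * B = B * (A * B) ^ N := by
  induction N with
  | zero => simp
  | succ N ih => rw [pow_succ', Matrix.mul_assoc, ih, pow_succ']; simp only [Matrix.mul_assoc]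

theorem nil_new (L : Bool → Matrix κ κ (MonoidAlgebra ℤ Γ))
    (L' : Bool → Matrix M M (MonoidAlgebra ℤ Γ)) (Y : Matrix κ M (MonoidAlgebra ℤ Γ)) (b : Bool)
    (h1 : L b = Y * L' b * adj Y) (h2 : L' (!b) = adj Y * L (!b) * Y) (N : ℕ)
    (h : (L true * L false) ^ N = 0) : (L' true * L' false) ^ (N + 1) = 0 := by
  cases b
  · simp only [Bool.not_false] at h2
    have e1 : L' true * L' false = adj Y * (L true * Y * L' false) := by
      rw [h2]; simp only [Matrix.mul_assoc]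
    have e2 : (L true * Y * L' false) * adj Y = L true * L false := by
      rw [h1]; simp only [Matrix.mul_assoc]
    rw [e1, pow_swap, e2, h, Matrix.mul_zero, Matrix.zero_mul]
  · simp only [Bool.not_true] at h2
    have e1 : L' true * L' false = (L' true * adj Y) * (L false * Y) := by
      rw [h2]; simp only [Matrix.mul_assoc]
    have e2 : (L false * Y) * (L' true * adj Y) = L false * L true := by
      rw [h1]; simp only [Matrix.mul_assoc]
    rw [e1, pow_swap, e2, Matrix.mul_assoc, ← Matrix.mul_assoc _ (L false), pow_swap', h,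
      Matrix.mul_zero, Matrix.zero_mul, Matrix.mul_zero]

theorem apr_pow (L : Bool → Matrix κ κ (MonoidAlgebra ℤ Γ)) (N : ℕ) :
    apr L false (2 * N) = (L true * L false) ^ N := by
  induction N with
  | zero => rfl
  | succ N ih =>
    rw [show 2 * (N + 1) = 2 * N + 2 from rfl, apr_two, ih, pow_succ, Matrix.mul_assoc]
    rfl

end power

section refine_form

variable {Λ : Type} [MulAction Γ Λ] {κ : Type} [Fintype κ] [DecidableEq κ]

open Classical in
/-- the nonzero terms of a matrix -/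
noncomputable def trm (ψ : Matrix κ κ (MonoidAlgebra ℤ Γ)) : Finset (κ × κ × Γ) :=
  Finset.univ.biUnion fun k => Finset.univ.biUnion fun l =>
    (ψ k l).coeff.support.image fun g => (k, l, g)

theorem mem_trm (ψ : Matrix κ κ (MonoidAlgebra ℤ Γ)) (t : κ × κ × Γ) :
    t ∈ trm ψ ↔ (ψ t.1 t.2.1).coeff t.2.2 ≠ 0 := by
  rcases t with ⟨k, l, g⟩
  simp only [trm, Finset.mem_biUnion, Finset.mem_univ, true_and, Finset.mem_image,
    Finsupp.mem_support_iff, Prod.mk.injEq]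
  constructor
  · rintro ⟨_, _, _, h, rfl, rfl, rfl⟩
    exact h
  · intro h
    exact ⟨k, l, g, h, rfl, rfl, rfl⟩

/-- the index set of the refined form -/
abbrev RI (ψ : Matrix κ κ (MonoidAlgebra ℤ Γ)) : Type := {t // t ∈ trm ψ} × Bool

/-- the old index of a new index -/
def ridx (ψ : Matrix κ κ (MonoidAlgebra ℤ Γ)) (i : RI ψ) : κ :=
  if i.2 then i.1.1.1 else i.1.1.2.1

theorem ridx_true (ψ : Matrix κ κ (MonoidAlgebra ℤ Γ)) (t : {t // t ∈ trm ψ}) :
    ridx ψ (t, true) = t.1.1 := rfl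

theorem ridx_false (ψ : Matrix κ κ (MonoidAlgebra ℤ Γ)) (t : {t // t ∈ trm ψ}) :
    ridx ψ (t, false) = t.1.2.1 := rfl

open Classical in
/-- the refined form -/
noncomputable def rform (ψ : Matrix κ κ (MonoidAlgebra ℤ Γ)) :
    Matrix (RI ψ) (RI ψ) (MonoidAlgebra ℤ Γ) := fun i j =>
  if i.1 = j.1 ∧ i.2 = true ∧ j.2 = false then
    MonoidAlgebra.single i.1.1.2.2 ((ψ i.1.1.1 i.1.1.2.1).coeff i.1.1.2.2) else 0

/-- the comparison matrix -/
noncomputable def rmat (ψ : Matrix κ κ (MonoidAlgebra ℤ Γ)) :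
    Matrix κ (RI ψ) (MonoidAlgebra ℤ Γ) := (1 : Matrix κ κ (MonoidAlgebra ℤ Γ)).submatrix id (ridx ψ)

theorem adj_rmat (ψ : Matrix κ κ (MonoidAlgebra ℤ Γ)) :
    adj (rmat ψ) = (1 : Matrix κ κ (MonoidAlgebra ℤ Γ)).submatrix (ridx ψ) id := by
  rw [rmat, adj_submatrix, adj_one]

theorem rmat_mul (ψ θ : Matrix κ κ (MonoidAlgebra ℤ Γ)) :
    adj (rmat ψ) * θ * rmat ψ = θ.submatrix (ridx ψ) (ridx ψ) := by
  rw [adj_rmat, rmat]
  ext1 i j
  simp [Matrix.mul_apply, Matrix.one_apply]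

theorem rmat_form (ψ : Matrix κ κ (MonoidAlgebra ℤ Γ)) :
    ψ = rmat ψ * rform ψ * adj (rmat ψ) := by
  classical
  rw [adj_rmat, rmat]
  ext k l g
  have h1 : ((1 : Matrix κ κ (MonoidAlgebra ℤ Γ)).submatrix id (ridx ψ) * rform ψ
      * (1 : Matrix κ κ (MonoidAlgebra ℤ Γ)).submatrix (ridx ψ) id) k l
      = ∑ t : {t // t ∈ trm ψ}, if t.1.1 = k ∧ t.1.2.1 = l then
          MonoidAlgebra.single t.1.2.2 ((ψ t.1.1 t.1.2.1).coeff t.1.2.2) else 0 := by
    rw [Matrix.mul_apply, Fintype.sum_prod_type]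
    refine Finset.sum_congr rfl fun t _ => ?_
    rw [Fintype.sum_bool]
    simp only [Matrix.mul_apply, Matrix.submatrix_apply, id_eq, Fintype.sum_prod_type,
      Fintype.sum_bool, rform]
    simp [Matrix.one_apply, ite_and]
    simp only [ridx_true, ridx_false]
    by_cases h2 : k = t.1.1 <;> by_cases h3 : t.1.2.1 = l
    · simp [h2, h3]
    · simp [h2, h3, eq_comm]
    · have h2' : ¬ t.1.1 = k := fun h => h2 h.symm
      simp [h2, h2', h3]
    · have h2' : ¬ t.1.1 = k := fun h => h2 h.symm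
      simp [h2, h2', h3]
  have h2 : (∑ t : {t // t ∈ trm ψ}, if t.1.1 = k ∧ t.1.2.1 = l then
          MonoidAlgebra.single t.1.2.2 ((ψ t.1.1 t.1.2.1).coeff t.1.2.2) else 0).coeff g
      = (ψ k l).coeff g := by
    rw [coeff_sum']
    have h3 : ∀ t : {t // t ∈ trm ψ}, (if t.1.1 = k ∧ t.1.2.1 = l then
          MonoidAlgebra.single t.1.2.2 ((ψ t.1.1 t.1.2.1).coeff t.1.2.2) else 0).coeff g
        = if t.1 = (k, l, g) then (ψ k l).coeff g else 0 := by
      rintro ⟨⟨k', l', g'⟩, ht⟩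
      simp only [Prod.mk.injEq]
      by_cases h4 : k' = k ∧ l' = l
      · obtain ⟨rfl, rfl⟩ := h4
        rw [if_pos ⟨rfl, rfl⟩, MonoidAlgebra.coeff_single, Finsupp.single_apply]
        by_cases h5 : g' = g
        · subst h5; simp
        · simp [h5]
      · rw [if_neg h4, if_neg (fun h => h4 ⟨h.1, h.2.1⟩)]
        rfl
    simp only [h3]
    by_cases h4 : (k, l, g) ∈ trm ψ
    · rw [Finset.sum_eq_single_of_mem (⟨(k, l, g), h4⟩ : {t // t ∈ trm ψ}) (Finset.mem_univ _)]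
      · simp
      · intro t _ ht
        rw [if_neg]
        exact fun h => ht (Subtype.ext h)
    · rw [Finset.sum_eq_zero]
      · rw [mem_trm] at h4
        simp only [ne_eq, not_not] at h4
        exact h4.symm
      · intro t _
        rw [if_neg]
        intro h
        exact h4 (h ▸ t.2)
  rw [h1, h2]

/-- the labels of the refined form -/
noncomputable def rlab (S : Sys Γ Λ) (b : Bool) {ℓ : κ → Λ} (ψ : Matrix κ κ (MonoidAlgebra ℤ Γ))
    (h : Sup ℓ ℓ (S.R b) ψ) (i : RI ψ) : Ref S b :=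
  if i.2 then ⟨(ℓ i.1.1.1, i.1.1.2.2 • ℓ i.1.1.2.1), h _ _ _ ((mem_trm ψ i.1.1).mp i.1.2)⟩
  else ⟨(ℓ i.1.1.2.1, i.1.1.2.2⁻¹ • ℓ i.1.1.1), by
    have h1 := S.inv b (i.1.1.2.2)⁻¹ _ _ (h _ _ _ ((mem_trm ψ i.1.1).mp i.1.2))
    rw [inv_smul_smul] at h1
    exact S.symm b _ _ h1⟩

theorem rlab_fst (S : Sys Γ Λ) (b : Bool) {ℓ : κ → Λ} (ψ : Matrix κ κ (MonoidAlgebra ℤ Γ))
    (h : Sup ℓ ℓ (S.R b) ψ) (i : RI ψ) : (rlab S b ψ h i).1.1 = ℓ (ridx ψ i) := by
  rcases i with ⟨t, s⟩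
  cases s <;> rfl

theorem sup_rform (S : Sys Γ Λ) (b : Bool) {ℓ : κ → Λ} (ψ : Matrix κ κ (MonoidAlgebra ℤ Γ))
    (h : Sup ℓ ℓ (S.R b) ψ) : Sup (rlab S b ψ h) (rlab S b ψ h) ((refSys S b).R b) (rform ψ) := by
  classical
  rintro ⟨t, s⟩ ⟨t', s'⟩ g hg
  unfold rform at hg
  split_ifs at hg with h1
  · obtain ⟨h2, h3, h4⟩ := h1
    simp only at h2 h3 h4
    subst h2 h3 h4
    rw [MonoidAlgebra.coeff_single, Finsupp.single_apply] at hg
    have h5 : t.1.2.2 = g := by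
      by_contra h6
      exact hg (if_neg h6)
    change refR S b b _ _
    unfold refR
    rw [if_pos rfl, ref_smul]
    change (g • ℓ t.1.2.1, g • t.1.2.2⁻¹ • ℓ t.1.1) = (t.1.2.2 • ℓ t.1.2.1, ℓ t.1.1)
    rw [h5, smul_inv_smul]
  · exact absurd rfl hg

theorem sup_other (S : Sys Γ Λ) (b c : Bool) (hc : c ≠ b) {ℓ : κ → Λ}
    (ψ θ : Matrix κ κ (MonoidAlgebra ℤ Γ)) (h : Sup ℓ ℓ (S.R b) ψ) (h' : Sup ℓ ℓ (S.R c) θ) :
    Sup (rlab S b ψ h) (rlab S b ψ h) ((refSys S b).R c)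
      (adj (rmat ψ) * θ * rmat ψ) := by
  rw [rmat_mul]
  intro i j g hg
  change refR S b c _ _
  unfold refR
  rw [if_neg hc, rlab_fst, ref_smul]
  dsimp only
  rw [rlab_fst]
  exact h' _ _ _ hg

end refine_form

section main

theorem symm_conj (ε : ℤ) {κ M : Type} [Fintype κ] [Fintype M] (Y : Matrix κ M (MonoidAlgebra ℤ Γ))
    (θ : Matrix κ κ (MonoidAlgebra ℤ Γ)) :
    adj Y * θ * Y + ε • adj (adj Y * θ * Y) = adj Y * (θ + ε • adj θ) * Y := by
  simp only [adj_mul, adj_adj, Matrix.mul_add, Matrix.add_mul, Matrix.mul_smul,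
    Matrix.smul_mul, Matrix.mul_assoc]

theorem symm_conj' (ε : ℤ) {κ M : Type} [Fintype κ] [Fintype M] (Y : Matrix κ M (MonoidAlgebra ℤ Γ))
    (θ : Matrix M M (MonoidAlgebra ℤ Γ)) :
    Y * θ * adj Y + ε • adj (Y * θ * adj Y) = Y * (θ + ε • adj θ) * adj Y := by
  simp only [adj_mul, adj_adj, Matrix.mul_add, Matrix.add_mul, Matrix.mul_smul,
    Matrix.smul_mul, Matrix.mul_assoc]

/-- the case in which all stabilisers have good kernels -/
theorem stage_zero {Λ : Type} [MulAction Γ Λ] (S : Sys Γ Λ) (hno : ∀ g : Γ, g = g⁻¹ → g = 1)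
    {ε : ℤ} (hε : ε * ε = 1) (hS : ∀ x : Λ, LFK (MulAction.stabilizer Γ x))
    {κ : Type} [Fintype κ] [DecidableEq κ] (ℓ : κ → Λ) (ψ : Bool → Matrix κ κ (MonoidAlgebra ℤ Γ))
    (hψ : ∀ c, Sup ℓ ℓ (S.R c) (ψ c)) (N : ℕ)
    (hN : ((ψ true + ε • adj (ψ true)) * (ψ false + ε • adj (ψ false))) ^ N = 0) :
    Z0 ε (ufb ψ) := by
  classical
  have hrep : ∀ k, ∃ g : Γ, g • ℓ k = (Quotient.out (Quotient.mk (MulAction.orbitRel Γ Λ) (ℓ k))) := by
    intro k
    have h1 : Quotient.mk (MulAction.orbitRel Γ Λ) (Quotient.out (Quotient.mk (MulAction.orbitRel Γ Λ) (ℓ k)))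
        = Quotient.mk (MulAction.orbitRel Γ Λ) (ℓ k) := Quotient.out_eq _
    have h2 := Quotient.exact h1
    exact h2
  choose u hu using hrep
  let ℓ₁ : κ → Λ := fun k => u k • ℓ k
  have hn : Nrm Γ ℓ₁ := by
    intro k l g hg
    have h1 : (MulAction.orbitRel Γ Λ) (ℓ l) (ℓ k) := by
      change ℓ l ∈ MulAction.orbit Γ (ℓ k)
      refine ⟨(u l)⁻¹ * (g * u k), ?_⟩
      change ((u l)⁻¹ * (g * u k)) • ℓ k = ℓ l
      rw [mul_smul, mul_smul]
      change (u l)⁻¹ • g • ℓ₁ k = ℓ l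
      rw [hg]
      exact inv_smul_smul _ _
    change u k • ℓ k = u l • ℓ l
    rw [hu, hu, Quotient.sound h1]
  have hD := Dm_mul_inv u
  have hDs : ∀ (R : Λ → Λ → Prop) (_ : Inv Γ R) (θ : Matrix κ κ (MonoidAlgebra ℤ Γ)),
      Sup ℓ ℓ R θ → Sup ℓ₁ ℓ₁ R (Dm u * θ * adj (Dm u)) := by
    intro R hR θ hθ i j g hg
    rw [Dm_mul] at hg
    have h1 := hR (u i) _ _ (hθ _ _ _ hg)
    rw [smul_smul] at h1
    have h2 : u i * ((u i)⁻¹ * g * u j) = g * u j := by group
    rw [h2, mul_smul] at h1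
    exact h1
  let ψ₁ : Bool → Matrix κ κ (MonoidAlgebra ℤ Γ) := fun c => Dm u * ψ c * adj (Dm u)
  have hse : SE ε (ufb ψ) (ufb ψ₁) := by
    have h1 := exchange ε (ψ true) (Dm u * ψ false * adj (Dm u)) (Dm u)
    have h2 : adj (Dm u) * (Dm u * ψ false * adj (Dm u)) * Dm u = ψ false := by
      have h3 : adj (Dm u) * (Dm u * ψ false * adj (Dm u)) * Dm u
          = (adj (Dm u) * Dm u) * ψ false * (adj (Dm u) * Dm u) := by
        simp only [Matrix.mul_assoc]
      rw [h3, hD.2, Matrix.one_mul, Matrix.mul_one]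
    rw [h2] at h1
    exact h1.symm
  refine Z0.of_SE hse ?_
  refine final_stage S hno hε (2 * N) false ℓ₁ hn (fun k => hS _) ψ₁ (fun c => hDs _ (S.inv c) _ (hψ c)) ?_
  rw [apr_pow]
  have h1 : ∀ c, ψ₁ c + ε • adj (ψ₁ c) = Dm u * (ψ c + ε • adj (ψ c)) * adj (Dm u) := fun c =>
    symm_conj' ε (Dm u) (ψ c)
  rw [h1, h1]
  have h2 : Dm u * (ψ true + ε • adj (ψ true)) * adj (Dm u) * (Dm u * (ψ false + ε • adj (ψ false))
      * adj (Dm u)) = Dm u * ((ψ true + ε • adj (ψ true)) * (ψ false + ε • adj (ψ false)))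
        * adj (Dm u) := by
    have h3 : Dm u * (ψ true + ε • adj (ψ true)) * adj (Dm u) * (Dm u * (ψ false + ε • adj (ψ false))
      * adj (Dm u)) = Dm u * (ψ true + ε • adj (ψ true)) * (adj (Dm u) * Dm u)
        * (ψ false + ε • adj (ψ false)) * adj (Dm u) := by simp only [Matrix.mul_assoc]
    rw [h3, hD.2, Matrix.mul_one]
    simp only [Matrix.mul_assoc]
  rw [h2]
  have h4 : ∀ (X : Matrix κ κ (MonoidAlgebra ℤ Γ)) (n : ℕ), (Dm u * X * adj (Dm u)) ^ n
      = Dm u * X ^ n * adj (Dm u) := by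
    intro X n
    induction n with
    | zero => rw [pow_zero, pow_zero, Matrix.mul_one, hD.1]
    | succ n ih =>
      rw [pow_succ, ih, pow_succ]
      have h5 : Dm u * X ^ n * adj (Dm u) * (Dm u * X * adj (Dm u))
          = Dm u * X ^ n * (adj (Dm u) * Dm u) * X * adj (Dm u) := by simp only [Matrix.mul_assoc]
      rw [h5, hD.2, Matrix.mul_one]
      simp only [Matrix.mul_assoc]
  rw [h4, hN, Matrix.mul_zero, Matrix.zero_mul]

theorem stage (hno : ∀ g : Γ, g = g⁻¹ → g = 1) {ε : ℤ} (hε : ε * ε = 1) (m : ℕ) :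
    ∀ {Λ : Type} [MulAction Γ Λ] (S : Sys Γ Λ) (b : Bool)
      (_ : ∀ x z : Λ, Wk S.R b m x z →
        LFK (MulAction.stabilizer Γ x ⊓ MulAction.stabilizer Γ z))
      {κ : Type} [Fintype κ] [DecidableEq κ] (ℓ : κ → Λ)
      (ψ : Bool → Matrix κ κ (MonoidAlgebra ℤ Γ)) (_ : ∀ c, Sup ℓ ℓ (S.R c) (ψ c)) (N : ℕ)
      (_ : ((ψ true + ε • adj (ψ true)) * (ψ false + ε • adj (ψ false))) ^ N = 0),
      Z0 ε (ufb ψ) := by
  induction m with
  | zero =>
    intro Λ _ S b hyp κ _ _ ℓ ψ hψ N hN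
    refine stage_zero S hno hε (fun x => ?_) ℓ ψ hψ N hN
    exact (hyp x x rfl).mono (le_inf le_rfl le_rfl)
  | succ m ih =>
    intro Λ _ S b hyp κ _ _ ℓ ψ hψ N hN
    let _ : DecidableEq (RI (ψ b)) := Classical.decEq _
    have h1 := se_nxt ε ψ b (rmat (ψ b)) (rform (ψ b)) 0 (by
      rw [adj_zero, smul_zero, sub_zero, add_zero]; exact rmat_form (ψ b))
    refine Z0.of_SE h1 ?_
    refine ih (refSys S b) (!b) ?_ (rlab S b (ψ b) (hψ b)) _ ?_ (N + 1) ?_
    · intro P Q hPQ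
      refine (hyp P.1.1 Q.1.2 ⟨Q.1.1, wk_proj S b m (!b) P Q hPQ, Q.2⟩).mono ?_
      intro g hg
      rw [Subgroup.mem_inf, MulAction.mem_stabilizer_iff, MulAction.mem_stabilizer_iff] at hg ⊢
      exact ⟨congrArg (fun P => P.1.1) hg.1, congrArg (fun P => P.1.2) hg.2⟩
    · intro c
      by_cases hc : c = b
      · subst hc
        simp only [nxt, if_true]
        exact sup_rform S c (ψ c) (hψ c)
      · simp only [nxt, if_neg hc]
        exact sup_other S b c hc (ψ b) (ψ c) (hψ b) (hψ c)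
    · refine nil_new (fun c => ψ c + ε • adj (ψ c)) (fun c => nxt ψ b (rmat (ψ b)) (rform (ψ b)) c
        + ε • adj (nxt ψ b (rmat (ψ b)) (rform (ψ b)) c)) (rmat (ψ b)) b ?_ ?_ N hN
      · simp only [nxt, if_true]
        rw [← symm_conj', ← rmat_form]
      · have hnb : (!b) ≠ b := by cases b <;> decide
        simp only [nxt, if_neg hnb]
        exact symm_conj ε _ _

end main

end Pool.Agent.T9h15.UN
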