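import Pool.Agent.T9h15.UN.Lift

set_option autoImplicit false
set_option linter.unusedSectionVars false
set_option linter.unusedSimpArgs false

/-! Factorisation of labelled symmetric matrices. -/

namespace Pool.Agent.T9h15.UN

open Matrix TH6.LF

variable {Γ : Type} [Group Γ] {Λ : Type} [MulAction Γ Λ] {κ : Type} [Fintype κ] [DecidableEq κ]

theorem eq_trans_rel {R : Λ → Λ → Prop} (x y z : Λ) (h : x = y) (h' : R y z) : R x z := by
  rw [h]; exact h'

theorem factor {ε : ℤ} (hε : ε * ε = 1) {ℓ : κ → Λ} (hn : Nrm Γ ℓ) (hK : SK Γ ℓ)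
    {R : Λ → Λ → Prop} (hR : Inv Γ R) (hRs : ∀ x y, R x y → R y x)
    (L : Matrix κ κ (MonoidAlgebra ℤ Γ)) (hL : adj L = ε • L) (hS : Sup ℓ ℓ R L) :
    ∃ (M : Type) (_ : Fintype M) (_ : DecidableEq M) (ℓM : M → Λ)
      (Y : Matrix κ M (MonoidAlgebra ℤ Γ)) (L' : Matrix M M (MonoidAlgebra ℤ Γ)),
      (∀ j, ∃ k, ℓM j = ℓ k) ∧ Sup ℓ ℓM (fun x y => x = y) Y ∧
      L = Y * L' * adj Y ∧ adj L' = ε • L' ∧ Sup ℓM ℓM R L' ∧
      (∀ y v, At ℓ y v → v ᵥ* L = 0 → v ᵥ* Y = 0) ∧
      (∀ {ι : Type} (Z : Matrix M ι (MonoidAlgebra ℤ Γ)), Y * L' * Z = 0 → L' * Z = 0) := by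
  obtain ⟨M₁, i1, i2, ℓ₁, X, e₁, hl1, hX, -, hXL, -, hker, -⟩ := lift_all hn hK L
  have hXa : Sup ℓ ℓ₁ (fun x y => x = y) (adj X) := hX.adj inv_eq (fun x y h => h.symm)
  obtain ⟨M, i3, i4, ℓM, Z, e, hl2, hZ, he, hZX, heZ, hkerZ, hinjZ⟩ := lift_eq hn hK (adj X) hXa
  have hXY : X * adj Z = 0 := by
    have h := congrArg adj hZX
    rwa [adj_mul, adj_adj, adj_zero] at h
  have hYe : adj Z * adj e = adj Z := by
    have h := congrArg adj heZ
    rwa [adj_mul] at h
  -- the right kernel of `X` is the image of `adj Z`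
  have hright : ∀ {ι : Type} (W : Matrix κ ι (MonoidAlgebra ℤ Γ)), X * W = 0 →
      ∃ S : Matrix M ι (MonoidAlgebra ℤ Γ), W = adj Z * S ∧ adj e * S = S := by
    intro ι W hW
    have h := congrArg adj hW
    rw [adj_mul, adj_zero] at h
    obtain ⟨S, hS⟩ := hkerZ (adj W) h
    have h1 : W = adj Z * adj S := by
      have h2 := congrArg adj hS
      rwa [adj_adj, adj_mul] at h2
    have h3 : adj e * adj e = adj e := by
      have h4 : (e - 1) * Z = 0 := by rw [Matrix.sub_mul, heZ, Matrix.one_mul, sub_self]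
      have h5 := hinjZ _ h4
      rw [Matrix.sub_mul, Matrix.one_mul, sub_eq_zero] at h5
      rw [← adj_mul, h5]
    refine ⟨adj e * adj S, ?_, ?_⟩
    · rw [← Matrix.mul_assoc, hYe]; exact h1
    · rw [← Matrix.mul_assoc, h3]
  have hinj : ∀ {ι : Type} (W : Matrix M ι (MonoidAlgebra ℤ Γ)), adj Z * W = 0 →
      adj e * W = 0 := by
    intro ι W hW
    have h := congrArg adj hW
    rw [adj_mul, adj_zero, adj_adj] at h
    have h1 := congrArg adj (hinjZ _ h)
    rwa [adj_mul, adj_adj, adj_zero] at h1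
  obtain ⟨L₁, hL1, heL1⟩ := hright L hXL
  have h1 : L₁ * adj X = 0 := by
    have h2 : adj Z * (L₁ * adj X) = 0 := by
      rw [← Matrix.mul_assoc, ← hL1]
      have h3 : L * adj X = ε • (adj (X * L)) := by
        rw [adj_mul, hL, Matrix.smul_mul, smul_smul, hε, one_smul]
      rw [h3, hXL, adj_zero, smul_zero]
    have h3 := hinj _ h2
    rwa [← Matrix.mul_assoc, heL1] at h3
  have h2 : X * adj L₁ = 0 := by
    have h3 := congrArg adj h1
    rwa [adj_mul, adj_adj, adj_zero] at h3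
  obtain ⟨L₂, hL2, heL2⟩ := hright _ h2
  have hL1' : L₁ = adj L₂ * Z := by
    have h3 := congrArg adj hL2
    rwa [adj_adj, adj_mul, adj_adj] at h3
  have hL2' : adj L₂ * e = adj L₂ := by
    have h3 := congrArg adj heL2
    rwa [adj_mul, adj_adj] at h3
  -- first version of the small matrix
  let K := adj e * adj L₂
  have hee : adj e * adj e = adj e := by
    have h4 : (e - 1) * Z = 0 := by rw [Matrix.sub_mul, heZ, Matrix.one_mul, sub_self]
    have h5 := hinjZ _ h4
    rw [Matrix.sub_mul, Matrix.one_mul, sub_eq_zero] at h5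
    rw [← adj_mul, h5]
  have hK1 : adj e * K = K := by simp only [K]; rw [← Matrix.mul_assoc, hee]
  have hK2 : K * e = K := by simp only [K]; rw [Matrix.mul_assoc, hL2']
  have hK3 : L = adj Z * K * adj (adj Z) := by
    simp only [K]
    rw [adj_adj, ← Matrix.mul_assoc, hYe, Matrix.mul_assoc, ← hL1', ← hL1]
  -- truncation
  let L' := trc R ℓM ℓM K
  have hY : Sup ℓ ℓM (fun x y => x = y) (adj Z) := hZ.adj inv_eq (fun x y h => h.symm)
  have hae : Sup ℓM ℓM (fun x y => x = y) (adj e) := he.adj inv_eq (fun x y h => h.symm)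
  have hL3 : L = adj Z * L' * adj (adj Z) := by
    have h3 : trc R ℓ ℓ (adj Z * K * adj (adj Z)) = adj Z * L' * adj (adj Z) := by
      rw [trc_mul_right hR hRs hY, trc_mul_left hR hY]
    rw [← h3, ← hK3, trc_of_sup hS]
  have hL4 : adj e * L' = L' := by
    have h3 : trc R ℓM ℓM (adj e * K) = adj e * L' := trc_mul_left hR hae K
    rw [← h3, hK1]
  have hL5 : L' * e = L' := by
    have h3 : trc R ℓM ℓM (K * adj (adj e)) = L' * adj (adj e) := trc_mul_right hR hRs hae K
    rw [adj_adj] at h3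
    rw [← h3, hK2]
  refine ⟨M, i3, i4, ℓM, adj Z, L', hl2, hY, hL3, ?_, sup_trc R K, ?_, ?_⟩
  · have h3 : adj Z * (adj L' - ε • L') * Z = 0 := by
      have h4 : adj Z * adj L' * Z = ε • (adj Z * L' * Z) := by
        have h5 := congrArg adj hL3
        simp only [hL, adj_mul, adj_adj] at h5
        rw [adj_adj] at hL3
        rw [← hL3, h5, Matrix.mul_assoc]
      rw [Matrix.mul_sub, Matrix.sub_mul, h4, Matrix.mul_smul, Matrix.smul_mul, sub_self]
    rw [Matrix.mul_assoc] at h3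
    have h4 := hinj _ h3
    rw [← Matrix.mul_assoc] at h4
    have h5 := hinjZ _ h4
    have h6 : adj e * adj L' * e = adj L' := by
      have h7 : adj e * adj L' = adj L' := by
        have h8 := congrArg adj hL5
        rwa [adj_mul] at h8
      have h9 : adj L' * e = adj L' := by
        have h8 := congrArg adj hL4
        rwa [adj_mul, adj_adj] at h8
      rw [h7, h9]
    rw [Matrix.mul_sub, Matrix.sub_mul, h6, Matrix.mul_smul, Matrix.smul_mul, hL4, hL5,
      sub_eq_zero] at h5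
    exact h5
  · intro y v hv hvL
    obtain ⟨s, hs⟩ := hker y v hv hvL
    rw [hs, Matrix.vecMul_vecMul, hXY, Matrix.vecMul_zero]
  · intro ι W hW
    rw [Matrix.mul_assoc] at hW
    have h3 := hinj _ hW
    rwa [← Matrix.mul_assoc, hL4] at h3

/-- symmetric matrices without central terms are symmetrisations -/
theorem half (hno : ∀ g : Γ, g = g⁻¹ → g = 1) {ε : ℤ} (hε : ε * ε = 1) {ℓ : κ → Λ}
    {R : Λ → Λ → Prop} (hirr : ∀ x, ¬ R x x)
    (L : Matrix κ κ (MonoidAlgebra ℤ Γ)) (hL : adj L = ε • L) (hS : Sup ℓ ℓ R L) :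
    ∃ ψ : Matrix κ κ (MonoidAlgebra ℤ Γ), L = ψ + ε • adj ψ ∧ Sup ℓ ℓ R ψ := by
  classical
  let W : (κ × κ × Γ) → (κ × κ × Γ) → Prop := WellOrderingRel
  let χ : Matrix κ κ (MonoidAlgebra ℤ Γ) := fun i j =>
    .ofCoeff ((L i j).coeff.filter (fun g => W (i, j, g) (j, i, g⁻¹)))
  have hχ : ∀ i j g, (χ i j).coeff g = if W (i, j, g) (j, i, g⁻¹) then (L i j).coeff g else 0 := by
    intro i j g
    simp only [χ, Finsupp.filter_apply]
  have hsym : ∀ i j g, (L j i).coeff g⁻¹ = ε * (L i j).coeff g := by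
    intro i j g
    have h1 := congrArg (fun A : Matrix κ κ (MonoidAlgebra ℤ Γ) => (A i j).coeff g) hL
    simp only [coeff_adj, Matrix.smul_apply, coeff_zsmul'] at h1
    exact h1
  refine ⟨χ, ?_, ?_⟩
  · ext i j g
    rw [Matrix.add_apply, coeff_add', Matrix.smul_apply, coeff_zsmul', coeff_adj, hχ, hχ, inv_inv]
    have h3 : ε * (L j i).coeff g⁻¹ = (L i j).coeff g := by
      rw [hsym, ← mul_assoc, hε, one_mul]
    rcases trichotomous_of WellOrderingRel (i, j, g) (j, i, g⁻¹) with h | h | h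
    · have h' : ¬ W (j, i, g⁻¹) (i, j, g) := fun h'' => asymm_of WellOrderingRel h h''
      rw [if_pos h, if_neg h', mul_zero, add_zero]
    · simp only [Prod.mk.injEq] at h
      obtain ⟨rfl, _, h4⟩ := h
      have h5 := hno g h4
      subst h5
      have h6 : (L i i).coeff 1 = 0 := by
        by_contra h7
        exact hirr _ (by have := hS i i 1 h7; rwa [one_smul] at this)
      rw [inv_one, h6]
      simp
    · have h' : ¬ W (i, j, g) (j, i, g⁻¹) := fun h'' => asymm_of WellOrderingRel h h''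
      rw [if_neg h', if_pos h, zero_add, h3]
  · intro i j g hg
    rw [hχ] at hg
    split_ifs at hg with h
    · exact hS i j g hg
    · exact absurd rfl hg

end Pool.Agent.T9h15.UN
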